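import Pool.Agent.W554.CR.Tangent

set_option autoImplicit false

open scoped ContDiff Topology ComplexConjugate
open MeasureTheory

noncomputable section

namespace Pool.Agent.W554.CR

def NI (x : Fin 4 → ℂ) : ℂ := (NE x)⁻¹

def PE (x v : Fin 4 → ℂ) : ℂ :=
  (((conj (x 0) * m1E x + conj (x 1) * m2E x) * v 0 -
      (conj (x 0) * m0E x + conj (x 1) * m1E x) * v 1) +
    ((conj (x 1) * m1E x + conj (x 2) * m2E x) * v 1 -
      (conj (x 1) * m0E x + conj (x 2) * m1E x) * v 2) +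
    ((conj (x 2 + 3) * m1E x + conj (x 3) * m2E x) * v 2 -
      (conj (x 2 + 3) * m0E x + conj (x 3) * m1E x) * v 3)) * NI x

def QE (x v : Fin 4 → ℂ) : ℂ :=
  (((conj (x 0) * m2E x + conj (x 1) * m3E x) * v 0 -
      (conj (x 0) * m1E x + conj (x 1) * m2E x) * v 1) +
    ((conj (x 1) * m2E x + conj (x 2) * m3E x) * v 1 -
      (conj (x 1) * m1E x + conj (x 2) * m2E x) * v 2) +
    ((conj (x 2 + 3) * m2E x + conj (x 3) * m3E x) * v 2 -
      (conj (x 2 + 3) * m1E x + conj (x 3) * m2E x) * v 3)) * NI x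

/-- A nowhere vanishing section of the third power of the dual of `H`. -/
def secE (x v : Fin 4 → ℂ) : ℂ :=
  PE x v ^ 3 * conj (m0E x) + 3 * (PE x v ^ 2 * QE x v) * conj (m1E x) +
    3 * (PE x v * QE x v ^ 2) * conj (m2E x) + QE x v ^ 3 * conj (m3E x)

theorem continuous_secE : Continuous (fun y : (Fin 4 → ℂ) × (Fin 4 → ℂ) => secE y.1 y.2) := by
  have h0 : Continuous m0E := contDiff_m0E.continuous
  have h1 : Continuous m1E := contDiff_m1E.continuous
  have h2 : Continuous m2E := contDiff_m2E.continuous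
  have h3 : Continuous m3E := contDiff_m3E.continuous
  have hN : Continuous NI := contDiff_NE.continuous.inv₀ NE_ne
  have hc : Continuous (fun z : ℂ => conj z) := Complex.continuous_conj
  unfold secE PE QE
  fun_prop

section
variable {p : ℂ × ℂ}

theorem conj_FF_0 (p : ℂ × ℂ) : conj (FF p 0) = conj (k0 p) * conj p.1 := by
  rw [FF_0, map_mul]
theorem conj_FF_3 (p : ℂ × ℂ) : conj (FF p 3) = conj (k2 p) * conj p.2 := by
  rw [FF_3, map_mul]

theorem PE_FF (hp : p ∈ S3) (a : ℂ) : PE (FF p) (a • VV p) = a * p.1 := by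
  have h := S3_eq hp
  have hK := KKK_ne hp
  have e0 := VV_0 hp
  have e1 := VV_1 hp
  have e2 := VV_2 hp
  have c1 : conj (FF p 1) = conj (k0 p) * conj p.2 := by rw [FF_1, map_mul]
  have c1' : conj (FF p 1) = conj (k1 p) * conj p.1 := by rw [FF_1', map_mul]
  have c2 : conj (FF p 2) = conj (k1 p) * conj p.2 := by rw [FF_2, map_mul]
  have c2' : conj (FF p 2 + 3) = conj (k2 p) * conj p.1 := by rw [FF_2' hp, map_mul]
  have step0 : (conj (FF p 0) * m1E (FF p) + conj (FF p 1) * m2E (FF p)) * (a • VV p) 0 -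
      (conj (FF p 0) * m0E (FF p) + conj (FF p 1) * m1E (FF p)) * (a • VV p) 1 =
      a * p.1 * (k0 p * conj (k0 p)) := by
    rw [conj_FF_0, c1, m0E_FF hp, m1E_FF hp, m2E_FF hp]
    simp only [Pi.smul_apply, smul_eq_mul]
    linear_combination (a * p.1 * conj (k0 p) * (p.2 * VV p 0 - p.1 * VV p 1)) * h +
      (a * p.1 * conj (k0 p)) * e0
  have step1 : (conj (FF p 1) * m1E (FF p) + conj (FF p 2) * m2E (FF p)) * (a • VV p) 1 -
      (conj (FF p 1) * m0E (FF p) + conj (FF p 2) * m1E (FF p)) * (a • VV p) 2 =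
      a * p.1 * (k1 p * conj (k1 p)) := by
    rw [c1', c2, m0E_FF hp, m1E_FF hp, m2E_FF hp]
    simp only [Pi.smul_apply, smul_eq_mul]
    linear_combination (a * p.1 * conj (k1 p) * (p.2 * VV p 1 - p.1 * VV p 2)) * h +
      (a * p.1 * conj (k1 p)) * e1
  have step2 : (conj (FF p 2 + 3) * m1E (FF p) + conj (FF p 3) * m2E (FF p)) * (a • VV p) 2 -
      (conj (FF p 2 + 3) * m0E (FF p) + conj (FF p 3) * m1E (FF p)) * (a • VV p) 3 =
      a * p.1 * (k2 p * conj (k2 p)) := by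
    rw [c2', conj_FF_3, m0E_FF hp, m1E_FF hp, m2E_FF hp]
    simp only [Pi.smul_apply, smul_eq_mul]
    linear_combination (a * p.1 * conj (k2 p) * (p.2 * VV p 2 - p.1 * VV p 3)) * h +
      (a * p.1 * conj (k2 p)) * e2
  rw [PE, step0, step1, step2, NI, NE_FF hp, mul_inv_eq_iff_eq_mul₀ hK, KKK]
  ring

theorem QE_FF (hp : p ∈ S3) (a : ℂ) : QE (FF p) (a • VV p) = a * p.2 := by
  have h := S3_eq hp
  have hK := KKK_ne hp
  have e0 := VV_0 hp
  have e1 := VV_1 hp
  have e2 := VV_2 hp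
  have c1 : conj (FF p 1) = conj (k0 p) * conj p.2 := by rw [FF_1, map_mul]
  have c1' : conj (FF p 1) = conj (k1 p) * conj p.1 := by rw [FF_1', map_mul]
  have c2 : conj (FF p 2) = conj (k1 p) * conj p.2 := by rw [FF_2, map_mul]
  have c2' : conj (FF p 2 + 3) = conj (k2 p) * conj p.1 := by rw [FF_2' hp, map_mul]
  have step0 : (conj (FF p 0) * m2E (FF p) + conj (FF p 1) * m3E (FF p)) * (a • VV p) 0 -
      (conj (FF p 0) * m1E (FF p) + conj (FF p 1) * m2E (FF p)) * (a • VV p) 1 =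
      a * p.2 * (k0 p * conj (k0 p)) := by
    rw [conj_FF_0, c1, m1E_FF hp, m2E_FF hp, m3E_FF hp]
    simp only [Pi.smul_apply, smul_eq_mul]
    linear_combination (a * p.2 * conj (k0 p) * (p.2 * VV p 0 - p.1 * VV p 1)) * h +
      (a * p.2 * conj (k0 p)) * e0
  have step1 : (conj (FF p 1) * m2E (FF p) + conj (FF p 2) * m3E (FF p)) * (a • VV p) 1 -
      (conj (FF p 1) * m1E (FF p) + conj (FF p 2) * m2E (FF p)) * (a • VV p) 2 =
      a * p.2 * (k1 p * conj (k1 p)) := by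
    rw [c1', c2, m1E_FF hp, m2E_FF hp, m3E_FF hp]
    simp only [Pi.smul_apply, smul_eq_mul]
    linear_combination (a * p.2 * conj (k1 p) * (p.2 * VV p 1 - p.1 * VV p 2)) * h +
      (a * p.2 * conj (k1 p)) * e1
  have step2 : (conj (FF p 2 + 3) * m2E (FF p) + conj (FF p 3) * m3E (FF p)) * (a • VV p) 2 -
      (conj (FF p 2 + 3) * m1E (FF p) + conj (FF p 3) * m2E (FF p)) * (a • VV p) 3 =
      a * p.2 * (k2 p * conj (k2 p)) := by
    rw [c2', conj_FF_3, m1E_FF hp, m2E_FF hp, m3E_FF hp]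
    simp only [Pi.smul_apply, smul_eq_mul]
    linear_combination (a * p.2 * conj (k2 p) * (p.2 * VV p 2 - p.1 * VV p 3)) * h +
      (a * p.2 * conj (k2 p)) * e2
  rw [QE, step0, step1, step2, NI, NE_FF hp, mul_inv_eq_iff_eq_mul₀ hK, KKK]
  ring

theorem secE_FF (hp : p ∈ S3) (a : ℂ) : secE (FF p) (a • VV p) = a ^ 3 := by
  have h := S3_eq hp
  have h3 : (p.1 * conj p.1 + p.2 * conj p.2) ^ 3 = 1 := by rw [h, one_pow]
  rw [secE, PE_FF hp, QE_FF hp, m0E_FF hp, m1E_FF hp, m2E_FF hp, m3E_FF hp]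
  simp only [map_mul, map_pow]
  linear_combination (a ^ 3) * h3

end

theorem torsionChernClass_MM : TorsionChernClass MM := by
  refine ⟨3, secE, by norm_num, continuous_secE.continuousOn, ?_⟩
  rintro _ ⟨p, hp, rfl⟩ v hv
  obtain ⟨a, rfl⟩ := (mem_Hol_iff hp).1 hv
  refine ⟨fun b => ?_, fun h0 => ?_⟩
  · rw [smul_smul, secE_FF hp, secE_FF hp, mul_pow]
  · rw [secE_FF hp]
    intro h
    have ha : a = 0 := pow_eq_zero_iff (by norm_num) |>.1 h
    exact h0 (by rw [ha, zero_smul])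

end Pool.Agent.W554.CR
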