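import Pool.Agent.W554.CR.Bracket

set_option autoImplicit false

open scoped ContDiff Topology ComplexConjugate
open MeasureTheory

noncomputable section

namespace Pool.Agent.W554.CR

/-- The coefficient functions of the contact form. -/
def c0E (x : Fin 4 → ℂ) : ℂ := 1 / 3 * conj (m0E x)
def c1E (x : Fin 4 → ℂ) : ℂ := conj (m1E x) - 4 * conj (pE x)
def c2E (x : Fin 4 → ℂ) : ℂ := conj (m2E x) - 4 * (rE x - sE x)
def c3E (x : Fin 4 → ℂ) : ℂ := 1 / 3 * conj (m3E x) + 4 * pE x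

/-- The contact form. -/
def thE (x : Fin 4 → ℂ) : (Fin 4 → ℂ) →L[ℝ] ℝ :=
  Complex.imCLM.comp (c0E x • fderiv ℝ m0E x + c1E x • fderiv ℝ m1E x + c2E x • fderiv ℝ m2E x +
    c3E x • fderiv ℝ m3E x)

theorem thE_apply (x v : Fin 4 → ℂ) : thE x v = (c0E x * fderiv ℝ m0E x v +
    c1E x * fderiv ℝ m1E x v + c2E x * fderiv ℝ m2E x v + c3E x * fderiv ℝ m3E x v).im := rfl

theorem contDiff_thE : ContDiff ℝ ∞ thE := by
  have h0 : ContDiff ℝ ∞ c0E := contDiff_const.mul (ContDiff.conj' contDiff_m0E)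
  have h1 : ContDiff ℝ ∞ c1E := (ContDiff.conj' contDiff_m1E).sub
    (contDiff_const.mul (ContDiff.conj' contDiff_pE))
  have h2 : ContDiff ℝ ∞ c2E := (ContDiff.conj' contDiff_m2E).sub
    (contDiff_const.mul (contDiff_rE.sub contDiff_sE))
  have h3 : ContDiff ℝ ∞ c3E := (contDiff_const.mul (ContDiff.conj' contDiff_m3E)).add
    (contDiff_const.mul contDiff_pE)
  have g0 : ContDiff ℝ ∞ (fderiv ℝ m0E) := contDiff_m0E.fderiv_right (by norm_num)
  have g1 : ContDiff ℝ ∞ (fderiv ℝ m1E) := contDiff_m1E.fderiv_right (by norm_num)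
  have g2 : ContDiff ℝ ∞ (fderiv ℝ m2E) := contDiff_m2E.fderiv_right (by norm_num)
  have g3 : ContDiff ℝ ∞ (fderiv ℝ m3E) := contDiff_m3E.fderiv_right (by norm_num)
  exact contDiff_const.clm_comp ((((h0.smul g0).add (h1.smul g1)).add (h2.smul g2)).add
    (h3.smul g3))

section
variable {J : (ℂ × ℂ) →L[ℝ] (ℂ × ℂ)} {v : ℂ × ℂ}

theorem fderiv_mono (v u : ℂ × ℂ) :
    fderiv ℝ (fun q : ℂ × ℂ => q.1 ^ 3) v u = 3 * v.1 ^ 2 * u.1 ∧
    fderiv ℝ (fun q : ℂ × ℂ => q.1 ^ 2 * q.2) v u = 2 * v.1 * v.2 * u.1 + v.1 ^ 2 * u.2 ∧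
    fderiv ℝ (fun q : ℂ × ℂ => q.1 * q.2 ^ 2) v u = v.2 ^ 2 * u.1 + 2 * v.1 * v.2 * u.2 ∧
    fderiv ℝ (fun q : ℂ × ℂ => q.2 ^ 3) v u = 3 * v.2 ^ 2 * u.2 := by
  have hz : HasFDerivAt (fun v : ℂ × ℂ => v.1) (ContinuousLinearMap.fst ℝ ℂ ℂ) v := hasFDerivAt_fst
  have hw : HasFDerivAt (fun v : ℂ × ℂ => v.2) (ContinuousLinearMap.snd ℝ ℂ ℂ) v := hasFDerivAt_snd
  refine ⟨?_, ?_, ?_, ?_⟩
  · refine (congrArg (fun L : (ℂ × ℂ) →L[ℝ] ℂ => L u) (hz.pow 3).fderiv).trans ?_
    simp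
  · refine (congrArg (fun L : (ℂ × ℂ) →L[ℝ] ℂ => L u) ((hz.pow 2).mul hw).fderiv).trans ?_
    simp
    ring
  · refine (congrArg (fun L : (ℂ × ℂ) →L[ℝ] ℂ => L u) (hz.mul (hw.pow 2)).fderiv).trans ?_
    simp
    ring
  · refine (congrArg (fun L : (ℂ × ℂ) →L[ℝ] ℂ => L u) (hw.pow 3).fderiv).trans ?_
    simp

theorem chain_J (hJ : IsRot J) (hv : v ∈ S3) {f : (Fin 4 → ℂ) → ℂ} (hf : ContDiff ℝ ∞ f)
    {g : ℂ × ℂ → ℂ} (hg : ContDiff ℝ ∞ g) (hfg : ∀ q ∈ S3, f (FF q) = g q) :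
    fderiv ℝ f (FF v) (fderiv ℝ FF v (J v)) = fderiv ℝ g v (J v) := by
  have h1 : DifferentiableAt ℝ FF v := contDiff_FF.differentiable (by norm_num) v
  have h2 : DifferentiableAt ℝ f (FF v) := hf.differentiable (by norm_num) _
  have h3 : fderiv ℝ (fun q => f (FF q)) v (J v) = fderiv ℝ f (FF v) (fderiv ℝ FF v (J v)) := by
    have := (h2.hasFDerivAt.comp v h1.hasFDerivAt).fderiv
    exact congrArg (fun L : (ℂ × ℂ) →L[ℝ] ℂ => L (J v)) this
  rw [← h3]
  exact fderiv_sphere hJ hv (h2.comp v h1) (hg.differentiable (by norm_num) v)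
    (Filter.Eventually.of_forall hfg)

theorem contDiff_mono : ContDiff ℝ ∞ (fun q : ℂ × ℂ => q.1 ^ 3) ∧
    ContDiff ℝ ∞ (fun q : ℂ × ℂ => q.1 ^ 2 * q.2) ∧
    ContDiff ℝ ∞ (fun q : ℂ × ℂ => q.1 * q.2 ^ 2) ∧ ContDiff ℝ ∞ (fun q : ℂ × ℂ => q.2 ^ 3) :=
  ⟨contDiff_fst.pow 3, (contDiff_fst.pow 2).mul contDiff_snd,
    contDiff_fst.mul (contDiff_snd.pow 2), contDiff_snd.pow 3⟩

/-- The pullback of the contact form to the sphere. -/
theorem pull_thE (hJ : IsRot J) (hv : v ∈ S3) : pull FF thE v (J v) =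
    (conj v.1 * (J v).1 + conj v.2 * (J v).2 - 4 * v.2 * (v.2 * (J v).1 - v.1 * (J v).2)).im := by
  have h := S3_eq hv
  obtain ⟨d0, d1', d2, d3⟩ := fderiv_mono v (J v)
  obtain ⟨e0, e1, e2, e3⟩ := contDiff_mono
  rw [pull_apply, thE_apply, chain_J hJ hv contDiff_m0E e0 (fun q hq => m0E_FF hq),
    chain_J hJ hv contDiff_m1E e1 (fun q hq => m1E_FF hq),
    chain_J hJ hv contDiff_m2E e2 (fun q hq => m2E_FF hq),
    chain_J hJ hv contDiff_m3E e3 (fun q hq => m3E_FF hq), d0, d1', d2, d3,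
    c0E, c1E, c2E, c3E, m0E_FF hv, m1E_FF hv, m2E_FF hv, m3E_FF hv, pE_FF hv, rE_FF hv, sE_FF hv]
  congr 1
  simp only [map_mul, map_pow, Complex.conj_conj]
  generalize (J v).1 = a
  generalize (J v).2 = b
  linear_combination ((conj v.1 * a + conj v.2 * b) * (v.1 * conj v.1 + v.2 * conj v.2 + 1) -
    4 * v.2 * (v.2 * a - v.1 * b)) * h

theorem pull_thE_J0 (hv : v ∈ S3) : pull FF thE v (J0 v) = 1 := by
  have h := S3_eq hv
  rw [pull_thE isRot_J0 hv, J0_apply]
  have : conj v.1 * (Complex.I * v.1) + conj v.2 * (Complex.I * v.2) -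
      4 * v.2 * (v.2 * (Complex.I * v.1) - v.1 * (Complex.I * v.2)) = Complex.I := by
    linear_combination Complex.I * h
  simp only [this, Complex.I_im]

theorem pull_thE_E1 (hv : v ∈ S3) : pull FF thE v (E1 v) = 0 := by
  have h := S3_eq hv
  rw [E1, map_add, map_smul, pull_thE_J0 hv, pull_thE isRot_J1 hv, J1_apply]
  have : conj v.1 * conj v.2 + conj v.2 * -conj v.1 -
      4 * v.2 * (v.2 * conj v.2 - v.1 * -conj v.1) = -4 * v.2 := by
    linear_combination (-4 * v.2) * h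
  simp only [this]
  simp

theorem pull_thE_E2 (hv : v ∈ S3) : pull FF thE v (E2 v) = 0 := by
  have h := S3_eq hv
  rw [E2, map_add, map_smul, pull_thE_J0 hv, pull_thE isRot_J2 hv, J2_apply]
  have : conj v.1 * (Complex.I * conj v.2) + conj v.2 * -(Complex.I * conj v.1) -
      4 * v.2 * (v.2 * (Complex.I * conj v.2) - v.1 * -(Complex.I * conj v.1)) =
      -4 * Complex.I * v.2 := by
    linear_combination (-4 * Complex.I * v.2) * h
  simp only [this]
  simp

theorem thE_comb (hv : v ∈ S3) (b : ℝ) (a : ℂ) : thE (FF v) ((b : ℂ) • TT v + a • VV v) = b := by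
  have h1 := DF_comb hv b a.re a.im
  rw [Complex.re_add_im] at h1
  rw [← h1, ← fderiv_FF, ← pull_apply, map_add, map_add, map_smul, map_smul, map_smul,
    pull_thE_J0 hv, pull_thE_E1 hv, pull_thE_E2 hv]
  simp

theorem isContactForm_thE : IsContactForm MM thE := by
  refine ⟨⟨Set.univ, isOpen_univ, Set.subset_univ _, contDiff_thE.contDiffOn⟩, ?_⟩
  rintro _ ⟨p, hp, rfl⟩ v hv
  obtain ⟨b, a, rfl⟩ := (mem_Tan_iff hp).1 hv
  rw [thE_comb hp, mem_Hol_iff hp]
  constructor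
  · rintro rfl
    exact ⟨a, by simp⟩
  · rintro ⟨a', h⟩
    have h1 : (b : ℂ) • TT p + a • VV p = (0 : ℂ) • TT p + a' • VV p := by rw [h]; simp
    have := (comb_unique hp h1).1
    exact_mod_cast this

theorem d1_thE (hv : v ∈ S3) :
    d1 thE (FF v) (VV v) (Complex.I • VV v) = 2 + 48 * Complex.normSq v.2 := by
  have hF2 : ContDiffAt ℝ 2 FF v := (contDiff_infty.1 contDiff_FF 2).contDiffAt
  have hth : DifferentiableAt ℝ thE (FF v) := contDiff_thE.differentiable (by norm_num) _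
  have hp1 := pull_d1 hth hF2 (E1 v) (E2 v)
  rw [fderiv_FF, fderiv_FF, DF_E1 hv, DF_E2 hv] at hp1
  rw [← hp1]
  have hpd : DifferentiableAt ℝ (pull FF thE) v := pull_differentiableAt hth hF2
  have hE1 : DifferentiableAt ℝ E1 v := contDiff_E1.differentiable (by norm_num) v
  have hE2 : DifferentiableAt ℝ E2 v := contDiff_E2.differentiable (by norm_num) v
  rw [d1_bracket hpd hE1 hE2, bracket_12]
  have a1 : fderiv ℝ (fun q => pull FF thE q (E2 q)) v (E1 v) = 0 := by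
    have := (sphere_congr hv (f := fun q => pull FF thE q (E2 q)) (g := fun _ => (0 : ℝ))
      (hpd.clm_apply hE2) (differentiableAt_const _)
      (Filter.Eventually.of_forall fun q hq => pull_thE_E2 hq)).2.1
    rw [this]; simp
  have a2 : fderiv ℝ (fun q => pull FF thE q (E1 q)) v (E2 v) = 0 := by
    have := (sphere_congr hv (f := fun q => pull FF thE q (E1 q)) (g := fun _ => (0 : ℝ))
      (hpd.clm_apply hE1) (differentiableAt_const _)
      (Filter.Eventually.of_forall fun q hq => pull_thE_E1 hq)).2.2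
    rw [this]; simp
  rw [a1, a2, map_add, map_add, map_smul, map_smul, map_smul, pull_thE_J0 hv, pull_thE_E1 hv,
    pull_thE_E2 hv]
  simp

theorem d1_add_left {E G : Type*} [NormedAddCommGroup E] [NormedSpace ℝ E] [NormedAddCommGroup G]
    [NormedSpace ℝ G] (α : E → E →L[ℝ] G) (p u u' v : E) :
    d1 α p (u + u') v = d1 α p u v + d1 α p u' v := by
  simp only [d1, map_add, _root_.add_apply]
  abel

theorem d1_smul_left {E G : Type*} [NormedAddCommGroup E] [NormedSpace ℝ E] [NormedAddCommGroup G]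
    [NormedSpace ℝ G] (α : E → E →L[ℝ] G) (p u v : E) (c : ℝ) :
    d1 α p (c • u) v = c • d1 α p u v := by
  simp only [d1, map_smul, _root_.smul_apply, smul_sub]

theorem d1_swap {E G : Type*} [NormedAddCommGroup E] [NormedSpace ℝ E] [NormedAddCommGroup G]
    [NormedSpace ℝ G] (α : E → E →L[ℝ] G) (p u v : E) : d1 α p u v = -d1 α p v u := by
  simp only [d1]
  abel

theorem strictlyPseudoconvex_MM : StrictlyPseudoconvex MM := by
  refine ⟨thE, isContactForm_thE, ?_⟩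
  rintro _ ⟨p, hp, rfl⟩ v hv hv0
  obtain ⟨a, rfl⟩ := (mem_Hol_iff hp).1 hv
  have ha : a ≠ 0 := by rintro rfl; exact hv0 (zero_smul _ _)
  have hd := d1_thE hp
  have ea := Complex.re_add_im a
  have e1 : a • VV p = a.re • VV p + a.im • (Complex.I • VV p) := by
    ext i
    simp only [Pi.smul_apply, Pi.add_apply, Complex.real_smul, smul_eq_mul]
    linear_combination (-(VV p i)) * ea
  have e2 : Complex.I • a • VV p = (-a.im) • VV p + a.re • (Complex.I • VV p) := by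
    ext i
    simp only [Pi.smul_apply, Pi.add_apply, Complex.real_smul, smul_eq_mul, Complex.ofReal_neg]
    linear_combination (-(Complex.I * VV p i)) * ea + (a.im * VV p i) * Complex.I_mul_I
  have key : ∀ x y : ℝ, ∀ s t : ℝ, d1 thE (FF p) (x • VV p + y • (Complex.I • VV p))
      (s • VV p + t • (Complex.I • VV p)) = (x * t - y * s) * (2 + 48 * Complex.normSq p.2) := by
    intro x y s t
    have z1 : ∀ u, d1 thE (FF p) u u = 0 := fun u => by simp [d1]
    rw [d1_add_left, d1_smul_left, d1_smul_left, d1_swap thE (FF p) (VV p),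
      d1_swap thE (FF p) (Complex.I • VV p), d1_add_left, d1_smul_left, d1_smul_left,
      d1_add_left, d1_smul_left, d1_smul_left, z1, z1, hd, d1_swap thE (FF p) _ (VV p), hd]
    simp only [smul_eq_mul]
    ring
  rw [e2, e1, key]
  have h1 : 0 < a.re * a.re - a.im * -a.im := by
    have : 0 < Complex.normSq a := Complex.normSq_pos.2 ha
    rw [Complex.normSq_apply] at this
    linarith
  have h2 : 0 < 2 + 48 * Complex.normSq p.2 := by
    have := Complex.normSq_nonneg p.2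
    linarith
  exact mul_pos h1 h2

end

end Pool.Agent.W554.CR
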