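import Pool.Agent.W554.CR.Tangent

set_option autoImplicit false

open scoped ContDiff Topology ComplexConjugate
open MeasureTheory

noncomputable section

namespace Pool.Agent.W554.CR

/-- Unnormalised chart. -/
def sig' (p : ℂ × ℂ) (t : Fin 3 → ℝ) : ℂ × ℂ := p + t 0 • J0 p + t 1 • J1 p + t 2 • J2 p

/-- The chart of the sphere centred at `p`. -/
def sig (p : ℂ × ℂ) (t : Fin 3 → ℝ) : ℂ × ℂ :=
  (Real.sqrt (1 + t 0 ^ 2 + t 1 ^ 2 + t 2 ^ 2))⁻¹ • sig' p t

def tau (p q : ℂ × ℂ) : Fin 3 → ℝ :=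
  ![(ip q (J0 p)).re * (ip q p).re⁻¹, (ip q (J1 p)).re * (ip q p).re⁻¹,
    (ip q (J2 p)).re * (ip q p).re⁻¹]

theorem qf_sig' (p : ℂ × ℂ) (t : Fin 3 → ℝ) :
    qf (sig' p t) = (1 + t 0 ^ 2 + t 1 ^ 2 + t 2 ^ 2) * qf p := by
  simp [qf, sig', J0_apply, J1_apply, J2_apply, Complex.normSq_apply]
  ring

theorem rt_pos (t : Fin 3 → ℝ) : 0 < 1 + t 0 ^ 2 + t 1 ^ 2 + t 2 ^ 2 := by positivity

theorem sig_mem {p : ℂ × ℂ} (hp : p ∈ S3) (t : Fin 3 → ℝ) : sig p t ∈ S3 := by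
  have h := rt_pos t
  have hp' : qf p = 1 := hp
  rw [S3, Set.mem_ofPred_eq, sig, qf_smul, qf_sig', hp', inv_pow, Real.sq_sqrt h.le, mul_one,
    inv_mul_cancel₀ h.ne']

theorem ip_smul (a : ℝ) (u v : ℂ × ℂ) : ip (a • u) v = a * ip u v := by
  simp [ip]; ring

theorem ip_sig' {p : ℂ × ℂ} (hp : p ∈ S3) (t : Fin 3 → ℝ) :
    (ip (sig' p t) p).re = 1 ∧ (ip (sig' p t) (J0 p)).re = t 0 ∧ (ip (sig' p t) (J1 p)).re = t 1 ∧
      (ip (sig' p t) (J2 p)).re = t 2 := by
  have hp' : qf p = 1 := hp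
  simp only [qf, Complex.normSq_apply] at hp'
  simp [ip, sig', J0_apply, J1_apply, J2_apply]
  refine ⟨?_, ?_, ?_, ?_⟩
  · linear_combination hp'
  · linear_combination (t 0) * hp'
  · linear_combination (t 1) * hp'
  · linear_combination (t 2) * hp'

theorem tau_sig {p : ℂ × ℂ} (hp : p ∈ S3) (t : Fin 3 → ℝ) : tau p (sig p t) = t := by
  have h := rt_pos t
  obtain ⟨h0, h1, h2, h3⟩ := ip_sig' hp t
  have hs : (Real.sqrt (1 + t 0 ^ 2 + t 1 ^ 2 + t 2 ^ 2))⁻¹ ≠ 0 :=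
    inv_ne_zero (Real.sqrt_pos.2 h).ne'
  funext i
  fin_cases i
  · simp only [tau, sig, ip_smul, Complex.re_ofReal_mul, h0, h1]
    simp
    field_simp
  · simp only [tau, sig, ip_smul, Complex.re_ofReal_mul, h0, h2]
    simp
    field_simp
  · simp only [tau, sig, ip_smul, Complex.re_ofReal_mul, h0, h3]
    simp
    field_simp

theorem decomp {p : ℂ × ℂ} (hp : p ∈ S3) (q : ℂ × ℂ) :
    q = (ip q p).re • p + (ip q (J0 p)).re • J0 p + (ip q (J1 p)).re • J1 p +
      (ip q (J2 p)).re • J2 p := by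
  have hp' : qf p = 1 := hp
  simp only [qf, Complex.normSq_apply] at hp'
  ext1
  · apply Complex.ext
    · simp [ip, J0_apply, J1_apply, J2_apply]
      linear_combination (-q.1.re) * hp'
    · simp [ip, J0_apply, J1_apply, J2_apply]
      linear_combination (-q.1.im) * hp'
  · apply Complex.ext
    · simp [ip, J0_apply, J1_apply, J2_apply]
      linear_combination (-q.2.re) * hp'
    · simp [ip, J0_apply, J1_apply, J2_apply]
      linear_combination (-q.2.im) * hp'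

theorem norm_decomp {p : ℂ × ℂ} (hp : p ∈ S3) (q : ℂ × ℂ) :
    qf q = (ip q p).re ^ 2 + (ip q (J0 p)).re ^ 2 + (ip q (J1 p)).re ^ 2 +
      (ip q (J2 p)).re ^ 2 := by
  have hp' : qf p = 1 := hp
  have h : (ip q p).re ^ 2 + (ip q (J0 p)).re ^ 2 + (ip q (J1 p)).re ^ 2 +
      (ip q (J2 p)).re ^ 2 = qf q * qf p := by
    simp [ip, qf, J0_apply, J1_apply, J2_apply, Complex.normSq_apply]
    ring
  rw [h, hp', mul_one]

theorem sig_tau {p q : ℂ × ℂ} (hp : p ∈ S3) (hq : q ∈ S3) (h : 0 < (ip q p).re) :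
    sig p (tau p q) = q := by
  set r := (ip q p).re with hr
  have hq' : qf q = 1 := hq
  have hn := norm_decomp hp q
  rw [hq', ← hr] at hn
  have h1 : sig' p (tau p q) = r⁻¹ • q := by
    have hd := decomp hp q
    conv_rhs => rw [hd]
    rw [sig', ← hr]
    simp only [tau, ← hr, Matrix.cons_val_zero, Matrix.cons_val_one, Matrix.cons_val]
    have h2 : p = (r⁻¹ * r) • p := by rw [inv_mul_cancel₀ h.ne', one_smul]
    nth_rewrite 1 [h2]
    module
  have h3 : 1 + tau p q 0 ^ 2 + tau p q 1 ^ 2 + tau p q 2 ^ 2 = (r⁻¹) ^ 2 := by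
    simp only [tau, ← hr, Matrix.cons_val_zero, Matrix.cons_val_one, Matrix.cons_val]
    have h4 : (1 : ℝ) = r ^ 2 * r⁻¹ ^ 2 := by
      rw [← mul_pow, mul_inv_cancel₀ h.ne', one_pow]
    linear_combination h4 - r⁻¹ ^ 2 * hn
  rw [sig, h1, h3, Real.sqrt_sq (inv_pos.2 h).le, inv_inv, smul_smul, mul_inv_cancel₀ h.ne',
    one_smul]

theorem contDiff_sig (p : ℂ × ℂ) : ContDiff ℝ ∞ (sig p) := by
  have hc : ∀ i : Fin 3, ContDiff ℝ ∞ (fun t : Fin 3 → ℝ => t i) := fun i => contDiff_apply ℝ ℝ i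
  have h1 : ContDiff ℝ ∞ (sig' p) :=
    ((contDiff_const.add ((hc 0).smul contDiff_const)).add ((hc 1).smul contDiff_const)).add
      ((hc 2).smul contDiff_const)
  have h2 : ContDiff ℝ ∞ (fun t : Fin 3 → ℝ => 1 + t 0 ^ 2 + t 1 ^ 2 + t 2 ^ 2) :=
    ((contDiff_const.add ((hc 0).pow 2)).add ((hc 1).pow 2)).add ((hc 2).pow 2)
  have h3 : ContDiff ℝ ∞ (fun t : Fin 3 → ℝ => Real.sqrt (1 + t 0 ^ 2 + t 1 ^ 2 + t 2 ^ 2)) :=
    h2.sqrt fun t => (rt_pos t).ne'
  exact (h3.inv fun t => (Real.sqrt_pos.2 (rt_pos t)).ne').smul h1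

theorem contDiff_ip (v : ℂ × ℂ) : ContDiff ℝ ∞ (fun q : ℂ × ℂ => ip q v) :=
  (contDiff_fst.mul contDiff_const).add (contDiff_snd.mul contDiff_const)

theorem contDiff_ip_re (v : ℂ × ℂ) : ContDiff ℝ ∞ (fun q : ℂ × ℂ => (ip q v).re) :=
  Complex.reCLM.contDiff.comp (contDiff_ip v)

theorem contDiffAt_tau {p q : ℂ × ℂ} (h : (ip q p).re ≠ 0) : ContDiffAt ℝ ∞ (tau p) q := by
  rw [contDiffAt_pi]
  have h1 : ContDiffAt ℝ ∞ (fun q : ℂ × ℂ => (ip q p).re⁻¹) q :=
    (contDiff_ip_re p).contDiffAt.inv h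
  intro i
  fin_cases i
  · exact (contDiff_ip_re (J0 p)).contDiffAt.mul h1
  · exact (contDiff_ip_re (J1 p)).contDiffAt.mul h1
  · exact (contDiff_ip_re (J2 p)).contDiffAt.mul h1

theorem isSubmanifold_MM : IsSubmanifold 3 MM := by
  rintro _ ⟨p, hp, rfl⟩
  have hcont : ContinuousOn (fun x => (ip (gg p x) p).re) (U0 p) :=
    (contDiff_ip_re p).continuous.comp_continuousOn (contDiffOn_gg p).continuousOn
  set U : Set (Fin 4 → ℂ) := U0 p ∩ (fun x => (ip (gg p x) p).re) ⁻¹' Set.Ioi 0 with hU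
  have hUo : IsOpen U := hcont.isOpen_inter_preimage (isOpen_U0 p) isOpen_Ioi
  refine ⟨U, {t | ip (sig p t) p ∈ SEC} ∩ {t | FF (sig p t) ∈ U}, fun t => FF (sig p t),
    fun x => tau p (gg p x), hUo, ⟨FF_mem_U0 hp, ?_⟩, ?_, ?_, ?_, ?_, ?_⟩
  · rw [Set.mem_preimage, gg_self hp, ip_self hp]
    simp
  · refine IsOpen.inter (isOpen_SEC.preimage ?_) (hUo.preimage ?_)
    · exact (contDiff_ip p).continuous.comp (contDiff_sig p).continuous
    · exact contDiff_FF.continuous.comp (contDiff_sig p).continuous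
  · exact (contDiff_FF.comp (contDiff_sig p)).contDiffOn
  · intro x hx
    have h1 : ContDiffAt ℝ ∞ (gg p) x :=
      (contDiffOn_gg p).contDiffAt ((isOpen_U0 p).mem_nhds hx.1)
    have h2 : (ip (gg p x) p).re ≠ 0 := ne_of_gt hx.2
    exact ((contDiffAt_tau h2).comp x h1).contDiffWithinAt
  · rintro t ⟨h1, h2⟩
    have hs := sig_mem hp t
    refine ⟨⟨⟨sig p t, hs, rfl⟩, h2⟩, ?_⟩
    simp only
    rw [gg_FF hs (AA_FF hs h1), tau_sig hp]
  · rintro x ⟨h1, h2⟩
    obtain ⟨g1, g2, g3⟩ := gg_mem h1 h2.1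
    have h4 : sig p (tau p (gg p x)) = gg p x := sig_tau hp g1 h2.2
    refine ⟨⟨?_, ?_⟩, ?_⟩
    · change ip (sig p (tau p (gg p x))) p ∈ SEC
      rw [h4]; exact g3
    · change FF (sig p (tau p (gg p x))) ∈ U
      rw [h4, g2]; exact h2
    · simp only
      rw [h4, g2]

theorem isCompact_MM : IsCompact MM := isCompact_S3.image contDiff_FF.continuous

theorem isConnected_S3 : IsConnected S3 := by
  have h : S3 = Set.range (fun t : ℝ × ℝ × ℝ => ((((Real.cos t.1 : ℝ) : ℂ) *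
      Complex.exp (t.2.1 * Complex.I), ((Real.sin t.1 : ℝ) : ℂ) *
      Complex.exp (t.2.2 * Complex.I)) : ℂ × ℂ)) := by
    apply Set.Subset.antisymm
    · intro v hv
      have hv' : Complex.normSq v.1 + Complex.normSq v.2 = 1 := hv
      rw [Complex.normSq_eq_norm_sq, Complex.normSq_eq_norm_sq] at hv'
      have h1 : ‖v.1‖ ≤ 1 := by nlinarith [norm_nonneg v.1, sq_nonneg ‖v.2‖]
      refine ⟨(Real.arccos ‖v.1‖, Complex.arg v.1, Complex.arg v.2), ?_⟩
      have h2 : Real.sin (Real.arccos ‖v.1‖) = ‖v.2‖ := by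
        rw [Real.sin_arccos, show 1 - ‖v.1‖ ^ 2 = ‖v.2‖ ^ 2 by linarith,
          Real.sqrt_sq (norm_nonneg _)]
      have h3 : Real.cos (Real.arccos ‖v.1‖) = ‖v.1‖ :=
        Real.cos_arccos (by linarith [norm_nonneg v.1]) h1
      simp only [h2, h3]
      ext1
      · exact Complex.norm_mul_exp_arg_mul_I v.1
      · exact Complex.norm_mul_exp_arg_mul_I v.2
    · rintro _ ⟨t, rfl⟩
      change Complex.normSq _ + Complex.normSq _ = 1
      simp only [Complex.normSq_eq_norm_sq, norm_mul, Complex.norm_exp_ofReal_mul_I,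
        Complex.norm_real, Real.norm_eq_abs, mul_one, sq_abs]
      exact Real.cos_sq_add_sin_sq t.1
  rw [h]
  refine isConnected_range ?_
  refine Continuous.prodMk ?_ ?_
  · exact (Complex.continuous_ofReal.comp (Real.continuous_cos.comp continuous_fst)).mul
      (Complex.continuous_exp.comp ((Complex.continuous_ofReal.comp
        (continuous_fst.comp continuous_snd)).mul continuous_const))
  · exact (Complex.continuous_ofReal.comp (Real.continuous_sin.comp continuous_fst)).mul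
      (Complex.continuous_exp.comp ((Complex.continuous_ofReal.comp
        (continuous_snd.comp continuous_snd)).mul continuous_const))

theorem isConnected_MM : IsConnected MM := isConnected_S3.image _ contDiff_FF.continuous.continuousOn

end Pool.Agent.W554.CR
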