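import Pool.Agent.W554.CR.Frame

set_option autoImplicit false

open scoped ContDiff Topology ComplexConjugate
open MeasureTheory

noncomputable section

namespace Pool.Agent.W554.CR

/-- The squared norm of the matrix of columns. -/
def NE (x : Fin 4 → ℂ) : ℂ :=
  x 0 * conj (x 0) + 2 * (x 1 * conj (x 1)) + x 2 * conj (x 2) + (x 2 + 3) * conj (x 2 + 3) +
    x 3 * conj (x 3)

theorem NE_ne (x : Fin 4 → ℂ) : NE x ≠ 0 := by
  have h : NE x = ((Complex.normSq (x 0) + 2 * Complex.normSq (x 1) + Complex.normSq (x 2) +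
      Complex.normSq (x 2 + 3) + Complex.normSq (x 3) : ℝ) : ℂ) := by
    simp only [NE, Complex.mul_conj]
    push_cast
    ring
  rw [h, Complex.ofReal_ne_zero]
  have h0 := Complex.normSq_nonneg (x 0)
  have h1 := Complex.normSq_nonneg (x 1)
  have h3 := Complex.normSq_nonneg (x 3)
  have h2 : 0 < Complex.normSq (x 2) + Complex.normSq (x 2 + 3) := by
    simp only [Complex.normSq_apply, Complex.add_re, Complex.add_im, Complex.re_ofNat,
      Complex.im_ofNat]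
    nlinarith [sq_nonneg ((x 2).re + 3 / 2), sq_nonneg ((x 2).im)]
  linarith

def sE (x : Fin 4 → ℂ) : ℂ :=
  (x 0 * conj (x 0) + x 1 * conj (x 1) + (x 2 + 3) * conj (x 2 + 3)) / NE x
def rE (x : Fin 4 → ℂ) : ℂ :=
  (x 1 * conj (x 1) + x 2 * conj (x 2) + x 3 * conj (x 3)) / NE x
def pE (x : Fin 4 → ℂ) : ℂ :=
  (x 0 * conj (x 1) + x 1 * conj (x 2) + (x 2 + 3) * conj (x 3)) / NE x
def m0E (x : Fin 4 → ℂ) : ℂ := x 0 + 3 * pE x ^ 2
def m1E (x : Fin 4 → ℂ) : ℂ := x 1 + 3 * pE x * rE x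
def m2E (x : Fin 4 → ℂ) : ℂ := x 2 + 3 * rE x ^ 2
def m3E (x : Fin 4 → ℂ) : ℂ := x 3 - 3 * conj (pE x) * (1 + rE x)

theorem contDiff_coord (i : Fin 4) : ContDiff ℝ ∞ (fun x : Fin 4 → ℂ => x i) :=
  contDiff_apply ℝ ℂ i

theorem ContDiff.conj' {f : (Fin 4 → ℂ) → ℂ} (hf : ContDiff ℝ ∞ f) :
    ContDiff ℝ ∞ (fun x => conj (f x)) := Complex.conjCLE.contDiff.comp hf

theorem contDiff_NE : ContDiff ℝ ∞ NE := by
  have h := contDiff_coord
  exact (((((h 0).mul (ContDiff.conj' (h 0))).add (contDiff_const.mul ((h 1).mul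
    (ContDiff.conj' (h 1))))).add ((h 2).mul (ContDiff.conj' (h 2)))).add
    (((h 2).add contDiff_const).mul (ContDiff.conj' ((h 2).add contDiff_const)))).add
    ((h 3).mul (ContDiff.conj' (h 3)))

theorem contDiff_divNE {f : (Fin 4 → ℂ) → ℂ} (hf : ContDiff ℝ ∞ f) :
    ContDiff ℝ ∞ (fun x => f x / NE x) := by
  simp only [div_eq_mul_inv]
  exact hf.mul (contDiff_NE.inv NE_ne)

theorem contDiff_sE : ContDiff ℝ ∞ sE := by
  have h := contDiff_coord
  exact contDiff_divNE ((((h 0).mul (ContDiff.conj' (h 0))).add ((h 1).mul (ContDiff.conj' (h 1)))).add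
    (((h 2).add contDiff_const).mul (ContDiff.conj' ((h 2).add contDiff_const))))

theorem contDiff_rE : ContDiff ℝ ∞ rE := by
  have h := contDiff_coord
  exact contDiff_divNE ((((h 1).mul (ContDiff.conj' (h 1))).add ((h 2).mul (ContDiff.conj' (h 2)))).add
    ((h 3).mul (ContDiff.conj' (h 3))))

theorem contDiff_pE : ContDiff ℝ ∞ pE := by
  have h := contDiff_coord
  exact contDiff_divNE ((((h 0).mul (ContDiff.conj' (h 1))).add ((h 1).mul (ContDiff.conj' (h 2)))).add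
    (((h 2).add contDiff_const).mul (ContDiff.conj' (h 3))))

theorem contDiff_m0E : ContDiff ℝ ∞ m0E :=
  (contDiff_coord 0).add (contDiff_const.mul (contDiff_pE.pow 2))

theorem contDiff_m1E : ContDiff ℝ ∞ m1E :=
  (contDiff_coord 1).add ((contDiff_const.mul contDiff_pE).mul contDiff_rE)

theorem contDiff_m2E : ContDiff ℝ ∞ m2E :=
  (contDiff_coord 2).add (contDiff_const.mul (contDiff_rE.pow 2))

theorem contDiff_m3E : ContDiff ℝ ∞ m3E :=
  (contDiff_coord 3).sub ((contDiff_const.mul (ContDiff.conj' contDiff_pE)).mul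
    (contDiff_const.add contDiff_rE))

/-- The value of `NE` on the image of the sphere. -/
def KKK (v : ℂ × ℂ) : ℂ := k0 v * conj (k0 v) + k1 v * conj (k1 v) + k2 v * conj (k2 v)

section
variable {v : ℂ × ℂ}

theorem NE_FF (hv : v ∈ S3) : NE (FF v) = KKK v := by
  have h := S3_eq hv
  have e1 : FF v 1 * conj (FF v 1) = k0 v * v.2 * conj (k0 v * v.2) := by rw [FF_1]
  have e2 : FF v 1 * conj (FF v 1) = k1 v * v.1 * conj (k1 v * v.1) := by rw [FF_1']
  have : NE (FF v) = FF v 0 * conj (FF v 0) + FF v 1 * conj (FF v 1) + FF v 1 * conj (FF v 1) +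
      FF v 2 * conj (FF v 2) + (FF v 2 + 3) * conj (FF v 2 + 3) + FF v 3 * conj (FF v 3) := by
    rw [NE]; ring
  rw [this]
  nth_rewrite 1 [e1]
  rw [e2, FF_2' hv, FF_0, FF_2, FF_3, KKK]
  simp only [map_mul]
  linear_combination (k0 v * conj (k0 v) + k1 v * conj (k1 v) + k2 v * conj (k2 v)) * h

theorem KKK_ne (hv : v ∈ S3) : KKK v ≠ 0 := by
  rw [← NE_FF hv]; exact NE_ne _

theorem sE_FF (hv : v ∈ S3) : sE (FF v) = v.1 * conj v.1 := by
  rw [sE, NE_FF hv, div_eq_iff (KKK_ne hv), FF_2' hv, FF_0, FF_1', KKK]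
  simp only [map_mul]
  ring

theorem rE_FF (hv : v ∈ S3) : rE (FF v) = v.2 * conj v.2 := by
  rw [rE, NE_FF hv, div_eq_iff (KKK_ne hv), FF_1, FF_2, FF_3, KKK]
  simp only [map_mul]
  ring

theorem pE_FF (hv : v ∈ S3) : pE (FF v) = v.1 * conj v.2 := by
  rw [pE, NE_FF hv, div_eq_iff (KKK_ne hv), FF_2' hv, FF_0, FF_3, KKK]
  have e1 : FF v 1 * conj (FF v 2) = k1 v * v.1 * conj (k1 v * v.2) := by rw [FF_1', FF_2]
  rw [e1, FF_1]
  simp only [map_mul]
  ring

theorem m0E_FF (hv : v ∈ S3) : m0E (FF v) = v.1 ^ 3 := by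
  rw [m0E, pE_FF hv, FF_0, k0]; ring

theorem m1E_FF (hv : v ∈ S3) : m1E (FF v) = v.1 ^ 2 * v.2 := by
  rw [m1E, pE_FF hv, rE_FF hv, FF_1, k0]; ring

theorem m2E_FF (hv : v ∈ S3) : m2E (FF v) = v.1 * v.2 ^ 2 := by
  rw [m2E, rE_FF hv, FF_2, k1]; ring

theorem m3E_FF (hv : v ∈ S3) : m3E (FF v) = v.2 ^ 3 := by
  rw [m3E, pE_FF hv, rE_FF hv, FF_3, k2]
  simp only [map_mul, Complex.conj_conj]
  ring

end

end Pool.Agent.W554.CR
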