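import Pool.Agent.W554.CR.Tangent

set_option autoImplicit false

open scoped ContDiff Topology ComplexConjugate
open MeasureTheory

noncomputable section

namespace Pool.Agent.W554.CR

theorem contDiff_E1 : ContDiff ℝ ∞ E1 := by
  have h : ContDiff ℝ ∞ (fun v : ℂ × ℂ => 4 * v.2.im) :=
    contDiff_const.mul (Complex.imCLM.contDiff.comp contDiff_snd)
  exact J1.contDiff.add (h.smul J0.contDiff)

theorem contDiff_E2 : ContDiff ℝ ∞ E2 := by
  have h : ContDiff ℝ ∞ (fun v : ℂ × ℂ => 4 * v.2.re) :=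
    contDiff_const.mul (Complex.reCLM.contDiff.comp contDiff_snd)
  exact J2.contDiff.add (h.smul J0.contDiff)

theorem fderiv_E1 (v u : ℂ × ℂ) :
    fderiv ℝ E1 v u = J1 u + ((4 * v.2.im) • J0 u + (4 * u.2.im) • J0 v) := by
  have h1 : HasFDerivAt (fun v : ℂ × ℂ => 4 * v.2.im)
      ((4 : ℝ) • (Complex.imCLM.comp (ContinuousLinearMap.snd ℝ ℂ ℂ))) v :=
    ((Complex.imCLM.comp (ContinuousLinearMap.snd ℝ ℂ ℂ)).hasFDerivAt).const_mul 4
  have h2 := (J1.hasFDerivAt (x := v)).add (h1.smul (J0.hasFDerivAt (x := v)))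
  have h3 : fderiv ℝ E1 v = _ := h2.fderiv
  rw [h3]
  simp

theorem fderiv_E2 (v u : ℂ × ℂ) :
    fderiv ℝ E2 v u = J2 u + ((4 * v.2.re) • J0 u + (4 * u.2.re) • J0 v) := by
  have h1 : HasFDerivAt (fun v : ℂ × ℂ => 4 * v.2.re)
      ((4 : ℝ) • (Complex.reCLM.comp (ContinuousLinearMap.snd ℝ ℂ ℂ))) v :=
    ((Complex.reCLM.comp (ContinuousLinearMap.snd ℝ ℂ ℂ)).hasFDerivAt).const_mul 4
  have h2 := (J2.hasFDerivAt (x := v)).add (h1.smul (J0.hasFDerivAt (x := v)))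
  have h3 : fderiv ℝ E2 v = _ := h2.fderiv
  rw [h3]
  simp

theorem bracket_12 (v : ℂ × ℂ) : fderiv ℝ E2 v (E1 v) - fderiv ℝ E1 v (E2 v) =
    (-(2 + 48 * Complex.normSq v.2)) • J0 v + (8 * v.2.im) • E1 v + (8 * v.2.re) • E2 v := by
  rw [fderiv_E2, fderiv_E1]
  ext1
  · apply Complex.ext
    · simp [E1, E2, J0_apply, J1_apply, J2_apply, Complex.normSq_apply]; ring
    · simp [E1, E2, J0_apply, J1_apply, J2_apply, Complex.normSq_apply]; ring
  · apply Complex.ext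
    · simp [E1, E2, J0_apply, J1_apply, J2_apply, Complex.normSq_apply]; ring
    · simp [E1, E2, J0_apply, J1_apply, J2_apply, Complex.normSq_apply]; ring

theorem bracket_01 (v : ℂ × ℂ) : fderiv ℝ E1 v (J0 v) - fderiv ℝ J0 v (E1 v) =
    (12 * v.2.re) • J0 v + (-2 : ℝ) • E2 v := by
  rw [fderiv_E1, J0.fderiv]
  ext1
  · apply Complex.ext
    · simp [E1, E2, J0_apply, J1_apply, J2_apply]; ring
    · simp [E1, E2, J0_apply, J1_apply, J2_apply]; ring
  · apply Complex.ext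
    · simp [E1, E2, J0_apply, J1_apply, J2_apply]; ring
    · simp [E1, E2, J0_apply, J1_apply, J2_apply]; ring

theorem bracket_02 (v : ℂ × ℂ) : fderiv ℝ E2 v (J0 v) - fderiv ℝ J0 v (E2 v) =
    (-12 * v.2.im) • J0 v + (2 : ℝ) • E1 v := by
  rw [fderiv_E2, J0.fderiv]
  ext1
  · apply Complex.ext
    · simp [E1, E2, J0_apply, J1_apply, J2_apply]; ring
    · simp [E1, E2, J0_apply, J1_apply, J2_apply]; ring
  · apply Complex.ext
    · simp [E1, E2, J0_apply, J1_apply, J2_apply]; ring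
    · simp [E1, E2, J0_apply, J1_apply, J2_apply]; ring

section
variable {G : Type*} [NormedAddCommGroup G] [NormedSpace ℝ G]

theorem fderiv_E1_dir {f : ℂ × ℂ → G} (v : ℂ × ℂ) :
    fderiv ℝ f v (E1 v) = fderiv ℝ f v (J1 v) + (4 * v.2.im) • fderiv ℝ f v (J0 v) := by
  rw [E1, map_add, map_smul]

theorem fderiv_E2_dir {f : ℂ × ℂ → G} (v : ℂ × ℂ) :
    fderiv ℝ f v (E2 v) = fderiv ℝ f v (J2 v) + (4 * v.2.re) • fderiv ℝ f v (J0 v) := by
  rw [E2, map_add, map_smul]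

/-- Functions that agree on the sphere have the same tangential derivatives. -/
theorem sphere_congr {p : ℂ × ℂ} (hp : p ∈ S3) {f g : ℂ × ℂ → G} (hf : DifferentiableAt ℝ f p)
    (hg : DifferentiableAt ℝ g p) (hfg : ∀ᶠ v in 𝓝 p, v ∈ S3 → f v = g v) :
    fderiv ℝ f p (J0 p) = fderiv ℝ g p (J0 p) ∧ fderiv ℝ f p (E1 p) = fderiv ℝ g p (E1 p) ∧
      fderiv ℝ f p (E2 p) = fderiv ℝ g p (E2 p) := by
  have h0 := fderiv_sphere isRot_J0 hp hf hg hfg
  have h1 := fderiv_sphere isRot_J1 hp hf hg hfg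
  have h2 := fderiv_sphere isRot_J2 hp hf hg hfg
  refine ⟨h0, ?_, ?_⟩
  · rw [fderiv_E1_dir, fderiv_E1_dir, h0, h1]
  · rw [fderiv_E2_dir, fderiv_E2_dir, h0, h2]

end

end Pool.Agent.W554.CR
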