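import Pool.Agent.W554.CR.Defs

set_option autoImplicit false

open scoped ContDiff Topology ComplexConjugate

noncomputable section

namespace Pool.Agent.W554.CR

variable {V E G : Type*} [NormedAddCommGroup V] [NormedSpace ℝ V] [NormedAddCommGroup E]
  [NormedSpace ℝ E] [NormedAddCommGroup G] [NormedSpace ℝ G]

/-- Pullback of a one-form. -/
def pull (F : V → E) (α : E → E →L[ℝ] G) : V → V →L[ℝ] G :=
  fun q => (α (F q)).comp (fderiv ℝ F q)

theorem pull_apply (F : V → E) (α : E → E →L[ℝ] G) (q u : V) :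
    pull F α q u = α (F q) (fderiv ℝ F q u) := rfl

theorem pull_differentiableAt {F : V → E} {α : E → E →L[ℝ] G} {v : V}
    (hα : DifferentiableAt ℝ α (F v)) (hF : ContDiffAt ℝ 2 F v) :
    DifferentiableAt ℝ (pull F α) v := by
  have h1 : DifferentiableAt ℝ F v := hF.differentiableAt (by norm_num)
  have h2 : DifferentiableAt ℝ (fderiv ℝ F) v :=
    (hF.fderiv_right (m := 1) (by norm_num)).differentiableAt (by norm_num)
  exact (hα.comp v h1).clm_comp h2

theorem pull_d1 {F : V → E} {α : E → E →L[ℝ] G} {v : V}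
    (hα : DifferentiableAt ℝ α (F v)) (hF : ContDiffAt ℝ 2 F v) (u u' : V) :
    d1 (pull F α) v u u' = d1 α (F v) (fderiv ℝ F v u) (fderiv ℝ F v u') := by
  have h1 : DifferentiableAt ℝ F v := hF.differentiableAt (by norm_num)
  have h2 : DifferentiableAt ℝ (fderiv ℝ F) v :=
    (hF.fderiv_right (m := 1) (by norm_num)).differentiableAt (by norm_num)
  have h3 : HasFDerivAt (fun q => α (F q)) ((fderiv ℝ α (F v)).comp (fderiv ℝ F v)) v :=
    hα.hasFDerivAt.comp v h1.hasFDerivAt
  have h4 := h3.clm_comp h2.hasFDerivAt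
  have h5 : fderiv ℝ (pull F α) v = _ := h4.fderiv
  have hs : IsSymmSndFDerivAt ℝ F v := by
    apply ContDiffAt.isSymmSndFDerivAt hF
    simp
  unfold d1
  rw [h5]
  simp only [_root_.add_apply, ContinuousLinearMap.comp_apply,
    ContinuousLinearMap.compL_apply, ContinuousLinearMap.flip_apply]
  rw [hs.eq u u']
  abel

theorem d1_bracket {β : V → V →L[ℝ] G} {X Y : V → V} {v : V}
    (hβ : DifferentiableAt ℝ β v) (hX : DifferentiableAt ℝ X v) (hY : DifferentiableAt ℝ Y v) :
    d1 β v (X v) (Y v) = fderiv ℝ (fun q => β q (Y q)) v (X v) -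
      fderiv ℝ (fun q => β q (X q)) v (Y v) -
      β v (fderiv ℝ Y v (X v) - fderiv ℝ X v (Y v)) := by
  have h1 := hβ.hasFDerivAt.clm_apply hY.hasFDerivAt
  have h2 := hβ.hasFDerivAt.clm_apply hX.hasFDerivAt
  rw [h1.fderiv, h2.fderiv]
  unfold d1
  simp only [_root_.add_apply, ContinuousLinearMap.comp_apply,
    ContinuousLinearMap.flip_apply, map_sub]
  abel

/-- The logarithmic derivative `dG / G` is closed. -/
theorem d1_log {g : V → ℂ} {v : V} (hg : ContDiffAt ℝ 2 g v) (h0 : g v ≠ 0) (u u' : V) :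
    d1 (fun q => (g q)⁻¹ • fderiv ℝ g q) v u u' = 0 := by
  have h1 : DifferentiableAt ℝ g v := hg.differentiableAt (by norm_num)
  have h2 : DifferentiableAt ℝ (fderiv ℝ g) v :=
    (hg.fderiv_right (m := 1) (by norm_num)).differentiableAt (by norm_num)
  have h3 : HasFDerivAt (fun q => (g q)⁻¹) _ v :=
    (hasFDerivAt_inv' (𝕜 := ℝ) h0).comp v h1.hasFDerivAt
  have h4 := h3.smul h2.hasFDerivAt
  have hs : IsSymmSndFDerivAt ℝ g v := by
    apply ContDiffAt.isSymmSndFDerivAt hg
    simp
  have h5 : fderiv ℝ (fun q => (g q)⁻¹ • fderiv ℝ g q) v = _ := h4.fderiv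
  unfold d1
  rw [h5]
  simp only [_root_.add_apply, ContinuousLinearMap.smulRight_apply, ContinuousLinearMap.smul_apply,
    ContinuousLinearMap.comp_apply, ContinuousLinearMap.neg_apply,
    ContinuousLinearMap.mulLeftRight_apply, smul_eq_mul]
  rw [hs.eq u u']
  ring

end Pool.Agent.W554.CR
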