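import Pool.Agent.W554.CR.Bracket

set_option autoImplicit false

open scoped ContDiff Topology ComplexConjugate
open MeasureTheory

noncomputable section

namespace Pool.Agent.W554.CR

variable {J : (ℂ × ℂ) →L[ℝ] (ℂ × ℂ)}

/-- Derivative of a product along a rotation field. -/
theorem fderiv_prod_dir {f g : ℂ × ℂ → ℂ} {p : ℂ × ℂ} (hf : DifferentiableAt ℝ f p)
    (hg : DifferentiableAt ℝ g p) (u : ℂ × ℂ) :
    fderiv ℝ (fun q => f q * g q) p u = fderiv ℝ f p u * g p + f p * fderiv ℝ g p u := by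
  have h := (hf.hasFDerivAt.mul hg.hasFDerivAt).fderiv
  refine (congrArg (fun L : (ℂ × ℂ) →L[ℝ] ℂ => L u) h).trans ?_
  simp
  ring

theorem cmul {f g : ℂ × ℂ → ℂ} (hf : ContinuousOn f S3) (hg : ContinuousOn g S3) :
    ContinuousOn (fun v => f v * g v) S3 := hf.mul hg

theorem II_prod (hJ : IsRot J) {f g : ℂ × ℂ → ℂ} (hf : ContDiff ℝ ∞ f)
    (hg : ∀ p ∈ S3, ContDiffAt ℝ ∞ g p) :
    II (fun v => f v * fderiv ℝ g v (J v)) = - II (fun v => fderiv ℝ f v (J v) * g v) := by
  have hg1 : ∀ p ∈ S3, ContDiffAt ℝ 1 g p := fun p hp => (hg p hp).of_le (by norm_num)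
  have hf1 : ContDiff ℝ 1 f := hf.of_le (by norm_num)
  have h1 := II_deriv hJ (f := fun v => f v * g v) fun p hp => hf1.contDiffAt.mul (hg1 p hp)
  have hfc : ContinuousOn f S3 := hf.continuous.continuousOn
  have hgc : ContinuousOn g S3 := fun p hp => (hg p hp).continuousAt.continuousWithinAt
  have hfd : ContinuousOn (fun v => fderiv ℝ f v (J v)) S3 := by
    intro p hp
    have h1 : ContinuousAt (fderiv ℝ f) p :=
      ((hf1.contDiffAt (x := p)).fderiv_right (m := 0) (by norm_num)).continuousAt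
    exact (h1.clm_apply J.continuous.continuousAt).continuousWithinAt
  have hgd : ContinuousOn (fun v => fderiv ℝ g v (J v)) S3 := by
    intro p hp
    have h1 : ContinuousAt (fderiv ℝ g) p :=
      ((hg1 p hp).fderiv_right (m := 0) (by norm_num)).continuousAt
    exact (h1.clm_apply J.continuous.continuousAt).continuousWithinAt
  have h2 : II (fun v => fderiv ℝ (fun v => f v * g v) v (J v)) =
      II (fun v => fderiv ℝ f v (J v) * g v + f v * fderiv ℝ g v (J v)) := by
    refine II_congr fun v hv => ?_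
    exact fderiv_prod_dir (hf.differentiable (by norm_num) v)
      ((hg v hv).differentiableAt (by norm_num)) (J v)
  rw [h2, II_add (cmul hfd hgc) (cmul hfc hgd)] at h1
  linear_combination h1

theorem closed_contra {a0 a1 a2 : ℂ × ℂ → ℂ} (h0 : ∀ p ∈ S3, ContDiffAt ℝ ∞ a0 p)
    (h1 : ∀ p ∈ S3, ContDiffAt ℝ ∞ a1 p) (h2 : ∀ p ∈ S3, ContDiffAt ℝ ∞ a2 p)
    (hA : ∀ p ∈ S3, a1 p + Complex.I * a2 p =
      -4 * conj p.2 - 4 * Complex.I * conj p.2 * a0 p)
    (hB : ∀ p ∈ S3, fderiv ℝ a2 p (J1 p) - fderiv ℝ a1 p (J2 p) + 2 * a0 p = 0)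
    (hC : ∀ p ∈ S3, fderiv ℝ a1 p (J0 p) - fderiv ℝ a0 p (J1 p) + 2 * a2 p = 0)
    (hD : ∀ p ∈ S3, fderiv ℝ a2 p (J0 p) - fderiv ℝ a0 p (J2 p) - 2 * a1 p = 0) : False := by
  have hw : ContDiff ℝ ∞ (fun v : ℂ × ℂ => v.2) := contDiff_snd
  have hzc := contDiff_conj1
  have hwc := contDiff_conj2
  have hzw : ContDiff ℝ ∞ (fun v : ℂ × ℂ => conj v.1 * conj v.2) := hzc.mul hwc
  have cont : ∀ {f : ℂ × ℂ → ℂ}, (∀ p ∈ S3, ContDiffAt ℝ ∞ f p) → ContinuousOn f S3 :=
    fun hf p hp => (hf p hp).continuousAt.continuousWithinAt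
  have contd : ∀ {f : ℂ × ℂ → ℂ} (J : (ℂ × ℂ) →L[ℝ] (ℂ × ℂ)), (∀ p ∈ S3, ContDiffAt ℝ ∞ f p) →
      ContinuousOn (fun v => fderiv ℝ f v (J v)) S3 := by
    intro f J hf p hp
    have h1 : ContinuousAt (fderiv ℝ f) p :=
      ((hf p hp).fderiv_right (m := 0) (by norm_num)).continuousAt
    exact (h1.clm_apply J.continuous.continuousAt).continuousWithinAt
  have c0 := cont h0
  have c1 := cont h1
  have c2 := cont h2
  have cw : ContinuousOn (fun v : ℂ × ℂ => v.2) S3 := continuous_snd.continuousOn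
  have czw : ContinuousOn (fun v : ℂ × ℂ => conj v.1 * conj v.2) S3 := hzw.continuous.continuousOn
  -- derivatives of the coordinates
  have dw : ∀ v u : ℂ × ℂ, fderiv ℝ (fun v : ℂ × ℂ => v.2) v u = u.2 := by
    intro v u
    have h : HasFDerivAt (fun v : ℂ × ℂ => v.2) (ContinuousLinearMap.snd ℝ ℂ ℂ) v :=
      hasFDerivAt_snd
    exact congrArg (fun L : (ℂ × ℂ) →L[ℝ] ℂ => L u) h.fderiv
  have dzc : ∀ v u : ℂ × ℂ, fderiv ℝ (fun v : ℂ × ℂ => conj v.1) v u = conj u.1 := by
    intro v u
    have h : HasFDerivAt (fun v : ℂ × ℂ => conj v.1)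
      ((Complex.conjCLE : ℂ →L[ℝ] ℂ).comp (ContinuousLinearMap.fst ℝ ℂ ℂ)) v :=
      Complex.conjCLE.hasFDerivAt.comp v hasFDerivAt_fst
    exact congrArg (fun L : (ℂ × ℂ) →L[ℝ] ℂ => L u) h.fderiv
  have dwc : ∀ v u : ℂ × ℂ, fderiv ℝ (fun v : ℂ × ℂ => conj v.2) v u = conj u.2 := by
    intro v u
    have h : HasFDerivAt (fun v : ℂ × ℂ => conj v.2)
      ((Complex.conjCLE : ℂ →L[ℝ] ℂ).comp (ContinuousLinearMap.snd ℝ ℂ ℂ)) v :=
      Complex.conjCLE.hasFDerivAt.comp v hasFDerivAt_snd
    exact congrArg (fun L : (ℂ × ℂ) →L[ℝ] ℂ => L u) h.fderiv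
  have dzw : ∀ v u : ℂ × ℂ, fderiv ℝ (fun v : ℂ × ℂ => conj v.1 * conj v.2) v u =
      conj u.1 * conj v.2 + conj v.1 * conj u.2 := by
    intro v u
    rw [fderiv_prod_dir (hzc.differentiable (by norm_num) v) (hwc.differentiable (by norm_num) v),
      dzc, dwc]
  -- integrals of `a0`
  have i0 : II a0 = 0 := by
    have e1 := II_deriv isRot_J1 (f := a2) fun p hp => (h2 p hp).of_le (by norm_num)
    have e2 := II_deriv isRot_J2 (f := a1) fun p hp => (h1 p hp).of_le (by norm_num)
    have e3 : II (fun v => fderiv ℝ a2 v (J1 v) - fderiv ℝ a1 v (J2 v)) =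
        II (fun v => (-2 : ℂ) * a0 v) := by
      refine II_congr fun v hv => ?_
      linear_combination hB v hv
    rw [II_sub (contd J1 h2) (contd J2 h1), e1, e2, II_mul] at e3
    have : (2 : ℂ) * II a0 = 0 := by linear_combination e3
    exact (mul_eq_zero.1 this).resolve_left (by norm_num)
  -- the first integral
  have i1 : II (fun v => v.2 * (a1 v + Complex.I * a2 v)) = 0 := by
    have e1 := II_prod isRot_J0 hw h1
    have e2 := II_prod isRot_J0 hw h2
    have e3 := II_prod isRot_J1 hw h0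
    have e4 := II_prod isRot_J2 hw h0
    have f1 : II (fun v => fderiv ℝ (fun v : ℂ × ℂ => v.2) v (J0 v) * a1 v) =
        Complex.I * II (fun v => v.2 * a1 v) := by
      rw [← II_mul]
      refine II_congr fun v hv => ?_
      rw [dw, J0_apply]; ring
    have f2 : II (fun v => fderiv ℝ (fun v : ℂ × ℂ => v.2) v (J0 v) * a2 v) =
        Complex.I * II (fun v => v.2 * a2 v) := by
      rw [← II_mul]
      refine II_congr fun v hv => ?_
      rw [dw, J0_apply]; ring
    have f3 : II (fun v => fderiv ℝ (fun v : ℂ × ℂ => v.2) v (J2 v) * a0 v) =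
        Complex.I * II (fun v => fderiv ℝ (fun v : ℂ × ℂ => v.2) v (J1 v) * a0 v) := by
      rw [← II_mul]
      refine II_congr fun v hv => ?_
      rw [dw, dw, J1_apply, J2_apply]; ring
    rw [f1] at e1
    rw [f2] at e2
    rw [f3] at e4
    have g1 : II (fun v => v.2 * fderiv ℝ a1 v (J0 v) - v.2 * fderiv ℝ a0 v (J1 v)) =
        II (fun v => (-2 : ℂ) * (v.2 * a2 v)) := by
      refine II_congr fun v hv => ?_
      linear_combination v.2 * hC v hv
    have g2 : II (fun v => v.2 * fderiv ℝ a2 v (J0 v) - v.2 * fderiv ℝ a0 v (J2 v)) =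
        II (fun v => (2 : ℂ) * (v.2 * a1 v)) := by
      refine II_congr fun v hv => ?_
      linear_combination v.2 * hD v hv
    rw [II_sub (cmul cw (contd J0 h1)) (cmul cw (contd J1 h0)), II_mul] at g1
    rw [II_sub (cmul cw (contd J0 h2)) (cmul cw (contd J2 h0)), II_mul] at g2
    have k1 : II (fun v => v.2 * (a1 v + Complex.I * a2 v)) =
        II (fun v => v.2 * a1 v) + Complex.I * II (fun v => v.2 * a2 v) := by
      rw [← II_mul, ← II_add (cmul cw c1) (cmul continuousOn_const (cmul cw c2))]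
      refine II_congr fun v hv => ?_
      ring
    rw [k1]
    have hI := Complex.I_mul_I
    have key : (-3 * Complex.I) * (II (fun v => v.2 * a1 v) + Complex.I * II (fun v => v.2 * a2 v)) =
        0 := by
      linear_combination g1 + Complex.I * g2 - e1 - Complex.I * e2 + e3 + Complex.I * e4 +
        (- 2 * II (fun v => v.2 * a2 v) -
          II (fun v => fderiv ℝ (fun v : ℂ × ℂ => v.2) v (J1 v) * a0 v)) * hI
    exact (mul_eq_zero.1 key).resolve_left (by simp)
  -- the second integral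
  have i2 : II (fun v => (v.2 * conj v.2) * a0 v) = 0 := by
    have e1 := II_prod isRot_J0 hzw h1
    have e2 := II_prod isRot_J0 hzw h2
    have e3 := II_prod isRot_J1 hzw h0
    have e4 := II_prod isRot_J2 hzw h0
    have f1 : II (fun v => fderiv ℝ (fun v : ℂ × ℂ => conj v.1 * conj v.2) v (J0 v) * a1 v) =
        (-2 * Complex.I) * II (fun v => (conj v.1 * conj v.2) * a1 v) := by
      rw [← II_mul]
      refine II_congr fun v hv => ?_
      rw [dzw, J0_apply]
      simp only [map_mul, Complex.conj_I]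
      ring
    have f2 : II (fun v => fderiv ℝ (fun v : ℂ × ℂ => conj v.1 * conj v.2) v (J0 v) * a2 v) =
        (-2 * Complex.I) * II (fun v => (conj v.1 * conj v.2) * a2 v) := by
      rw [← II_mul]
      refine II_congr fun v hv => ?_
      rw [dzw, J0_apply]
      simp only [map_mul, Complex.conj_I]
      ring
    have f3 : II (fun v => fderiv ℝ (fun v : ℂ × ℂ => conj v.1 * conj v.2) v (J1 v) * a0 v) =
        2 * II (fun v => (v.2 * conj v.2) * a0 v) := by
      have : II (fun v => fderiv ℝ (fun v : ℂ × ℂ => conj v.1 * conj v.2) v (J1 v) * a0 v) =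
          II (fun v => 2 * ((v.2 * conj v.2) * a0 v) - a0 v) := by
        refine II_congr fun v hv => ?_
        rw [dzw, J1_apply]
        simp only [map_neg, Complex.conj_conj]
        linear_combination (-a0 v) * S3_eq hv
      rw [this, II_sub (cmul continuousOn_const (cmul (cmul cw
        hwc.continuous.continuousOn) c0)) c0, II_mul, i0, sub_zero]
    have f4 : II (fun v => fderiv ℝ (fun v : ℂ × ℂ => conj v.1 * conj v.2) v (J2 v) * a0 v) =
        (-2 * Complex.I) * II (fun v => (v.2 * conj v.2) * a0 v) := by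
      have : II (fun v => fderiv ℝ (fun v : ℂ × ℂ => conj v.1 * conj v.2) v (J2 v) * a0 v) =
          II (fun v => (-2 * Complex.I) * ((v.2 * conj v.2) * a0 v) - (-Complex.I) * a0 v) := by
        refine II_congr fun v hv => ?_
        rw [dzw, J2_apply]
        simp only [map_neg, map_mul, Complex.conj_I, Complex.conj_conj]
        linear_combination (Complex.I * a0 v) * S3_eq hv
      rw [this, II_sub (cmul continuousOn_const (cmul (cmul cw
        hwc.continuous.continuousOn) c0)) (cmul continuousOn_const c0), II_mul, II_mul, i0]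
      ring
    rw [f1] at e1
    rw [f2] at e2
    rw [f3] at e3
    rw [f4] at e4
    have g1 : II (fun v => (conj v.1 * conj v.2) * fderiv ℝ a1 v (J0 v) -
        (conj v.1 * conj v.2) * fderiv ℝ a0 v (J1 v)) =
        II (fun v => (-2 : ℂ) * ((conj v.1 * conj v.2) * a2 v)) := by
      refine II_congr fun v hv => ?_
      linear_combination (conj v.1 * conj v.2) * hC v hv
    have g2 : II (fun v => (conj v.1 * conj v.2) * fderiv ℝ a2 v (J0 v) -
        (conj v.1 * conj v.2) * fderiv ℝ a0 v (J2 v)) =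
        II (fun v => (2 : ℂ) * ((conj v.1 * conj v.2) * a1 v)) := by
      refine II_congr fun v hv => ?_
      linear_combination (conj v.1 * conj v.2) * hD v hv
    rw [II_sub (cmul czw (contd J0 h1)) (cmul czw (contd J1 h0)), II_mul] at g1
    rw [II_sub (cmul czw (contd J0 h2)) (cmul czw (contd J2 h0)), II_mul] at g2
    have hI := Complex.I_mul_I
    have key : (4 : ℂ) * II (fun v => (v.2 * conj v.2) * a0 v) = 0 := by
      linear_combination g1 + Complex.I * g2 - e1 - Complex.I * e2 + e3 + Complex.I * e4 +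
        (-2 * II (fun v => (conj v.1 * conj v.2) * a2 v) +
          2 * II (fun v => (v.2 * conj v.2) * a0 v)) * hI
    exact (mul_eq_zero.1 key).resolve_left (by norm_num)
  -- the contradiction
  have i3 : II (fun v => v.2 * (a1 v + Complex.I * a2 v)) =
      (-4) * II (fun v => (Complex.normSq v.2 : ℂ)) +
        (-4 * Complex.I) * II (fun v => (v.2 * conj v.2) * a0 v) := by
    rw [← II_mul, ← II_mul, ← II_add]
    · refine II_congr fun v hv => ?_
      rw [hA v hv, ← Complex.mul_conj]
      ring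
    · exact cmul continuousOn_const (Complex.continuous_ofReal.comp
        (Complex.continuous_normSq.comp continuous_snd)).continuousOn
    · exact cmul continuousOn_const (cmul (cmul cw hwc.continuous.continuousOn) c0)
  rw [i1, i2, mul_zero, add_zero] at i3
  exact II_normSq_ne ((mul_eq_zero.1 i3.symm).resolve_left (by norm_num))

end Pool.Agent.W554.CR
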