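import Mathlib

/-!
# Three dimensional CR submanifolds of complex space and pseudo-Einstein contact forms

Definitions for the pseudo-Einstein problem in CR dimension one.
-/

set_option autoImplicit false

open scoped ContDiff Topology ComplexConjugate

noncomputable section

namespace Pool.Agent.W554.CR

/-- The exterior derivative of a one-form `α` on a real normed space:
`dα(u, v) = u (α v) - v (α u)` for constant vectors `u`, `v`. -/
def d1 {E G : Type*} [NormedAddCommGroup E] [NormedSpace ℝ E] [NormedAddCommGroup G]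
    [NormedSpace ℝ G] (α : E → E →L[ℝ] G) (p u v : E) : G :=
  fderiv ℝ α p u v - fderiv ℝ α p v u

variable {N : ℕ}

/-- `M` is an embedded smooth real submanifold of dimension `d` of `ℂ^N`: near each of its points
it is the image of an open subset `V` of `ℝ^d` under a smooth map `φ` whose inverse is the
restriction to `M` of a smooth map `ψ` defined on an open subset of `ℂ^N`. -/
def IsSubmanifold (d : ℕ) (M : Set (Fin N → ℂ)) : Prop :=
  ∀ p ∈ M, ∃ (U : Set (Fin N → ℂ)) (V : Set (Fin d → ℝ)) (φ : (Fin d → ℝ) → (Fin N → ℂ))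
    (ψ : (Fin N → ℂ) → (Fin d → ℝ)),
    IsOpen U ∧ p ∈ U ∧ IsOpen V ∧ ContDiffOn ℝ ∞ φ V ∧ ContDiffOn ℝ ∞ ψ U ∧
    (∀ t ∈ V, φ t ∈ M ∩ U ∧ ψ (φ t) = t) ∧ (∀ x ∈ M ∩ U, ψ x ∈ V ∧ φ (ψ x) = x)

/-- The real tangent space `T_p M`: the velocities at `p` of the curves in `M`. -/
def Tan (M : Set (Fin N → ℂ)) (p : Fin N → ℂ) : Set (Fin N → ℂ) :=
  {v | ∃ γ : ℝ → (Fin N → ℂ), γ 0 = p ∧ HasDerivAt γ v 0 ∧ ∀ᶠ t in 𝓝 (0 : ℝ), γ t ∈ M}

/-- The complex tangent space `H_p = T_p M ∩ i T_p M`; the map `v ↦ (v - i J v) / 2` identifies it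
with the fibre at `p` of the bundle `T^{1,0}` of the CR structure induced by `ℂ^N`. -/
def Hol (M : Set (Fin N → ℂ)) (p : Fin N → ℂ) : Set (Fin N → ℂ) :=
  {v | v ∈ Tan M p ∧ Complex.I • v ∈ Tan M p}

/-- A contact form on `M`: a smooth real one-form, defined on a neighbourhood of `M`, whose
kernel on `T_p M` is `H_p` for all `p ∈ M`. -/
structure IsContactForm (M : Set (Fin N → ℂ)) (θ : (Fin N → ℂ) → (Fin N → ℂ) →L[ℝ] ℝ) :
    Prop where
  smooth : ∃ U : Set (Fin N → ℂ), IsOpen U ∧ M ⊆ U ∧ ContDiffOn ℝ ∞ θ U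
  ker : ∀ p ∈ M, ∀ v ∈ Tan M p, θ p v = 0 ↔ v ∈ Hol M p

/-- `M` is strictly pseudoconvex: for some contact form `θ` the Levi form `dθ(v, J v)` is positive
definite on the complex tangent spaces. -/
def StrictlyPseudoconvex (M : Set (Fin N → ℂ)) : Prop :=
  ∃ θ : (Fin N → ℂ) → (Fin N → ℂ) →L[ℝ] ℝ, IsContactForm M θ ∧
    ∀ p ∈ M, ∀ v ∈ Hol M p, v ≠ 0 → 0 < d1 θ p v (Complex.I • v)

/-- Some positive tensor power of the complex line bundle `H ≅ T^{1,0}` over `M` is trivial: there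
is a continuous function `s p v` (`p ∈ M`, `v ∈ H_p`) that is homogeneous of degree `k` in `v` and
does not vanish for `v ≠ 0`, that is, a nowhere vanishing section of the `k`-th power of the dual.
So `k c₁(T^{1,0}) = 0` in `H²(M; ℤ)` and `c₁(T^{1,0}) = 0` in `H²(M; ℝ)`. -/
def TorsionChernClass (M : Set (Fin N → ℂ)) : Prop :=
  ∃ (k : ℕ) (s : (Fin N → ℂ) → (Fin N → ℂ) → ℂ), 0 < k ∧
    ContinuousOn (fun x : (Fin N → ℂ) × (Fin N → ℂ) => s x.1 x.2)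
      {x | x.1 ∈ M ∧ x.2 ∈ Hol M x.1} ∧
    ∀ p ∈ M, ∀ v ∈ Hol M p, (∀ a : ℂ, s p (a • v) = a ^ k * s p v) ∧ (v ≠ 0 → s p v ≠ 0)

/-- The pseudohermitian data of the contact form `θ` on the open piece `M ∩ U` of `M`:
`η = θ^1` is an admissible coframe with `h_{1 1bar} = ε = ± 1`, `om = ω_1^1` is the connection form
of the Tanaka-Webster connection, `A = A^1_{1bar}` is the torsion, `R` is the scalar curvature:
`dθ = i ε θ^1 ∧ θ^{1bar}`, `dθ^1 = θ^1 ∧ ω + A θ ∧ θ^{1bar}`, `ω + ωbar = 0`,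
`dω = ε R θ^1 ∧ θ^{1bar}` modulo `θ`. -/
structure IsWebsterData (M : Set (Fin N → ℂ)) (θ : (Fin N → ℂ) → (Fin N → ℂ) →L[ℝ] ℝ)
    (U : Set (Fin N → ℂ)) (ε : ℝ) (η om : (Fin N → ℂ) → (Fin N → ℂ) →L[ℝ] ℂ)
    (A : (Fin N → ℂ) → ℂ) (R : (Fin N → ℂ) → ℝ) : Prop where
  isOpen : IsOpen U
  eps : ε = 1 ∨ ε = -1
  smooth_eta : ContDiffOn ℝ ∞ η U
  smooth_omega : ContDiffOn ℝ ∞ om U
  smooth_A : ContDiffOn ℝ ∞ A U
  smooth_R : ContDiffOn ℝ ∞ R U
  type10 : ∀ p ∈ M ∩ U, ∀ v ∈ Hol M p, η p (Complex.I • v) = Complex.I * η p v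
  dtheta : ∀ p ∈ M ∩ U, ∀ u ∈ Tan M p, ∀ v ∈ Tan M p,
    ((d1 θ p u v : ℝ) : ℂ) = Complex.I * ε * (η p u * conj (η p v) - η p v * conj (η p u))
  deta : ∀ p ∈ M ∩ U, ∀ u ∈ Tan M p, ∀ v ∈ Tan M p,
    d1 η p u v = (η p u * om p v - η p v * om p u) +
      A p * (θ p u * conj (η p v) - θ p v * conj (η p u))
  skew : ∀ p ∈ M ∩ U, ∀ u ∈ Tan M p, om p u + conj (om p u) = 0
  curv : ∀ p ∈ M ∩ U, ∀ u ∈ Hol M p, ∀ v ∈ Hol M p,
    d1 om p u v = ε * R p * (η p u * conj (η p v) - η p v * conj (η p u))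

/-- The contact form `θ` on the three dimensional `M` is pseudo-Einstein: its Lee form
`-(1/3) (i Ω_1^1 - d(R θ))` vanishes, that is `i dω_1^1 = d(R θ)` on `M`. -/
def IsPseudoEinstein (M : Set (Fin N → ℂ)) (θ : (Fin N → ℂ) → (Fin N → ℂ) →L[ℝ] ℝ) : Prop :=
  ∀ p ∈ M, ∃ (U : Set (Fin N → ℂ)) (ε : ℝ) (η om : (Fin N → ℂ) → (Fin N → ℂ) →L[ℝ] ℂ)
    (A : (Fin N → ℂ) → ℂ) (R : (Fin N → ℂ) → ℝ), p ∈ U ∧ IsWebsterData M θ U ε η om A R ∧
    ∀ x ∈ M ∩ U, ∀ u ∈ Tan M x, ∀ v ∈ Tan M x,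
      Complex.I * d1 om x u v = (d1 (fun y => R y • θ y) x u v : ℝ)

end Pool.Agent.W554.CR
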