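import Pool.Agent.W554.CR.Local2

set_option autoImplicit false

open scoped ContDiff Topology ComplexConjugate
open MeasureTheory

noncomputable section

namespace Pool.Agent.W554.CR

variable {θ : (Fin 4 → ℂ) → (Fin 4 → ℂ) →L[ℝ] ℝ} {U : Set (Fin 4 → ℂ)} {ε : ℝ}
  {η om : (Fin 4 → ℂ) → (Fin 4 → ℂ) →L[ℝ] ℂ} {A : (Fin 4 → ℂ) → ℂ} {R : (Fin 4 → ℂ) → ℝ}
  {q : ℂ × ℂ}

/-- The logarithmic derivatives of `P`. -/
def x1 (θ : (Fin 4 → ℂ) → (Fin 4 → ℂ) →L[ℝ] ℝ) (q : ℂ × ℂ) : ℝ :=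
  fderiv ℝ (PC θ) q (E1 q) / PC θ q
def x2 (θ : (Fin 4 → ℂ) → (Fin 4 → ℂ) →L[ℝ] ℝ) (q : ℂ × ℂ) : ℝ :=
  fderiv ℝ (PC θ) q (E2 q) / PC θ q
def n1 (θ : (Fin 4 → ℂ) → (Fin 4 → ℂ) →L[ℝ] ℝ) (q : ℂ × ℂ) : ℂ :=
  4 * Complex.I * (q.2.im : ℂ) + 1 / 2 * ((x1 θ q : ℂ) - Complex.I * (x2 θ q : ℂ))
def n2 (θ : (Fin 4 → ℂ) → (Fin 4 → ℂ) →L[ℝ] ℝ) (q : ℂ × ℂ) : ℂ :=
  4 * Complex.I * (q.2.re : ℂ) + 1 / 2 * ((x2 θ q : ℂ) + Complex.I * (x1 θ q : ℂ))
def n0 (θ : (Fin 4 → ℂ) → (Fin 4 → ℂ) →L[ℝ] ℝ) (q : ℂ × ℂ) : ℂ :=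
  (8 * (q.2.im : ℂ) * n1 θ q + 8 * (q.2.re : ℂ) * n2 θ q - fderiv ℝ (n2 θ) q (E1 q) +
    fderiv ℝ (n1 θ) q (E2 q)) / (2 + 48 * (Complex.normSq q.2 : ℂ))

theorem contDiff_re2 : ContDiff ℝ ∞ (fun q : ℂ × ℂ => (q.2.re : ℂ)) :=
  Complex.ofRealCLM.contDiff.comp (Complex.reCLM.contDiff.comp contDiff_snd)

theorem contDiff_im2 : ContDiff ℝ ∞ (fun q : ℂ × ℂ => (q.2.im : ℂ)) :=
  Complex.ofRealCLM.contDiff.comp (Complex.imCLM.contDiff.comp contDiff_snd)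

theorem x1_contDiffAt (hθ : IsContactForm MM θ) (hq : q ∈ S3) : ContDiffAt ℝ ∞ (x1 θ) q :=
  (dir_contDiffAt (PC_contDiffAt hθ hq) contDiff_E1).div (PC_contDiffAt hθ hq) (PC_ne hθ hq)

theorem x2_contDiffAt (hθ : IsContactForm MM θ) (hq : q ∈ S3) : ContDiffAt ℝ ∞ (x2 θ) q :=
  (dir_contDiffAt (PC_contDiffAt hθ hq) contDiff_E2).div (PC_contDiffAt hθ hq) (PC_ne hθ hq)

theorem n1_contDiffAt (hθ : IsContactForm MM θ) (hq : q ∈ S3) : ContDiffAt ℝ ∞ (n1 θ) q :=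
  (contDiffAt_const.mul contDiff_im2.contDiffAt).add (contDiffAt_const.mul
    ((ofReal_contDiffAt (x1_contDiffAt hθ hq)).sub
      (contDiffAt_const.mul (ofReal_contDiffAt (x2_contDiffAt hθ hq)))))

theorem n2_contDiffAt (hθ : IsContactForm MM θ) (hq : q ∈ S3) : ContDiffAt ℝ ∞ (n2 θ) q :=
  (contDiffAt_const.mul contDiff_re2.contDiffAt).add (contDiffAt_const.mul
    ((ofReal_contDiffAt (x2_contDiffAt hθ hq)).add
      (contDiffAt_const.mul (ofReal_contDiffAt (x1_contDiffAt hθ hq)))))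

theorem den_ne (q : ℂ × ℂ) : (2 + 48 * (Complex.normSq q.2 : ℂ)) ≠ 0 := by
  have : (2 + 48 * (Complex.normSq q.2 : ℂ)) = ((2 + 48 * Complex.normSq q.2 : ℝ) : ℂ) := by
    push_cast; ring
  rw [this, Complex.ofReal_ne_zero]
  have := Complex.normSq_nonneg q.2
  linarith

theorem contDiff_den : ContDiff ℝ ∞ (fun q : ℂ × ℂ => (2 + 48 * (Complex.normSq q.2 : ℂ))) := by
  have : (fun q : ℂ × ℂ => (2 + 48 * (Complex.normSq q.2 : ℂ))) =
      fun q : ℂ × ℂ => 2 + 48 * (q.2 * conj q.2) := by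
    funext q; rw [Complex.mul_conj]
  rw [this]
  exact contDiff_const.add (contDiff_const.mul (contDiff_snd.mul contDiff_conj2))

theorem n0_contDiffAt (hθ : IsContactForm MM θ) (hq : q ∈ S3) : ContDiffAt ℝ ∞ (n0 θ) q := by
  have h1 : ContDiffAt ℝ ∞ (fun q : ℂ × ℂ => 8 * (q.2.im : ℂ) * n1 θ q + 8 * (q.2.re : ℂ) * n2 θ q -
      fderiv ℝ (n2 θ) q (E1 q) + fderiv ℝ (n1 θ) q (E2 q)) q :=
    ((((contDiffAt_const.mul contDiff_im2.contDiffAt).mul (n1_contDiffAt hθ hq)).add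
    ((contDiffAt_const.mul contDiff_re2.contDiffAt).mul (n2_contDiffAt hθ hq))).sub
    (dir_contDiffAt (n2_contDiffAt hθ hq) contDiff_E1)).add
    (dir_contDiffAt (n1_contDiffAt hθ hq) contDiff_E2)
  have h2 : ContDiffAt ℝ ∞ (fun q : ℂ × ℂ => (2 + 48 * (Complex.normSq q.2 : ℂ))⁻¹) q :=
    contDiff_den.contDiffAt.inv (den_ne q)
  have h3 := h1.mul h2
  refine h3.congr_of_eventuallyEq (Filter.Eventually.of_forall fun q => ?_)
  exact div_eq_mul_inv _ _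

theorem n0_def (q : ℂ × ℂ) : (2 + 48 * (Complex.normSq q.2 : ℂ)) * n0 θ q =
    8 * (q.2.im : ℂ) * n1 θ q + 8 * (q.2.re : ℂ) * n2 θ q - fderiv ℝ (n2 θ) q (E1 q) +
      fderiv ℝ (n1 θ) q (E2 q) := by
  rw [n0, mul_div_cancel₀ _ (den_ne q)]

/-- The closed one-form of Lee. -/
def kap' (θ : (Fin 4 → ℂ) → (Fin 4 → ℂ) →L[ℝ] ℝ) (om : (Fin 4 → ℂ) → (Fin 4 → ℂ) →L[ℝ] ℂ)
    (R : (Fin 4 → ℂ) → ℝ) : (Fin 4 → ℂ) → (Fin 4 → ℂ) →L[ℝ] ℂ :=
  fun x => om x + (Complex.I • Complex.ofRealCLM).comp (R x • θ x)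

theorem kap'_contDiffAt (hθ : IsContactForm MM θ) (hW : IsWebsterData MM θ U ε η om A R)
    (hq : q ∈ S3) (hqU : FF q ∈ U) : ContDiffAt ℝ ∞ (kap' θ om R) (FF q) :=
  (om_contDiffAt hW hqU).add (contDiffAt_const.clm_comp
    ((R_contDiffAt hW hqU).smul (contact_contDiffAt hθ hq)))

theorem kap'_closed (hθ : IsContactForm MM θ) (hW : IsWebsterData MM θ U ε η om A R)
    (hE : ∀ x ∈ MM ∩ U, ∀ u ∈ Tan MM x, ∀ v ∈ Tan MM x,
      Complex.I * d1 om x u v = (d1 (fun y => R y • θ y) x u v : ℝ))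
    (hq : q ∈ S3) (hqU : FF q ∈ U) {u v : Fin 4 → ℂ} (hu : u ∈ Tan MM (FF q))
    (hv : v ∈ Tan MM (FF q)) : d1 (kap' θ om R) (FF q) u v = 0 := by
  have h1 := hE _ ⟨⟨q, hq, rfl⟩, hqU⟩ u hu v hv
  have ho : DifferentiableAt ℝ om (FF q) := (om_contDiffAt hW hqU).differentiableAt (by norm_num)
  have hR : DifferentiableAt ℝ (fun y => R y • θ y) (FF q) :=
    ((R_contDiffAt hW hqU).smul (contact_contDiffAt hθ hq)).differentiableAt (by norm_num)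
  have h2 := ho.hasFDerivAt.add ((hasFDerivAt_const (Complex.I • Complex.ofRealCLM) (FF q)).clm_comp
    hR.hasFDerivAt)
  have h3 : fderiv ℝ (kap' θ om R) (FF q) = _ := h2.fderiv
  unfold d1 at h1 ⊢
  rw [h3]
  simp only [_root_.add_apply, ContinuousLinearMap.comp_apply,
    ContinuousLinearMap.compL_apply, _root_.zero_apply,
    _root_.smul_apply, Complex.ofRealCLM_apply, smul_eq_mul, map_zero, add_zero]
  push_cast at h1
  have hI := Complex.I_mul_I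
  linear_combination (-Complex.I) * h1 + (fderiv ℝ om (FF q) u v - fderiv ℝ om (FF q) v u) * hI

/-- The closed form on the sphere. -/
def nu (θ : (Fin 4 → ℂ) → (Fin 4 → ℂ) →L[ℝ] ℝ) (η om : (Fin 4 → ℂ) → (Fin 4 → ℂ) →L[ℝ] ℂ)
    (R : (Fin 4 → ℂ) → ℝ) : ℂ × ℂ → (ℂ × ℂ) →L[ℝ] ℂ :=
  fun q => pull FF (kap' θ om R) q + (GC θ η q)⁻¹ • fderiv ℝ (GC θ η) q

theorem nu_contDiffAt (hθ : IsContactForm MM θ) (hW : IsWebsterData MM θ U ε η om A R)
    (hq : q ∈ S3) (hqU : FF q ∈ U) : ContDiffAt ℝ ∞ (nu θ η om R) q := by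
  have h1 := pull_contDiffAt (kap'_contDiffAt hθ hW hq hqU)
  have h2 := GC_contDiffAt hθ hW hq hqU
  exact h1.add ((h2.inv (GC_ne hθ hW hq hqU)).smul (h2.fderiv_right (by norm_num)))

theorem d1_add {α β : ℂ × ℂ → (ℂ × ℂ) →L[ℝ] ℂ} (hα : DifferentiableAt ℝ α q)
    (hβ : DifferentiableAt ℝ β q) (u v : ℂ × ℂ) :
    d1 (fun q => α q + β q) q u v = d1 α q u v + d1 β q u v := by
  have h : fderiv ℝ (fun q => α q + β q) q = _ := (hα.hasFDerivAt.add hβ.hasFDerivAt).fderiv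
  unfold d1
  rw [h]
  simp only [_root_.add_apply]
  ring

theorem nu_closed (hθ : IsContactForm MM θ) (hW : IsWebsterData MM θ U ε η om A R)
    (hE : ∀ x ∈ MM ∩ U, ∀ u ∈ Tan MM x, ∀ v ∈ Tan MM x,
      Complex.I * d1 om x u v = (d1 (fun y => R y • θ y) x u v : ℝ))
    (hq : q ∈ S3) (hqU : FF q ∈ U) {u v : ℂ × ℂ} (hu : Tg q u) (hv : Tg q v) :
    d1 (nu θ η om R) q u v = 0 := by
  have hk : DifferentiableAt ℝ (kap' θ om R) (FF q) :=
    (kap'_contDiffAt hθ hW hq hqU).differentiableAt (by norm_num)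
  have h2 := GC_contDiffAt hθ hW hq hqU
  have h3 : DifferentiableAt ℝ (fun q => (GC θ η q)⁻¹ • fderiv ℝ (GC θ η) q) q :=
    ((h2.inv (GC_ne hθ hW hq hqU)).smul
      (h2.fderiv_right (m := ∞) (by norm_num))).differentiableAt (by norm_num)
  have h4 : d1 (nu θ η om R) q u v = _ := d1_add (pull_differentiableAt hk (FF2 q)) h3 u v
  rw [h4, pull_d1 hk (FF2 q), kap'_closed hθ hW hE hq hqU hu hv,
    d1_log (contDiffAt_infty.1 h2 2) (GC_ne hθ hW hq hqU), add_zero]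

theorem nu_eval (hθ : IsContactForm MM θ) (hW : IsWebsterData MM θ U ε η om A R)
    (hq : q ∈ S3) (hqU : FF q ∈ U) :
    nu θ η om R q (E1 q) = n1 θ q ∧ nu θ η om R q (E2 q) = n2 θ q := by
  have t1 := th_E1 hθ hq
  have t2 := th_E2 hθ hq
  have hG := GC_ne hθ hW hq hqU
  have hGc : conj (GC θ η q) ≠ 0 := (map_ne_zero _).2 hG
  have hP : (PC θ q : ℂ) ≠ 0 := Complex.ofReal_ne_zero.2 (PC_ne hθ hq)
  have hm := id_mod hθ hW hq hqU
  obtain ⟨m1, m2⟩ := id_mod_fderiv hθ hW hq hqU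
  have hg := id_G hθ hW hq hqU
  have s1 := hW.skew _ ⟨⟨q, hq, rfl⟩, hqU⟩ _ (Tg_E1 hq)
  have s2 := hW.skew _ ⟨⟨q, hq, rfl⟩, hqU⟩ _ (Tg_E2 hq)
  rw [← pull_apply FF om q (E1 q)] at s1
  rw [← pull_apply FF om q (E2 q)] at s2
  have ε2 := eps_sq hW
  have v1 : nu θ η om R q (E1 q) =
      pull FF om q (E1 q) + (GC θ η q)⁻¹ * fderiv ℝ (GC θ η) q (E1 q) := by
    rw [pull_apply] at t1
    simp [nu, kap', pull_apply, t1]
  have v2 : nu θ η om R q (E2 q) =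
      pull FF om q (E2 q) + (GC θ η q)⁻¹ * fderiv ℝ (GC θ η) q (E2 q) := by
    rw [pull_apply] at t2
    simp [nu, kap', pull_apply, t2]
  have hdbar : nu θ η om R q (E1 q) + Complex.I * nu θ η om R q (E2 q) = -4 * conj q.2 := by
    rw [v1, v2]
    apply mul_left_cancel₀ hG
    have e : GC θ η q * (pull FF om q (E1 q) + (GC θ η q)⁻¹ * fderiv ℝ (GC θ η) q (E1 q) +
        Complex.I * (pull FF om q (E2 q) + (GC θ η q)⁻¹ * fderiv ℝ (GC θ η) q (E2 q))) =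
        GC θ η q * (pull FF om q (E1 q) + Complex.I * pull FF om q (E2 q)) +
        (fderiv ℝ (GC θ η) q (E1 q) + Complex.I * fderiv ℝ (GC θ η) q (E2 q)) := by
      field_simp
      ring
    rw [e, hg]
    ring
  have r1 : nu θ η om R q (E1 q) + conj (nu θ η om R q (E1 q)) = (x1 θ q : ℂ) := by
    rw [v1, x1, Complex.ofReal_div, map_add, map_mul, map_inv₀]
    have e : (GC θ η q)⁻¹ * fderiv ℝ (GC θ η) q (E1 q) +
        (conj (GC θ η q))⁻¹ * conj (fderiv ℝ (GC θ η) q (E1 q)) =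
        ((fderiv ℝ (PC θ) q (E1 q) : ℝ) : ℂ) / (PC θ q : ℂ) := by
      rw [eq_div_iff hP]
      apply mul_left_cancel₀ hG
      apply mul_left_cancel₀ hGc
      field_simp
      linear_combination (PC θ q : ℂ) * m1 - ((fderiv ℝ (PC θ) q (E1 q) : ℝ) : ℂ) * hm
    linear_combination e + s1
  have r2 : nu θ η om R q (E2 q) + conj (nu θ η om R q (E2 q)) = (x2 θ q : ℂ) := by
    rw [v2, x2, Complex.ofReal_div, map_add, map_mul, map_inv₀]
    have e : (GC θ η q)⁻¹ * fderiv ℝ (GC θ η) q (E2 q) +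
        (conj (GC θ η q))⁻¹ * conj (fderiv ℝ (GC θ η) q (E2 q)) =
        ((fderiv ℝ (PC θ) q (E2 q) : ℝ) : ℂ) / (PC θ q : ℂ) := by
      rw [eq_div_iff hP]
      apply mul_left_cancel₀ hG
      apply mul_left_cancel₀ hGc
      field_simp
      linear_combination (PC θ q : ℂ) * m2 - ((fderiv ℝ (PC θ) q (E2 q) : ℝ) : ℂ) * hm
    linear_combination e + s2
  -- conclude by comparing real and imaginary parts
  generalize nu θ η om R q (E1 q) = N1 at hdbar r1 ⊢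
  generalize nu θ η om R q (E2 q) = N2 at hdbar r2 ⊢
  have hdc : conj N1 - Complex.I * conj N2 = -4 * q.2 := by
    have := congrArg conj hdbar
    simp only [map_add, map_mul, map_neg, Complex.conj_I, Complex.conj_conj, map_ofNat] at this
    linear_combination this
  have hI := Complex.I_mul_I
  have him := two_im q.2
  have hre := two_re q.2
  constructor
  · rw [n1, him]
    linear_combination (1 / 2) * hdbar - (1 / 2) * hdc + (1 / 2) * r1 - (1 / 2) * Complex.I * r2 +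
      (2 * (q.2 - conj q.2)) * hI
  · rw [n2, hre]
    linear_combination (-1 / 2 * Complex.I) * hdbar - (1 / 2) * Complex.I * hdc + (1 / 2) * r2 +
      (1 / 2) * Complex.I * r1 + (1 / 2 * N2 - 1 / 2 * conj N2) * hI

theorem no_pseudoEinstein (hθ : IsContactForm MM θ) (hE : IsPseudoEinstein MM θ) : False := by
  have key : ∀ p ∈ S3,
      let a1 := fun q : ℂ × ℂ => n1 θ q - 4 * (q.2.im : ℂ) * n0 θ q
      let a2 := fun q : ℂ × ℂ => n2 θ q - 4 * (q.2.re : ℂ) * n0 θ q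
      fderiv ℝ a2 p (J1 p) - fderiv ℝ a1 p (J2 p) + 2 * n0 θ p = 0 ∧
      fderiv ℝ a1 p (J0 p) - fderiv ℝ (n0 θ) p (J1 p) + 2 * a2 p = 0 ∧
      fderiv ℝ a2 p (J0 p) - fderiv ℝ (n0 θ) p (J2 p) - 2 * a1 p = 0 := by
    intro p hp
    obtain ⟨U, ε, η, om, A, R, hpU, hW, hL⟩ := hE (FF p) ⟨p, hp, rfl⟩
    have hO : IsOpen (FF ⁻¹' U) := hW.isOpen.preimage contDiff_FF.continuous
    exact local_to_eq (fun q hq => n0_contDiffAt hθ hq) (fun q hq => n1_contDiffAt hθ hq)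
      (fun q hq => n2_contDiffAt hθ hq) (fun q _ => n0_def q) hp hO hpU
      (fun q hq hqU => nu_contDiffAt hθ hW hq hqU)
      (fun q hq hqU u u' hu hu' => nu_closed hθ hW hL hq hqU hu hu')
      (fun q hq hqU => (nu_eval hθ hW hq hqU).1) (fun q hq hqU => (nu_eval hθ hW hq hqU).2)
  refine closed_contra (a0 := n0 θ) (a1 := fun q : ℂ × ℂ => n1 θ q - 4 * (q.2.im : ℂ) * n0 θ q)
    (a2 := fun q : ℂ × ℂ => n2 θ q - 4 * (q.2.re : ℂ) * n0 θ q)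
    (fun q hq => n0_contDiffAt hθ hq) ?_ ?_ ?_ (fun p hp => (key p hp).1)
    (fun p hp => (key p hp).2.1) (fun p hp => (key p hp).2.2)
  · intro p hp
    exact (n1_contDiffAt hθ hp).sub ((contDiffAt_const.mul contDiff_im2.contDiffAt).mul
      (n0_contDiffAt hθ hp))
  · intro p hp
    exact (n2_contDiffAt hθ hp).sub ((contDiffAt_const.mul contDiff_re2.contDiffAt).mul
      (n0_contDiffAt hθ hp))
  · intro p hp
    have hI := Complex.I_mul_I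
    have him := two_im p.2
    have hre := two_re p.2
    simp only [n1, n2]
    rw [him, hre]
    linear_combination (-2 * (p.2 - conj p.2) + 2 * (p.2 + conj p.2) + 1 / 2 * (x1 θ p : ℂ)) * hI

end Pool.Agent.W554.CR
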