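import Pool.Agent.W554.CR.Map

set_option autoImplicit false

open scoped ContDiff Topology ComplexConjugate
open MeasureTheory

noncomputable section

namespace Pool.Agent.W554.CR

/-- The complex form of the equation of the sphere. -/
theorem S3_eq {v : ℂ × ℂ} (hv : v ∈ S3) : v.1 * conj v.1 + v.2 * conj v.2 = 1 := by
  rw [Complex.mul_conj, Complex.mul_conj, ← Complex.ofReal_add]
  have : Complex.normSq v.1 + Complex.normSq v.2 = 1 := hv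
  rw [this, Complex.ofReal_one]

theorem S3_of_eq {v : ℂ × ℂ} (hv : v.1 * conj v.1 + v.2 * conj v.2 = 1) : v ∈ S3 := by
  rw [Complex.mul_conj, Complex.mul_conj, ← Complex.ofReal_add, ← Complex.ofReal_one,
    Complex.ofReal_inj] at hv
  exact hv

/-- The real vector field `Z + Zbar`. -/
def E1 (v : ℂ × ℂ) : ℂ × ℂ := J1 v + (4 * v.2.im) • J0 v

/-- The real vector field `i (Z - Zbar)`. -/
def E2 (v : ℂ × ℂ) : ℂ × ℂ := J2 v + (4 * v.2.re) • J0 v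

theorem DF_add (v u u' : ℂ × ℂ) : DF v (u + u') = DF v u + DF v u' := by
  rw [← fderiv_FF, ← fderiv_FF, ← fderiv_FF, map_add]

theorem DF_smul (a : ℝ) (v u : ℂ × ℂ) : DF v (a • u) = a • DF v u := by
  rw [← fderiv_FF, ← fderiv_FF, map_smul]

/-- `T F`. -/
theorem DF_J0 (v : ℂ × ℂ) : DF v (J0 v) = (3 * Complex.I) • ![v.1 ^ 3, v.1 ^ 2 * v.2,
    v.1 * v.2 ^ 2, v.2 ^ 3] := by
  funext i
  fin_cases i <;> simp [DF, J0_apply] <;> ring

/-- `Z F`. -/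
def VV (v : ℂ × ℂ) : Fin 4 → ℂ :=
  ![3 * v.1 ^ 2 * conj v.2 - 6 * v.1 * conj v.2 ^ 3 + 6 * v.2 * v.1 ^ 3,
    2 * v.1 * v.2 * conj v.2 - v.1 ^ 2 * conj v.1 - 3 * v.2 * conj v.2 ^ 3 +
      3 * v.1 * conj v.1 * conj v.2 ^ 2 + 6 * v.2 * (v.1 ^ 2 * v.2),
    v.2 ^ 2 * conj v.2 - 2 * v.1 * v.2 * conj v.1 + 6 * v.2 * conj v.1 * conj v.2 ^ 2 +
      6 * v.2 * (v.1 * v.2 ^ 2),
    -(3 * v.2 ^ 2 * conj v.1) - 3 * conj v.1 ^ 2 * (1 + v.2 * conj v.2) -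
      3 * v.2 * conj v.1 ^ 2 * conj v.2 + 6 * v.2 * v.2 ^ 3]

theorem two_im (w : ℂ) : ((w.im : ℝ) : ℂ) = -Complex.I / 2 * (w - conj w) := by
  rw [Complex.sub_conj]
  push_cast
  linear_combination ((w.im : ℂ)) * Complex.I_mul_I

theorem two_re (w : ℂ) : ((w.re : ℝ) : ℂ) = 1 / 2 * (w + conj w) := by
  rw [Complex.add_conj]
  push_cast
  ring

theorem DF_E1 {v : ℂ × ℂ} (hv : v ∈ S3) : DF v (E1 v) = VV v := by
  have h := S3_eq hv
  have hI := Complex.I_mul_I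
  rw [E1, DF_add, DF_smul, DF_J0]
  funext i
  have h2 := two_im v.2
  fin_cases i
  · simp [DF, J1_apply, VV, h2]
    linear_combination (-6 * v.1 ^ 3 * (v.2 - conj v.2)) * hI
  · simp [DF, J1_apply, VV, h2]
    linear_combination (-6 * v.1 ^ 2 * v.2 * (v.2 - conj v.2)) * hI
  · simp [DF, J1_apply, VV, h2]
    linear_combination (-6 * v.1 * v.2 ^ 2 * (v.2 - conj v.2)) * hI
  · simp [DF, J1_apply, VV, h2]
    linear_combination (-6 * v.2 ^ 3 * (v.2 - conj v.2)) * hI - (3 * v.2 ^ 2) * h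

theorem DF_E2 {v : ℂ × ℂ} (hv : v ∈ S3) : DF v (E2 v) = Complex.I • VV v := by
  have h := S3_eq hv
  have hI := Complex.I_mul_I
  rw [E2, DF_add, DF_smul, DF_J0]
  funext i
  have h2 := two_re v.2
  fin_cases i
  · simp [DF, J2_apply, VV, h2]
    ring
  · simp [DF, J2_apply, VV, h2]
    ring
  · simp [DF, J2_apply, VV, h2]
    ring
  · simp [DF, J2_apply, VV, h2]
    linear_combination (3 * v.2 ^ 2 * Complex.I) * h

/-- The multipliers of the columns. -/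
def k0 (v : ℂ × ℂ) : ℂ := v.1 * (v.1 - 3 * conj v.2 ^ 2)
def k1 (v : ℂ × ℂ) : ℂ := v.2 * (v.1 - 3 * conj v.2 ^ 2)
def k2 (v : ℂ × ℂ) : ℂ := v.2 ^ 2 + 3 * conj v.1 * (1 + v.2 * conj v.2)

theorem FF_0 (v : ℂ × ℂ) : FF v 0 = k0 v * v.1 := by simp [FF, k0]; ring
theorem FF_1 (v : ℂ × ℂ) : FF v 1 = k0 v * v.2 := by simp [FF, k0]; ring
theorem FF_1' (v : ℂ × ℂ) : FF v 1 = k1 v * v.1 := by simp [FF, k1]; ring
theorem FF_2 (v : ℂ × ℂ) : FF v 2 = k1 v * v.2 := by simp [FF, k1]; ring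
theorem FF_2' {v : ℂ × ℂ} (hv : v ∈ S3) : FF v 2 + 3 = k2 v * v.1 := by
  have h := S3_eq hv
  simp [FF, k2]
  linear_combination (-3 - 3 * v.2 * conj v.2) * h
theorem FF_3 (v : ℂ × ℂ) : FF v 3 = k2 v * v.2 := by simp [FF, k2]; ring

theorem VV_0 {v : ℂ × ℂ} (hv : v ∈ S3) : v.2 * VV v 0 - v.1 * VV v 1 = k0 v := by
  have h := S3_eq hv
  simp [VV, k0]
  linear_combination (v.1 ^ 2 - 3 * v.1 * conj v.2 ^ 2) * h

theorem VV_1 {v : ℂ × ℂ} (hv : v ∈ S3) : v.2 * VV v 1 - v.1 * VV v 2 = k1 v := by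
  have h := S3_eq hv
  simp [VV, k1]
  linear_combination (v.1 * v.2 - 3 * v.2 * conj v.2 ^ 2) * h

theorem VV_2 {v : ℂ × ℂ} (hv : v ∈ S3) : v.2 * VV v 2 - v.1 * VV v 3 = k2 v := by
  have h := S3_eq hv
  simp [VV, k2]
  linear_combination (v.2 ^ 2 + 3 * conj v.1 + 6 * v.2 * conj v.2 * conj v.1) * h

end Pool.Agent.W554.CR
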