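import Pool.Agent.W554.CR.Sphere

set_option autoImplicit false

open scoped ContDiff Topology ComplexConjugate
open MeasureTheory

noncomputable section

namespace Pool.Agent.W554.CR

variable {J : (ℂ × ℂ) →L[ℝ] (ℂ × ℂ)}

theorem continuous_qf : Continuous qf := by
  unfold qf
  exact (Complex.continuous_normSq.comp continuous_fst).add
    (Complex.continuous_normSq.comp continuous_snd)

theorem qf_smul (a : ℝ) (v : ℂ × ℂ) : qf (a • v) = a ^ 2 * qf v := by
  simp [qf, Complex.normSq_apply]
  ring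

/-- The closed shell `1/4 ≤ |v|² ≤ 1`. -/
def KK : Set (ℂ × ℂ) := {v | 1 / 4 ≤ qf v ∧ qf v ≤ 1}

theorem isClosed_KK : IsClosed KK :=
  (isClosed_le continuous_const continuous_qf).inter (isClosed_le continuous_qf continuous_const)

theorem isCompact_KK : IsCompact KK := by
  refine Metric.isCompact_of_isClosed_isBounded isClosed_KK ?_
  refine (Metric.isBounded_closedBall (x := (0 : ℂ × ℂ)) (r := 1)).subset ?_
  rintro v ⟨-, h⟩
  rw [mem_closedBall_zero_iff, Prod.norm_def, sup_le_iff]
  have h1 := Complex.normSq_nonneg v.1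
  have h2 := Complex.normSq_nonneg v.2
  rw [qf, Complex.normSq_eq_norm_sq, Complex.normSq_eq_norm_sq] at h
  constructor <;> nlinarith [sq_nonneg ‖v.1‖, sq_nonneg ‖v.2‖, norm_nonneg v.1, norm_nonneg v.2]

theorem measurableSet_KK : MeasurableSet KK := isClosed_KK.measurableSet

/-- The radial projection to the sphere. -/
def hat (v : ℂ × ℂ) : ℂ × ℂ := (Real.sqrt (qf v))⁻¹ • v

theorem hat_mem {v : ℂ × ℂ} (hv : v ∈ KK) : hat v ∈ S3 := by
  have h : 0 < qf v := lt_of_lt_of_le (by norm_num) hv.1
  rw [S3, Set.mem_ofPred_eq, hat, qf_smul, inv_pow, Real.sq_sqrt h.le, inv_mul_cancel₀ h.ne']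

theorem continuousOn_hat : ContinuousOn hat KK := by
  unfold hat
  refine ContinuousOn.smul (f := fun v => (Real.sqrt (qf v))⁻¹) (g := fun v => v)
    (ContinuousOn.inv₀ ?_ ?_) continuousOn_id
  · exact (Real.continuous_sqrt.comp continuous_qf).continuousOn
  · intro v hv
    have h : 0 < qf v := lt_of_lt_of_le (by norm_num) hv.1
    exact (Real.sqrt_pos.2 h).ne'

theorem hat_rot (hJ : IsRot J) (t : ℝ) (v : ℂ × ℂ) : hat (rot J t v) = rot J t (hat v) := by
  rw [hat, qf_rot hJ, hat, rot, rot, map_smul]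
  module

theorem continuous_rot (t : ℝ) : Continuous (rot J t) := by
  unfold rot
  fun_prop

instance instAddHaar : Measure.IsAddHaarMeasure (volume : Measure (ℂ × ℂ)) := by
  rw [Measure.volume_eq_prod]
  infer_instance

/-- The rotation as a linear equivalence. -/
def rotEquiv (hJ : IsRot J) (t : ℝ) : (ℂ × ℂ) ≃ₗ[ℝ] (ℂ × ℂ) where
  toFun := rot J t
  map_add' := by intro a b; simp only [rot, map_add]; module
  map_smul' := by intro a b; simp only [rot, map_smul, RingHom.id_apply]; module
  invFun := rot J (-t)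
  left_inv := rot_rot hJ t
  right_inv := by
    intro v
    have := rot_rot hJ (-t) v
    rwa [neg_neg] at this

theorem rot_preimage (hJ : IsRot J) (t : ℝ) : (rot J t) ⁻¹' KK = KK := by
  ext v
  simp only [Set.mem_preimage, KK, Set.mem_ofPred_eq, qf_rot hJ]

theorem volume_KK_pos : volume KK ≠ 0 := by
  have h : (interior KK).Nonempty := by
    refine ⟨((3 / 4 : ℝ), 0), ?_⟩
    rw [mem_interior]
    refine ⟨{v | 1 / 4 < qf v ∧ qf v < 1}, fun v hv => ⟨hv.1.le, hv.2.le⟩,
      (isOpen_lt continuous_const continuous_qf).inter (isOpen_lt continuous_qf continuous_const),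
      ?_⟩
    simp [qf, Complex.normSq_apply]
    norm_num
  exact (Measure.measure_pos_of_nonempty_interior _ h).ne'

theorem volume_KK_lt : volume KK ≠ ⊤ := isCompact_KK.measure_ne_top

theorem measurePreserving_rot (hJ : IsRot J) (t : ℝ) :
    MeasurePreserving (rot J t) (volume : Measure (ℂ × ℂ)) volume := by
  have hdet : LinearMap.det ((rotEquiv hJ t : (ℂ × ℂ) ≃ₗ[ℝ] (ℂ × ℂ)) : (ℂ × ℂ) →ₗ[ℝ] (ℂ × ℂ)) ≠ 0 :=
    (LinearEquiv.isUnit_det' (rotEquiv hJ t)).ne_zero
  have h1 := Measure.addHaar_preimage_linearMap (volume : Measure (ℂ × ℂ)) hdet KK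
  have h2 : ((rotEquiv hJ t : (ℂ × ℂ) ≃ₗ[ℝ] (ℂ × ℂ)) : (ℂ × ℂ) →ₗ[ℝ] (ℂ × ℂ)) ⁻¹' KK = KK :=
    rot_preimage hJ t
  rw [h2] at h1
  have h3 : ENNReal.ofReal |(LinearMap.det ((rotEquiv hJ t : (ℂ × ℂ) ≃ₗ[ℝ] (ℂ × ℂ)) :
      (ℂ × ℂ) →ₗ[ℝ] (ℂ × ℂ)))⁻¹| = 1 := by
    have h4 : 1 * volume KK = ENNReal.ofReal |(LinearMap.det
      ((rotEquiv hJ t : (ℂ × ℂ) ≃ₗ[ℝ] (ℂ × ℂ)) : (ℂ × ℂ) →ₗ[ℝ] (ℂ × ℂ)))⁻¹| * volume KK := by
      rw [one_mul]; exact h1
    exact ((ENNReal.mul_left_inj volume_KK_pos volume_KK_lt).1 h4).symm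
  refine ⟨?_, ?_⟩
  · exact (continuous_rot t).measurable
  · have h5 := Measure.map_linearMap_addHaar_eq_smul_addHaar (volume : Measure (ℂ × ℂ)) hdet
    rw [h3, one_smul] at h5
    exact h5

/-- The integral over the sphere (up to a positive constant). -/
def II (f : ℂ × ℂ → ℂ) : ℂ := ∫ v in KK, f (hat v)

theorem II_rot (hJ : IsRot J) (t : ℝ) (f : ℂ × ℂ → ℂ) : II (fun v => f (rot J t v)) = II f := by
  unfold II
  have hc : Continuous (rot J t) := continuous_rot t
  have hc' : Continuous (rot J (-t)) := continuous_rot (-t)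
  have hemb : MeasurableEmbedding (rot J t) := by
    let e : (ℂ × ℂ) ≃ₜ (ℂ × ℂ) :=
      { toFun := rot J t
        invFun := rot J (-t)
        left_inv := rot_rot hJ t
        right_inv := by
          intro v
          have := rot_rot hJ (-t) v
          rwa [neg_neg] at this
        continuous_toFun := hc
        continuous_invFun := hc' }
    exact e.measurableEmbedding
  have h := (measurePreserving_rot hJ t).setIntegral_preimage_emb hemb (fun v => f (hat v)) KK
  rw [rot_preimage hJ] at h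
  rw [← h]
  simp only [hat_rot hJ]

theorem isCompact_S3 : IsCompact S3 := by
  have h : S3 ⊆ KK := by
    intro v hv
    have hv' : qf v = 1 := hv
    exact ⟨by rw [hv']; norm_num, by rw [hv']⟩
  exact isCompact_KK.of_isClosed_subset (isClosed_eq continuous_qf continuous_const) h

theorem integrableOn_II {f : ℂ × ℂ → ℂ} (hf : ContinuousOn f S3) :
    IntegrableOn (fun v => f (hat v)) KK :=
  (hf.comp continuousOn_hat fun _ hv => hat_mem hv).integrableOn_compact isCompact_KK

theorem II_congr {f g : ℂ × ℂ → ℂ} (h : ∀ v ∈ S3, f v = g v) : II f = II g :=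
  setIntegral_congr_fun measurableSet_KK fun v hv => h _ (hat_mem hv)

theorem II_add {f g : ℂ × ℂ → ℂ} (hf : ContinuousOn f S3) (hg : ContinuousOn g S3) :
    II (fun v => f v + g v) = II f + II g :=
  integral_add (integrableOn_II hf) (integrableOn_II hg)

theorem II_sub {f g : ℂ × ℂ → ℂ} (hf : ContinuousOn f S3) (hg : ContinuousOn g S3) :
    II (fun v => f v - g v) = II f - II g :=
  integral_sub (integrableOn_II hf) (integrableOn_II hg)

theorem II_mul (c : ℂ) (f : ℂ × ℂ → ℂ) : II (fun v => c * f v) = c * II f :=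
  integral_const_mul c _

/-- Integration by parts: derivatives along the rotation fields have integral zero. -/
theorem II_deriv (hJ : IsRot J) {f : ℂ × ℂ → ℂ} (hf : ∀ p ∈ S3, ContDiffAt ℝ 1 f p) :
    II (fun v => fderiv ℝ f v (J v)) = 0 := by
  have hfc : ContinuousOn f S3 := fun p hp => (hf p hp).continuousAt.continuousWithinAt
  have hdc : ContinuousOn (fun v => fderiv ℝ f v (J v)) S3 := by
    intro p hp
    have h1 : ContinuousAt (fderiv ℝ f) p :=
      ((hf p hp).fderiv_right (m := 0) (by norm_num)).continuousAt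
    exact (h1.clm_apply J.continuous.continuousAt).continuousWithinAt
  obtain ⟨C, hC⟩ := isCompact_S3.exists_bound_of_continuousOn hdc
  have hrc : ∀ t : ℝ, ContinuousOn (rot J t) S3 := fun t => (continuous_rot t).continuousOn
  have key := hasDerivAt_integral_of_dominated_loc_of_deriv_le
    (μ := volume.restrict KK) (F := fun (t : ℝ) v => f (rot J t (hat v)))
    (F' := fun (t : ℝ) v => fderiv ℝ f (rot J t (hat v)) (J (rot J t (hat v))))
    (x₀ := (0 : ℝ)) (s := Set.univ) (bound := fun _ => C) Filter.univ_mem ?_ ?_ ?_ ?_ ?_ ?_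
  · have h1 := key.2
    have h2 : (fun t : ℝ => ∫ v in KK, f (rot J t (hat v))) = fun _ => II f := by
      funext t
      exact II_rot hJ t f
    rw [h2] at h1
    have h3 := h1.unique (hasDerivAt_const (0 : ℝ) (II f))
    rw [← h3]
    simp only [rot_zero, II]
  · refine Filter.Eventually.of_forall fun t => ?_
    exact ((hfc.comp (hrc t) fun v hv => rot_mem hJ t hv).comp continuousOn_hat
      fun _ hv => hat_mem hv).aestronglyMeasurable measurableSet_KK
  · simp only [rot_zero]
    exact integrableOn_II hfc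
  · simp only [rot_zero]
    exact (hdc.comp continuousOn_hat fun _ hv => hat_mem hv).aestronglyMeasurable measurableSet_KK
  · refine (ae_restrict_iff' measurableSet_KK).2 (Filter.Eventually.of_forall fun v hv t _ => ?_)
    exact hC _ (rot_mem hJ t (hat_mem hv))
  · exact integrableOn_const volume_KK_lt
  · refine (ae_restrict_iff' measurableSet_KK).2 (Filter.Eventually.of_forall fun v hv t _ => ?_)
    have h1 := ((hf _ (rot_mem hJ t (hat_mem hv))).differentiableAt (by norm_num)).hasFDerivAt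
    exact h1.comp_hasDerivAt t (hasDerivAt_rot hJ t (hat v))

theorem II_normSq_ne : II (fun v => (Complex.normSq v.2 : ℂ)) ≠ 0 := by
  have h1 : II (fun v => (Complex.normSq v.2 : ℂ)) =
      ((∫ v in KK, Complex.normSq (hat v).2 : ℝ) : ℂ) := by
    unfold II
    exact integral_ofReal
  rw [h1, Complex.ofReal_ne_zero]
  have hc : ContinuousOn (fun v => Complex.normSq (hat v).2) KK :=
    (Complex.continuous_normSq.comp continuous_snd).comp_continuousOn continuousOn_hat
  have h2 : 0 < ∫ v in KK, Complex.normSq (hat v).2 := by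
    rw [integral_pos_iff_support_of_nonneg (fun v => Complex.normSq_nonneg _)
      (hc.integrableOn_compact isCompact_KK)]
    have h3 : {v : ℂ × ℂ | 1 / 4 < qf v ∧ qf v < 1 ∧ v.2 ≠ 0} ⊆
        Function.support (fun v => Complex.normSq (hat v).2) ∩ KK := by
      rintro v ⟨ha, hb, hc⟩
      refine ⟨?_, ha.le, hb.le⟩
      have h : 0 < qf v := lt_of_lt_of_le (by norm_num) ha.le
      rw [Function.mem_support, Ne, Complex.normSq_eq_zero, hat, Prod.smul_snd, smul_eq_zero]
      rintro (h4 | h4)
      · exact (inv_ne_zero (Real.sqrt_pos.2 h).ne') h4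
      · exact hc h4
    have h4 : IsOpen {v : ℂ × ℂ | 1 / 4 < qf v ∧ qf v < 1 ∧ v.2 ≠ 0} :=
      (isOpen_lt continuous_const continuous_qf).inter
        ((isOpen_lt continuous_qf continuous_const).inter
          (isOpen_ne_fun continuous_snd continuous_const))
    have h5 : (0 : ENNReal) < volume {v : ℂ × ℂ | 1 / 4 < qf v ∧ qf v < 1 ∧ v.2 ≠ 0} := by
      refine h4.measure_pos _ ⟨(0, ((3 / 4 : ℝ) : ℂ)), ?_⟩
      simp [qf, Complex.normSq_apply]
      norm_num
    rw [Measure.restrict_apply' measurableSet_KK]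
    exact h5.trans_le (measure_mono h3)
  exact h2.ne'

end Pool.Agent.W554.CR
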