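import Pool.Agent.W554.CR.Ambient

set_option autoImplicit false

open scoped ContDiff Topology ComplexConjugate
open MeasureTheory

noncomputable section

namespace Pool.Agent.W554.CR

/-- The manifold `M = F(S³)`. -/
def MM : Set (Fin 4 → ℂ) := FF '' S3

/-- Hermitian inner product. -/
def ip (v p : ℂ × ℂ) : ℂ := v.1 * conj p.1 + v.2 * conj p.2

def kap (p : ℂ × ℂ) (x : Fin 4 → ℂ) : ℂ :=
  conj p.1 ^ 3 * m0E x + 3 * conj p.1 ^ 2 * conj p.2 * m1E x +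
    3 * conj p.1 * conj p.2 ^ 2 * m2E x + conj p.2 ^ 3 * m3E x

theorem contDiff_kap (p : ℂ × ℂ) : ContDiff ℝ ∞ (kap p) :=
  (((contDiff_const.mul contDiff_m0E).add (contDiff_const.mul contDiff_m1E)).add
    (contDiff_const.mul contDiff_m2E)).add (contDiff_const.mul contDiff_m3E)

theorem kap_FF {v : ℂ × ℂ} (hv : v ∈ S3) (p : ℂ × ℂ) : kap p (FF v) = ip v p ^ 3 := by
  rw [kap, m0E_FF hv, m1E_FF hv, m2E_FF hv, m3E_FF hv, ip]
  ring

def AA (p : ℂ × ℂ) (x : Fin 4 → ℂ) : ℂ := Complex.exp (Complex.log (kap p x) / 3)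

theorem AA_ne (p : ℂ × ℂ) (x : Fin 4 → ℂ) : AA p x ≠ 0 := Complex.exp_ne_zero _

/-- The open sector `|arg| < π / 3`. -/
def SEC : Set ℂ := Complex.slitPlane ∩ Complex.arg ⁻¹' Set.Ioo (-(Real.pi / 3)) (Real.pi / 3)

theorem isOpen_SEC : IsOpen SEC := by
  have h : ContinuousOn Complex.arg Complex.slitPlane := fun x hx =>
    (Complex.continuousAt_arg hx).continuousWithinAt
  exact h.isOpen_inter_preimage Complex.isOpen_slitPlane isOpen_Ioo

theorem root_of_SEC {c : ℂ} (hc : c ∈ SEC) : Complex.exp (Complex.log (c ^ 3) / 3) = c := by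
  have h0 : c ≠ 0 := Complex.slitPlane_ne_zero hc.1
  have h1 := Complex.pow_cpow_nat_inv (x := c) (n := 3) (by norm_num)
    (by have := hc.2.1; norm_num; linarith) (by have := hc.2.2; norm_num; linarith)
  rw [Complex.cpow_def_of_ne_zero (pow_ne_zero 3 h0)] at h1
  rw [← h1]
  congr 1
  rw [h1]
  push_cast
  ring

theorem AA_FF {v p : ℂ × ℂ} (hv : v ∈ S3) (h : ip v p ∈ SEC) : AA p (FF v) = ip v p := by
  rw [AA, kap_FF hv]
  exact root_of_SEC h

theorem AA_mem {p : ℂ × ℂ} {x : Fin 4 → ℂ} (h : kap p x ∈ Complex.slitPlane) : AA p x ∈ SEC := by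
  have hpi := Real.pi_pos
  have h1 : (Complex.log (kap p x) / 3).im = Complex.arg (kap p x) / 3 := by
    rw [show (3 : ℂ) = ((3 : ℝ) : ℂ) by norm_num, Complex.div_ofReal_im, Complex.log_im]
  have h2 := Complex.neg_pi_lt_arg (kap p x)
  have h3 : Complex.arg (kap p x) < Real.pi :=
    lt_of_le_of_ne (Complex.arg_le_pi _) (Complex.mem_slitPlane_iff_arg.1 h).1
  have h4 : Complex.arg (AA p x) = Complex.arg (kap p x) / 3 := by
    have h5 : Complex.log (AA p x) = Complex.log (kap p x) / 3 := by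
      rw [AA, Complex.log_exp]
      · rw [h1]; linarith
      · rw [h1]; linarith
    rw [← Complex.log_im, h5, h1]
  refine ⟨Complex.mem_slitPlane_iff_arg.2 ⟨?_, AA_ne p x⟩, ?_⟩
  · rw [h4]; intro h6; linarith
  · rw [Set.mem_preimage, h4]
    constructor <;> linarith

theorem AA_cube {p : ℂ × ℂ} {x : Fin 4 → ℂ} (h : kap p x ≠ 0) : AA p x ^ 3 = kap p x := by
  rw [AA, ← Complex.exp_nat_mul]
  rw [show ((3 : ℕ) : ℂ) * (Complex.log (kap p x) / 3) = Complex.log (kap p x) by push_cast; ring]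
  exact Complex.exp_log h

/-- The left inverse of `F` near `F p`. -/
def gg (p : ℂ × ℂ) (x : Fin 4 → ℂ) : ℂ × ℂ :=
  ((sE x * p.1 + pE x * p.2) * (conj (AA p x))⁻¹,
    (conj (pE x) * p.1 + rE x * p.2) * (conj (AA p x))⁻¹)

def U0 (p : ℂ × ℂ) : Set (Fin 4 → ℂ) := kap p ⁻¹' Complex.slitPlane

theorem isOpen_U0 (p : ℂ × ℂ) : IsOpen (U0 p) :=
  Complex.isOpen_slitPlane.preimage (contDiff_kap p).continuous

theorem contDiffOn_AA (p : ℂ × ℂ) : ContDiffOn ℝ ∞ (AA p) (U0 p) := by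
  intro x hx
  have h1 : ContDiffAt ℝ ∞ Complex.log (kap p x) := (Complex.contDiffAt_log hx).restrict_scalars ℝ
  have h2 : ContDiffAt ℝ ∞ (fun y => Complex.log (kap p y)) x :=
    h1.comp x (contDiff_kap p).contDiffAt
  have h3 : ContDiff ℝ ∞ (fun z : ℂ => Complex.exp (z / 3)) := by
    have h4 : ContDiff ℂ ∞ (fun z : ℂ => Complex.exp (z / 3)) :=
      Complex.contDiff_exp.comp (contDiff_id.div_const 3)
    exact h4.restrict_scalars ℝ
  exact (h3.contDiffAt.comp x h2).contDiffWithinAt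

theorem contDiffOn_gg (p : ℂ × ℂ) : ContDiffOn ℝ ∞ (gg p) (U0 p) := by
  have h1 : ContDiffOn ℝ ∞ (fun x => (conj (AA p x))⁻¹) (U0 p) := by
    refine ContDiffOn.inv (Complex.conjCLE.contDiff.comp_contDiffOn (contDiffOn_AA p)) ?_
    intro x _ h
    exact AA_ne p x ((map_eq_zero _).1 h)
  refine ContDiffOn.prodMk ?_ ?_
  · exact (((contDiff_sE.mul contDiff_const).add
      (contDiff_pE.mul contDiff_const)).contDiffOn).mul h1
  · exact ((((ContDiff.conj' contDiff_pE).mul contDiff_const).add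
      (contDiff_rE.mul contDiff_const)).contDiffOn).mul h1

theorem gg_FF {v p : ℂ × ℂ} (hv : v ∈ S3) (h : AA p (FF v) = ip v p) : gg p (FF v) = v := by
  have h0 : conj (ip v p) ≠ 0 := by
    rw [← h]
    intro h1
    exact AA_ne p _ ((map_eq_zero _).1 h1)
  have h2 : conj (ip v p) = conj v.1 * p.1 + conj v.2 * p.2 := by simp [ip]
  rw [gg, sE_FF hv, pE_FF hv, rE_FF hv, h]
  ext
  · simp only
    rw [mul_inv_eq_iff_eq_mul₀ h0, h2]; ring
  · simp only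
    rw [mul_inv_eq_iff_eq_mul₀ h0, h2, map_mul, Complex.conj_conj]; ring

/-- `F` is invariant under the third roots of unity. -/
theorem FF_root {ζ : ℂ} (h : ζ ^ 3 = 1) (v : ℂ × ℂ) : FF (ζ * v.1, ζ * v.2) = FF v := by
  have h0 : ζ ≠ 0 := by rintro rfl; norm_num at h
  have h1 : conj ζ = ζ ^ 2 := by
    have h2 : ‖ζ‖ ^ 3 = 1 := by rw [← norm_pow, h, norm_one]
    have h3 : ‖ζ‖ = 1 := by
      have := (pow_eq_one_iff_of_nonneg (norm_nonneg ζ) (by norm_num : (3 : ℕ) ≠ 0)).1 h2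
      exact this
    have h4 : ζ * conj ζ = 1 := by
      rw [Complex.mul_conj, Complex.normSq_eq_norm_sq, h3]; norm_num
    have h5 : ζ * conj ζ = ζ * ζ ^ 2 := by rw [h4, ← h]; ring
    exact mul_left_cancel₀ h0 h5
  funext i
  fin_cases i
  · simp [FF, h1]
    linear_combination (v.1 ^ 3 - 3 * v.1 ^ 2 * conj v.2 ^ 2 * (ζ ^ 3 + 1)) * h
  · simp [FF, h1]
    linear_combination (v.1 ^ 2 * v.2 - 3 * v.1 * v.2 * conj v.2 ^ 2 * (ζ ^ 3 + 1)) * h
  · simp [FF, h1]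
    linear_combination (v.1 * v.2 ^ 2 - 3 * v.2 ^ 2 * conj v.2 ^ 2 * (ζ ^ 3 + 1)) * h
  · simp [FF, h1]
    linear_combination (v.2 ^ 3 + 3 * v.2 * conj v.1 * (1 + v.2 * conj v.2 * (ζ ^ 3 + 1))) * h

theorem exists_lift {p : ℂ × ℂ} {x : Fin 4 → ℂ} (hx : x ∈ MM) (hU : x ∈ U0 p) :
    ∃ v ∈ S3, FF v = x ∧ ip v p = AA p x := by
  obtain ⟨v, hv, rfl⟩ := hx
  have h0 : kap p (FF v) ≠ 0 := Complex.slitPlane_ne_zero hU
  have h1 := AA_cube h0
  have h2 : ip v p ≠ 0 := by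
    intro h; rw [kap_FF hv, h] at h0; norm_num at h0
  have h3 : (AA p (FF v) / ip v p) ^ 3 = 1 := by
    rw [div_pow, h1, kap_FF hv, div_self (pow_ne_zero 3 h2)]
  set ζ := AA p (FF v) / ip v p with hζ
  refine ⟨(ζ * v.1, ζ * v.2), ?_, FF_root h3 v, ?_⟩
  · have h4 : ‖ζ‖ ^ 3 = 1 := by rw [← norm_pow, h3, norm_one]
    have h5 : ‖ζ‖ = 1 := (pow_eq_one_iff_of_nonneg (norm_nonneg ζ) (by norm_num : (3 : ℕ) ≠ 0)).1 h4
    have h6 : Complex.normSq ζ = 1 := by rw [Complex.normSq_eq_norm_sq, h5]; norm_num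
    have h7 : Complex.normSq v.1 + Complex.normSq v.2 = 1 := hv
    rw [S3, Set.mem_ofPred_eq, qf]
    simp only [map_mul, h6, one_mul]
    exact h7
  · have : ip (ζ * v.1, ζ * v.2) p = ζ * ip v p := by simp only [ip]; ring
    rw [this, hζ, div_mul_cancel₀ _ h2]

theorem gg_mem {p : ℂ × ℂ} {x : Fin 4 → ℂ} (hx : x ∈ MM) (hU : x ∈ U0 p) :
    gg p x ∈ S3 ∧ FF (gg p x) = x ∧ ip (gg p x) p ∈ SEC := by
  obtain ⟨v, hv, rfl, h⟩ := exists_lift hx hU
  rw [gg_FF hv h.symm]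
  refine ⟨hv, rfl, ?_⟩
  rw [h]
  exact AA_mem hU

theorem ip_self {p : ℂ × ℂ} (hp : p ∈ S3) : ip p p = 1 := S3_eq hp

theorem one_mem_SEC : (1 : ℂ) ∈ SEC := by
  refine ⟨Complex.one_mem_slitPlane, ?_⟩
  rw [Set.mem_preimage, Complex.arg_one]
  have := Real.pi_pos
  constructor <;> linarith

theorem FF_mem_U0 {p : ℂ × ℂ} (hp : p ∈ S3) : FF p ∈ U0 p := by
  rw [U0, Set.mem_preimage, kap_FF hp, ip_self hp, one_pow]
  exact Complex.one_mem_slitPlane

theorem gg_self {p : ℂ × ℂ} (hp : p ∈ S3) : gg p (FF p) = p := by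
  refine gg_FF hp (AA_FF hp ?_)
  rw [ip_self hp]
  exact one_mem_SEC

end Pool.Agent.W554.CR
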