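import Pool.Agent.W554.CR.NoPE

set_option autoImplicit false

open scoped ContDiff Topology ComplexConjugate
open MeasureTheory

noncomputable section

namespace Pool.Agent.W554.CR

variable {θ : (Fin 4 → ℂ) → (Fin 4 → ℂ) →L[ℝ] ℝ} {U : Set (Fin 4 → ℂ)} {ε : ℝ}
  {η om : (Fin 4 → ℂ) → (Fin 4 → ℂ) →L[ℝ] ℂ} {A : (Fin 4 → ℂ) → ℂ} {R : (Fin 4 → ℂ) → ℝ}
  {q : ℂ × ℂ}

theorem contact_contDiffAt (hθ : IsContactForm MM θ) (hq : q ∈ S3) :
    ContDiffAt ℝ ∞ θ (FF q) := by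
  obtain ⟨U, hU, hM, hs⟩ := hθ.smooth
  exact hs.contDiffAt (hU.mem_nhds (hM ⟨q, hq, rfl⟩))

theorem VV_mem_Hol (hq : q ∈ S3) : VV q ∈ Hol MM (FF q) := (mem_Hol_iff hq).2 ⟨1, by simp⟩

theorem IVV_mem_Hol (hq : q ∈ S3) : Complex.I • VV q ∈ Hol MM (FF q) :=
  (mem_Hol_iff hq).2 ⟨Complex.I, rfl⟩

/-- The coefficient of the contact form along `J0`. -/
def fc (θ : (Fin 4 → ℂ) → (Fin 4 → ℂ) →L[ℝ] ℝ) (q : ℂ × ℂ) : ℝ := pull FF θ q (J0 q)
def gc (η : (Fin 4 → ℂ) → (Fin 4 → ℂ) →L[ℝ] ℂ) (q : ℂ × ℂ) : ℂ := pull FF η q (E1 q)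
def kc (η : (Fin 4 → ℂ) → (Fin 4 → ℂ) →L[ℝ] ℂ) (q : ℂ × ℂ) : ℂ := pull FF η q (J0 q)

theorem th_E1 (hθ : IsContactForm MM θ) (hq : q ∈ S3) : pull FF θ q (E1 q) = 0 := by
  rw [pull_apply, fderiv_FF, DF_E1 hq]
  exact (hθ.ker _ ⟨q, hq, rfl⟩ _ (VV_mem_Hol hq).1).2 (VV_mem_Hol hq)

theorem th_E2 (hθ : IsContactForm MM θ) (hq : q ∈ S3) : pull FF θ q (E2 q) = 0 := by
  rw [pull_apply, fderiv_FF, DF_E2 hq]
  exact (hθ.ker _ ⟨q, hq, rfl⟩ _ (IVV_mem_Hol hq).1).2 (IVV_mem_Hol hq)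

theorem fc_ne (hθ : IsContactForm MM θ) (hq : q ∈ S3) : fc θ q ≠ 0 := by
  intro h
  rw [fc, pull_apply] at h
  have h1 := (hθ.ker _ ⟨q, hq, rfl⟩ _ (Tg_J0 hq)).1 h
  rw [fderiv_FF] at h1
  obtain ⟨a, ha⟩ := (mem_Hol_iff hq).1 h1
  have h2 : (1 : ℂ) • TT q + (0 : ℂ) • VV q = (0 : ℂ) • TT q + a • VV q := by
    rw [one_smul, zero_smul, zero_smul, add_zero, zero_add]
    exact ha
  exact one_ne_zero (comb_unique hq h2).1

theorem fc_contDiffAt (hθ : IsContactForm MM θ) (hq : q ∈ S3) : ContDiffAt ℝ ∞ (fc θ) q :=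
  eval_contDiffAt (pull_contDiffAt (contact_contDiffAt hθ hq)) J0.contDiff

theorem eta_contDiffAt (hW : IsWebsterData MM θ U ε η om A R) (hqU : FF q ∈ U) :
    ContDiffAt ℝ ∞ η (FF q) := hW.smooth_eta.contDiffAt (hW.isOpen.mem_nhds hqU)

theorem om_contDiffAt (hW : IsWebsterData MM θ U ε η om A R) (hqU : FF q ∈ U) :
    ContDiffAt ℝ ∞ om (FF q) := hW.smooth_omega.contDiffAt (hW.isOpen.mem_nhds hqU)

theorem R_contDiffAt (hW : IsWebsterData MM θ U ε η om A R) (hqU : FF q ∈ U) :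
    ContDiffAt ℝ ∞ R (FF q) := hW.smooth_R.contDiffAt (hW.isOpen.mem_nhds hqU)

theorem gc_contDiffAt (hW : IsWebsterData MM θ U ε η om A R) (hqU : FF q ∈ U) :
    ContDiffAt ℝ ∞ (gc η) q :=
  eval_contDiffAt (pull_contDiffAt (eta_contDiffAt hW hqU)) contDiff_E1

theorem e_E2 (hW : IsWebsterData MM θ U ε η om A R) (hq : q ∈ S3) (hqU : FF q ∈ U) :
    pull FF η q (E2 q) = Complex.I * gc η q := by
  rw [gc, pull_apply, pull_apply, fderiv_FF, fderiv_FF, DF_E2 hq, DF_E1 hq]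
  exact hW.type10 _ ⟨⟨q, hq, rfl⟩, hqU⟩ _ (VV_mem_Hol hq)

theorem nhds_U (hW : IsWebsterData MM θ U ε η om A R) (hqU : FF q ∈ U) :
    ∀ᶠ q' in 𝓝 q, FF q' ∈ U :=
  contDiff_FF.continuous.continuousAt.eventually (hW.isOpen.mem_nhds hqU)

theorem id_one (hθ : IsContactForm MM θ) (hW : IsWebsterData MM θ U ε η om A R) (hq : q ∈ S3)
    (hqU : FF q ∈ U) :
    (1 + 24 * (Complex.normSq q.2 : ℂ)) * (fc θ q : ℂ) = ε * (gc η q * conj (gc η q)) := by
  have hth : DifferentiableAt ℝ θ (FF q) := (contact_contDiffAt hθ hq).differentiableAt (by norm_num)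
  have hpd : DifferentiableAt ℝ (pull FF θ) q := pull_differentiableAt hth (FF2 q)
  have hE1 : DifferentiableAt ℝ E1 q := contDiff_E1.differentiable (by norm_num) q
  have hE2 : DifferentiableAt ℝ E2 q := contDiff_E2.differentiable (by norm_num) q
  have h1 := hW.dtheta _ ⟨⟨q, hq, rfl⟩, hqU⟩ _ (Tg_E1 hq) _ (Tg_E2 hq)
  rw [← pull_d1 hth (FF2 q), d1_bracket hpd hE1 hE2, bracket_12, ← pull_apply, ← pull_apply,
    e_E2 hW hq hqU] at h1
  have a1 : fderiv ℝ (fun q => pull FF θ q (E2 q)) q (E1 q) = 0 := by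
    have := (sphere_congr hq (f := fun q => pull FF θ q (E2 q)) (g := fun _ => (0 : ℝ))
      (hpd.clm_apply hE2) (differentiableAt_const _)
      (Filter.Eventually.of_forall fun q hq => th_E2 hθ hq)).2.1
    rw [this]; simp
  have a2 : fderiv ℝ (fun q => pull FF θ q (E1 q)) q (E2 q) = 0 := by
    have := (sphere_congr hq (f := fun q => pull FF θ q (E1 q)) (g := fun _ => (0 : ℝ))
      (hpd.clm_apply hE1) (differentiableAt_const _)
      (Filter.Eventually.of_forall fun q hq => th_E1 hθ hq)).2.2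
    rw [this]; simp
  rw [a1, a2, map_add, map_add, map_smul, map_smul, map_smul, th_E1 hθ hq, th_E2 hθ hq] at h1
  change _ = Complex.I * ε * (gc η q * conj (Complex.I * gc η q) -
    Complex.I * gc η q * conj (gc η q)) at h1
  change ((0 - 0 - (-(2 + 48 * Complex.normSq q.2) • fc θ q + _ + _) : ℝ) : ℂ) = _ at h1
  simp only [smul_eq_mul, mul_zero, add_zero, map_mul, Complex.conj_I] at h1
  push_cast at h1
  have hI := Complex.I_mul_I
  linear_combination (1 / 2) * h1 - (ε * (gc η q * conj (gc η q))) * hI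

theorem id_two (hθ : IsContactForm MM θ) (hW : IsWebsterData MM θ U ε η om A R) (hq : q ∈ S3)
    (hqU : FF q ∈ U) :
    ((fderiv ℝ (fc θ) q (E1 q) : ℝ) : ℂ) + Complex.I * ((fderiv ℝ (fc θ) q (E2 q) : ℝ) : ℂ) =
      -12 * conj q.2 * (fc θ q : ℂ) - 2 * Complex.I * ε * kc η q * conj (gc η q) := by
  have hth : DifferentiableAt ℝ θ (FF q) := (contact_contDiffAt hθ hq).differentiableAt (by norm_num)
  have hpd : DifferentiableAt ℝ (pull FF θ) q := pull_differentiableAt hth (FF2 q)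
  have hE1 : DifferentiableAt ℝ E1 q := contDiff_E1.differentiable (by norm_num) q
  have hE2 : DifferentiableAt ℝ E2 q := contDiff_E2.differentiable (by norm_num) q
  have h1 := hW.dtheta _ ⟨⟨q, hq, rfl⟩, hqU⟩ _ (Tg_J0 hq) _ (Tg_E1 hq)
  have h2 := hW.dtheta _ ⟨⟨q, hq, rfl⟩, hqU⟩ _ (Tg_J0 hq) _ (Tg_E2 hq)
  rw [← pull_d1 hth (FF2 q), d1_bracket hpd J0.differentiableAt hE1, bracket_01, ← pull_apply,
    ← pull_apply] at h1
  rw [← pull_d1 hth (FF2 q), d1_bracket hpd J0.differentiableAt hE2, bracket_02, ← pull_apply,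
    ← pull_apply, e_E2 hW hq hqU] at h2
  have a1 : fderiv ℝ (fun q => pull FF θ q (E2 q)) q (J0 q) = 0 := by
    have := (sphere_congr hq (f := fun q => pull FF θ q (E2 q)) (g := fun _ => (0 : ℝ))
      (hpd.clm_apply hE2) (differentiableAt_const _)
      (Filter.Eventually.of_forall fun q hq => th_E2 hθ hq)).1
    rw [this]; simp
  have a2 : fderiv ℝ (fun q => pull FF θ q (E1 q)) q (J0 q) = 0 := by
    have := (sphere_congr hq (f := fun q => pull FF θ q (E1 q)) (g := fun _ => (0 : ℝ))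
      (hpd.clm_apply hE1) (differentiableAt_const _)
      (Filter.Eventually.of_forall fun q hq => th_E1 hθ hq)).1
    rw [this]; simp
  rw [a2, map_add, map_smul, map_smul, th_E2 hθ hq] at h1
  rw [a1, map_add, map_smul, map_smul, th_E1 hθ hq] at h2
  change ((0 - fderiv ℝ (fc θ) q (E1 q) - ((12 * q.2.re) • fc θ q + _) : ℝ) : ℂ) =
    Complex.I * ε * (kc η q * conj (gc η q) - gc η q * conj (kc η q)) at h1
  change ((0 - fderiv ℝ (fc θ) q (E2 q) - ((-12 * q.2.im) • fc θ q + _) : ℝ) : ℂ) =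
    Complex.I * ε * (kc η q * conj (Complex.I * gc η q) -
      Complex.I * gc η q * conj (kc η q)) at h2
  simp only [smul_eq_mul, mul_zero, add_zero, map_mul, Complex.conj_I] at h1 h2
  push_cast at h1 h2
  have hI := Complex.I_mul_I
  have hre := two_re q.2
  have him := two_im q.2
  rw [hre] at h1
  rw [him] at h2
  linear_combination -h1 - Complex.I * h2 + (-6 * (q.2 - conj q.2) * (fc θ q : ℂ)) * hI +
    (Complex.I * ε * (kc η q * conj (gc η q) + gc η q * conj (kc η q))) * hI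

end Pool.Agent.W554.CR
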