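import Pool.Agent.W554.CR.Local

set_option autoImplicit false

open scoped ContDiff Topology ComplexConjugate
open MeasureTheory

noncomputable section

namespace Pool.Agent.W554.CR

variable {θ : (Fin 4 → ℂ) → (Fin 4 → ℂ) →L[ℝ] ℝ} {U : Set (Fin 4 → ℂ)} {ε : ℝ}
  {η om : (Fin 4 → ℂ) → (Fin 4 → ℂ) →L[ℝ] ℂ} {A : (Fin 4 → ℂ) → ℂ} {R : (Fin 4 → ℂ) → ℝ}
  {q : ℂ × ℂ}

theorem id_three (hθ : IsContactForm MM θ) (hW : IsWebsterData MM θ U ε η om A R) (hq : q ∈ S3)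
    (hqU : FF q ∈ U) :
    fderiv ℝ (gc η) q (E1 q) + Complex.I * fderiv ℝ (gc η) q (E2 q) =
      Complex.I * (2 + 48 * (Complex.normSq q.2 : ℂ)) * kc η q + 8 * conj q.2 * gc η q -
        gc η q * (pull FF om q (E1 q) + Complex.I * pull FF om q (E2 q)) := by
  have hη : DifferentiableAt ℝ η (FF q) := (eta_contDiffAt hW hqU).differentiableAt (by norm_num)
  have hpd : DifferentiableAt ℝ (pull FF η) q := pull_differentiableAt hη (FF2 q)
  have hE1 : DifferentiableAt ℝ E1 q := contDiff_E1.differentiable (by norm_num) q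
  have hE2 : DifferentiableAt ℝ E2 q := contDiff_E2.differentiable (by norm_num) q
  have hg : DifferentiableAt ℝ (gc η) q := (gc_contDiffAt hW hqU).differentiableAt (by norm_num)
  have h1 := hW.deta _ ⟨⟨q, hq, rfl⟩, hqU⟩ _ (Tg_E1 hq) _ (Tg_E2 hq)
  have t1 := th_E1 hθ hq
  have t2 := th_E2 hθ hq
  rw [pull_apply] at t1 t2
  rw [t1, t2, ← pull_d1 hη (FF2 q), d1_bracket hpd hE1 hE2, bracket_12,
    ← pull_apply FF η q (E1 q), ← pull_apply FF η q (E2 q), ← pull_apply FF om q (E1 q),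
    ← pull_apply FF om q (E2 q), e_E2 hW hq hqU] at h1
  have a1 : fderiv ℝ (fun q => pull FF η q (E2 q)) q (E1 q) =
      Complex.I * fderiv ℝ (gc η) q (E1 q) := by
    have := (sphere_congr hq (f := fun q => pull FF η q (E2 q)) (g := fun q => Complex.I * gc η q)
      (hpd.clm_apply hE2) (hg.const_mul _)
      ((nhds_U hW hqU).mono fun q' hq'U hq' => e_E2 hW hq' hq'U)).2.1
    rw [this]
    have h2 := (hg.hasFDerivAt.const_mul Complex.I).fderiv
    exact congrArg (fun L : (ℂ × ℂ) →L[ℝ] ℂ => L (E1 q)) h2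
  rw [a1, map_add, map_add, map_smul, map_smul, map_smul, e_E2 hW hq hqU] at h1
  change Complex.I * fderiv ℝ (gc η) q (E1 q) - fderiv ℝ (gc η) q (E2 q) -
    (-(2 + 48 * Complex.normSq q.2) • kc η q + (8 * q.2.im) • gc η q +
      (8 * q.2.re) • (Complex.I * gc η q)) = (gc η q * pull FF om q (E2 q) -
      Complex.I * gc η q * pull FF om q (E1 q)) + _ at h1
  simp only [Complex.real_smul, Complex.ofReal_zero, zero_mul, sub_zero, mul_zero, add_zero] at h1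
  push_cast at h1
  have hI := Complex.I_mul_I
  have hre := two_re q.2
  have him := two_im q.2
  rw [hre, him] at h1
  linear_combination (-Complex.I) * h1 + (fderiv ℝ (gc η) q (E1 q) +
    gc η q * pull FF om q (E1 q) - 4 * gc η q * (q.2 - conj q.2) * (-1) -
    4 * gc η q * (q.2 + conj q.2)) * hI

/-- `G = f g`. -/
def GC (θ : (Fin 4 → ℂ) → (Fin 4 → ℂ) →L[ℝ] ℝ) (η : (Fin 4 → ℂ) → (Fin 4 → ℂ) →L[ℝ] ℂ)
    (q : ℂ × ℂ) : ℂ := (fc θ q : ℂ) * gc η q

theorem fderiv_ofReal {f : ℂ × ℂ → ℝ} (hf : DifferentiableAt ℝ f q) (u : ℂ × ℂ) :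
    fderiv ℝ (fun q => (f q : ℂ)) q u = ((fderiv ℝ f q u : ℝ) : ℂ) := by
  have h := (Complex.ofRealCLM.hasFDerivAt.comp q hf.hasFDerivAt).fderiv
  exact congrArg (fun L : (ℂ × ℂ) →L[ℝ] ℂ => L u) h

theorem fderiv_conj' {f : ℂ × ℂ → ℂ} (hf : DifferentiableAt ℝ f q) (u : ℂ × ℂ) :
    fderiv ℝ (fun q => conj (f q)) q u = conj (fderiv ℝ f q u) := by
  have h := (Complex.conjCLE.hasFDerivAt.comp q hf.hasFDerivAt).fderiv
  exact congrArg (fun L : (ℂ × ℂ) →L[ℝ] ℂ => L u) h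

theorem ofReal_contDiffAt {f : ℂ × ℂ → ℝ} (hf : ContDiffAt ℝ ∞ f q) :
    ContDiffAt ℝ ∞ (fun q => (f q : ℂ)) q := Complex.ofRealCLM.contDiff.contDiffAt.comp q hf

theorem GC_contDiffAt (hθ : IsContactForm MM θ) (hW : IsWebsterData MM θ U ε η om A R)
    (hq : q ∈ S3) (hqU : FF q ∈ U) : ContDiffAt ℝ ∞ (GC θ η) q :=
  (ofReal_contDiffAt (fc_contDiffAt hθ hq)).mul (gc_contDiffAt hW hqU)

theorem eps_sq (hW : IsWebsterData MM θ U ε η om A R) : (ε : ℂ) * ε = 1 := by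
  rcases hW.eps with h | h <;> rw [h] <;> norm_num

theorem gc_ne (hθ : IsContactForm MM θ) (hW : IsWebsterData MM θ U ε η om A R)
    (hq : q ∈ S3) (hqU : FF q ∈ U) : gc η q ≠ 0 := by
  intro h
  have h1 := id_one hθ hW hq hqU
  rw [h, zero_mul, mul_zero] at h1
  have hf := fc_ne hθ hq
  have hne : (1 + 24 * (Complex.normSq q.2 : ℂ)) ≠ 0 := by
    have : (1 + 24 * (Complex.normSq q.2 : ℂ)) = ((1 + 24 * Complex.normSq q.2 : ℝ) : ℂ) := by
      push_cast; ring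
    rw [this, Complex.ofReal_ne_zero]
    have := Complex.normSq_nonneg q.2
    linarith
  rcases mul_eq_zero.1 h1 with h2 | h2
  · exact hne h2
  · exact hf (Complex.ofReal_eq_zero.1 h2)

theorem GC_ne (hθ : IsContactForm MM θ) (hW : IsWebsterData MM θ U ε η om A R)
    (hq : q ∈ S3) (hqU : FF q ∈ U) : GC θ η q ≠ 0 :=
  mul_ne_zero (Complex.ofReal_ne_zero.2 (fc_ne hθ hq)) (gc_ne hθ hW hq hqU)

theorem id_G (hθ : IsContactForm MM θ) (hW : IsWebsterData MM θ U ε η om A R) (hq : q ∈ S3)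
    (hqU : FF q ∈ U) :
    fderiv ℝ (GC θ η) q (E1 q) + Complex.I * fderiv ℝ (GC θ η) q (E2 q) =
      -4 * conj q.2 * GC θ η q -
        GC θ η q * (pull FF om q (E1 q) + Complex.I * pull FF om q (E2 q)) := by
  have h1 := id_one hθ hW hq hqU
  have h2 := id_two hθ hW hq hqU
  have h3 := id_three hθ hW hq hqU
  have hf : DifferentiableAt ℝ (fc θ) q := (fc_contDiffAt hθ hq).differentiableAt (by norm_num)
  have hf' : DifferentiableAt ℝ (fun q => (fc θ q : ℂ)) q :=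
    (ofReal_contDiffAt (fc_contDiffAt hθ hq)).differentiableAt (by norm_num)
  have hg : DifferentiableAt ℝ (gc η) q := (gc_contDiffAt hW hqU).differentiableAt (by norm_num)
  have e : ∀ u, fderiv ℝ (GC θ η) q u =
      ((fderiv ℝ (fc θ) q u : ℝ) : ℂ) * gc η q + (fc θ q : ℂ) * fderiv ℝ (gc η) q u := by
    intro u
    rw [← fderiv_ofReal hf]
    exact fderiv_prod_dir hf' hg u
  rw [e, e, GC]
  linear_combination (gc η q) * h2 + (fc θ q : ℂ) * h3 + (2 * Complex.I * kc η q) * h1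

/-- `P = f³ (1 + 24 |w|²)`. -/
def PC (θ : (Fin 4 → ℂ) → (Fin 4 → ℂ) →L[ℝ] ℝ) (q : ℂ × ℂ) : ℝ :=
  fc θ q ^ 3 * (1 + 24 * Complex.normSq q.2)

theorem PC_contDiffAt (hθ : IsContactForm MM θ) (hq : q ∈ S3) : ContDiffAt ℝ ∞ (PC θ) q := by
  have h : ContDiff ℝ ∞ (fun q : ℂ × ℂ => 1 + 24 * Complex.normSq q.2) := by
    have : (fun q : ℂ × ℂ => 1 + 24 * Complex.normSq q.2) =
        fun q : ℂ × ℂ => 1 + 24 * (q.2.re * q.2.re + q.2.im * q.2.im) := by
      funext q; rw [Complex.normSq_apply]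
    rw [this]
    have hre : ContDiff ℝ ∞ (fun q : ℂ × ℂ => q.2.re) := Complex.reCLM.contDiff.comp contDiff_snd
    have him : ContDiff ℝ ∞ (fun q : ℂ × ℂ => q.2.im) := Complex.imCLM.contDiff.comp contDiff_snd
    exact contDiff_const.add (contDiff_const.mul ((hre.mul hre).add (him.mul him)))
  exact ((fc_contDiffAt hθ hq).pow 3).mul h.contDiffAt

theorem PC_ne (hθ : IsContactForm MM θ) (hq : q ∈ S3) : PC θ q ≠ 0 := by
  refine mul_ne_zero (pow_ne_zero _ (fc_ne hθ hq)) ?_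
  have := Complex.normSq_nonneg q.2
  linarith

theorem id_mod (hθ : IsContactForm MM θ) (hW : IsWebsterData MM θ U ε η om A R) (hq : q ∈ S3)
    (hqU : FF q ∈ U) : GC θ η q * conj (GC θ η q) = ε * (PC θ q : ℂ) := by
  have h1 := id_one hθ hW hq hqU
  have h2 := eps_sq hW
  rw [GC, PC, map_mul, Complex.conj_ofReal]
  push_cast
  linear_combination (-(fc θ q : ℂ) ^ 2 * ε) * h1 -
    (fc θ q : ℂ) ^ 2 * (gc η q * conj (gc η q)) * h2

theorem id_mod_fderiv (hθ : IsContactForm MM θ) (hW : IsWebsterData MM θ U ε η om A R)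
    (hq : q ∈ S3) (hqU : FF q ∈ U) :
    (fderiv ℝ (GC θ η) q (E1 q) * conj (GC θ η q) + GC θ η q * conj (fderiv ℝ (GC θ η) q (E1 q)) =
      ε * ((fderiv ℝ (PC θ) q (E1 q) : ℝ) : ℂ)) ∧
    (fderiv ℝ (GC θ η) q (E2 q) * conj (GC θ η q) + GC θ η q * conj (fderiv ℝ (GC θ η) q (E2 q)) =
      ε * ((fderiv ℝ (PC θ) q (E2 q) : ℝ) : ℂ)) := by
  have hG : DifferentiableAt ℝ (GC θ η) q := (GC_contDiffAt hθ hW hq hqU).differentiableAt
    (by norm_num)
  have hGc : DifferentiableAt ℝ (fun q => conj (GC θ η q)) q :=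
    Complex.conjCLE.differentiableAt.comp q hG
  have hP : DifferentiableAt ℝ (PC θ) q := (PC_contDiffAt hθ hq).differentiableAt (by norm_num)
  have hP' : DifferentiableAt ℝ (fun q => (PC θ q : ℂ)) q :=
    (ofReal_contDiffAt (PC_contDiffAt hθ hq)).differentiableAt (by norm_num)
  have hs := sphere_congr hq (f := fun q => GC θ η q * conj (GC θ η q))
    (g := fun q => (ε : ℂ) * (PC θ q : ℂ)) (hG.mul hGc) (hP'.const_mul _)
    ((nhds_U hW hqU).mono fun q' hq'U hq' => id_mod hθ hW hq' hq'U)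
  have e1 : ∀ u, fderiv ℝ (fun q => GC θ η q * conj (GC θ η q)) q u =
      fderiv ℝ (GC θ η) q u * conj (GC θ η q) + GC θ η q * conj (fderiv ℝ (GC θ η) q u) := by
    intro u
    rw [fderiv_prod_dir hG hGc, fderiv_conj' hG]
  have e2 : ∀ u, fderiv ℝ (fun q => (ε : ℂ) * (PC θ q : ℂ)) q u =
      ε * ((fderiv ℝ (PC θ) q u : ℝ) : ℂ) := by
    intro u
    rw [← fderiv_ofReal hP]
    exact congrArg (fun L : (ℂ × ℂ) →L[ℝ] ℂ => L u) (hP'.hasFDerivAt.const_mul (ε : ℂ)).fderiv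
  obtain ⟨-, s1, s2⟩ := hs
  rw [e1, e2] at s1 s2
  exact ⟨s1, s2⟩

end Pool.Agent.W554.CR
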