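import Pool.Agent.W554.CR.Integral

set_option autoImplicit false

open scoped ContDiff Topology ComplexConjugate
open MeasureTheory

noncomputable section

namespace Pool.Agent.W554.CR

/-- The map `F : S³ → ℂ⁴`. -/
def FF (v : ℂ × ℂ) : Fin 4 → ℂ :=
  ![v.1 ^ 2 * (v.1 - 3 * conj v.2 ^ 2), v.1 * v.2 * (v.1 - 3 * conj v.2 ^ 2),
    v.2 ^ 2 * (v.1 - 3 * conj v.2 ^ 2),
    v.2 ^ 3 + 3 * v.2 * conj v.1 * (1 + v.2 * conj v.2)]

/-- Its derivative. -/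
def DF (v u : ℂ × ℂ) : Fin 4 → ℂ :=
  ![3 * v.1 ^ 2 * u.1 - 3 * (2 * v.1 * u.1 * conj v.2 ^ 2 + v.1 ^ 2 * 2 * conj v.2 * conj u.2),
    2 * v.1 * u.1 * v.2 + v.1 ^ 2 * u.2 - 3 * (u.1 * v.2 * conj v.2 ^ 2 +
      v.1 * u.2 * conj v.2 ^ 2 + v.1 * v.2 * 2 * conj v.2 * conj u.2),
    u.1 * v.2 ^ 2 + 2 * v.1 * v.2 * u.2 - 3 * (2 * v.2 * u.2 * conj v.2 ^ 2 +
      v.2 ^ 2 * 2 * conj v.2 * conj u.2),
    3 * v.2 ^ 2 * u.2 + 3 * u.2 * conj v.1 * (1 + v.2 * conj v.2) +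
      3 * v.2 * conj u.1 * (1 + v.2 * conj v.2) +
      3 * v.2 * conj v.1 * (u.2 * conj v.2 + v.2 * conj u.2)]

theorem contDiff_conj1 : ContDiff ℝ ∞ (fun v : ℂ × ℂ => conj v.1) :=
  Complex.conjCLE.contDiff.comp contDiff_fst

theorem contDiff_conj2 : ContDiff ℝ ∞ (fun v : ℂ × ℂ => conj v.2) :=
  Complex.conjCLE.contDiff.comp contDiff_snd

theorem contDiff_FF : ContDiff ℝ ∞ FF := by
  have h1 := contDiff_conj1
  have h2 := contDiff_conj2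
  have h3 : ContDiff ℝ ∞ (fun v : ℂ × ℂ => v.1) := contDiff_fst
  have h4 : ContDiff ℝ ∞ (fun v : ℂ × ℂ => v.2) := contDiff_snd
  rw [contDiff_pi]
  intro i
  fin_cases i
  · exact (h3.pow 2).mul (h3.sub (contDiff_const.mul (h2.pow 2)))
  · exact (h3.mul h4).mul (h3.sub (contDiff_const.mul (h2.pow 2)))
  · exact (h4.pow 2).mul (h3.sub (contDiff_const.mul (h2.pow 2)))
  · exact (h4.pow 3).add (((contDiff_const.mul h4).mul h1).mul (contDiff_const.add (h4.mul h2)))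

theorem fderiv_FF (v u : ℂ × ℂ) : fderiv ℝ FF v u = DF v u := by
  have hd : DifferentiableAt ℝ FF v := contDiff_FF.differentiable (by norm_num) v
  have hz : HasFDerivAt (fun v : ℂ × ℂ => v.1) (ContinuousLinearMap.fst ℝ ℂ ℂ) v := hasFDerivAt_fst
  have hw : HasFDerivAt (fun v : ℂ × ℂ => v.2) (ContinuousLinearMap.snd ℝ ℂ ℂ) v := hasFDerivAt_snd
  have hzc : HasFDerivAt (fun v : ℂ × ℂ => conj v.1)
      ((Complex.conjCLE : ℂ →L[ℝ] ℂ).comp (ContinuousLinearMap.fst ℝ ℂ ℂ)) v :=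
    Complex.conjCLE.hasFDerivAt.comp v hz
  have hwc : HasFDerivAt (fun v : ℂ × ℂ => conj v.2)
      ((Complex.conjCLE : ℂ →L[ℝ] ℂ).comp (ContinuousLinearMap.snd ℝ ℂ ℂ)) v :=
    Complex.conjCLE.hasFDerivAt.comp v hw
  funext i
  have hi : fderiv ℝ FF v u i = fderiv ℝ (fun q => FF q i) v u := by
    rw [fderiv_apply hd i]; rfl
  rw [hi]
  fin_cases i
  · have h := (hz.pow 2).mul (hz.sub ((hwc.pow 2).const_mul 3))
    refine (congrArg (fun L : (ℂ × ℂ) →L[ℝ] ℂ => L u) h.fderiv).trans ?_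
    simp [DF]
    ring
  · have h := (hz.mul hw).mul (hz.sub ((hwc.pow 2).const_mul 3))
    refine (congrArg (fun L : (ℂ × ℂ) →L[ℝ] ℂ => L u) h.fderiv).trans ?_
    simp [DF]
    ring
  · have h := (hw.pow 2).mul (hz.sub ((hwc.pow 2).const_mul 3))
    refine (congrArg (fun L : (ℂ × ℂ) →L[ℝ] ℂ => L u) h.fderiv).trans ?_
    simp [DF]
    ring
  · have h := (hw.pow 3).add (((hw.const_mul 3).mul hzc).mul ((hw.mul hwc).const_add 1))
    refine (congrArg (fun L : (ℂ × ℂ) →L[ℝ] ℂ => L u) h.fderiv).trans ?_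
    simp [DF]
    ring

end Pool.Agent.W554.CR
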