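import Pool.Agent.W554.CR.Contra

set_option autoImplicit false

open scoped ContDiff Topology ComplexConjugate
open MeasureTheory

noncomputable section

namespace Pool.Agent.W554.CR

section general
variable {G : Type*} [NormedAddCommGroup G] [NormedSpace ℝ G]

theorem FF2 (v : ℂ × ℂ) : ContDiffAt ℝ 2 FF v := (contDiff_infty.1 contDiff_FF 2).contDiffAt

theorem pull_contDiffAt {α : (Fin 4 → ℂ) → (Fin 4 → ℂ) →L[ℝ] G} {v : ℂ × ℂ}
    (hα : ContDiffAt ℝ ∞ α (FF v)) : ContDiffAt ℝ ∞ (pull FF α) v := by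
  have h1 : ContDiffAt ℝ ∞ (fderiv ℝ FF) v := contDiff_FF.contDiffAt.fderiv_right (by norm_num)
  exact (hα.comp v contDiff_FF.contDiffAt).clm_comp h1

theorem eval_contDiffAt {β : ℂ × ℂ → (ℂ × ℂ) →L[ℝ] G} {X : ℂ × ℂ → ℂ × ℂ} {v : ℂ × ℂ}
    (hβ : ContDiffAt ℝ ∞ β v) (hX : ContDiff ℝ ∞ X) : ContDiffAt ℝ ∞ (fun q => β q (X q)) v :=
  hβ.clm_apply hX.contDiffAt

theorem dir_contDiffAt {f : ℂ × ℂ → G} {X : ℂ × ℂ → ℂ × ℂ} {v : ℂ × ℂ}
    (hf : ContDiffAt ℝ ∞ f v) (hX : ContDiff ℝ ∞ X) :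
    ContDiffAt ℝ ∞ (fun q => fderiv ℝ f q (X q)) v :=
  (hf.fderiv_right (by norm_num)).clm_apply hX.contDiffAt

end general

/-- `u` is tangent to the sphere at `q`. -/
def Tg (q u : ℂ × ℂ) : Prop := fderiv ℝ FF q u ∈ Tan MM (FF q)

theorem Tg_comb {q : ℂ × ℂ} (hq : q ∈ S3) (b a1 a2 : ℝ) :
    Tg q (b • J0 q + a1 • E1 q + a2 • E2 q) := by
  rw [Tg, fderiv_FF]
  exact mem_Tan_of hq b a1 a2

theorem Tg_J0 {q : ℂ × ℂ} (hq : q ∈ S3) : Tg q (J0 q) := by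
  have := Tg_comb hq 1 0 0
  simpa using this

theorem Tg_E1 {q : ℂ × ℂ} (hq : q ∈ S3) : Tg q (E1 q) := by
  have := Tg_comb hq 0 1 0
  simpa using this

theorem Tg_E2 {q : ℂ × ℂ} (hq : q ∈ S3) : Tg q (E2 q) := by
  have := Tg_comb hq 0 0 1
  simpa using this

theorem Tg_J1 {q : ℂ × ℂ} (hq : q ∈ S3) : Tg q (J1 q) := by
  have h := Tg_comb hq (-(4 * q.2.im)) 1 0
  have e : -(4 * q.2.im) • J0 q + (1 : ℝ) • E1 q + (0 : ℝ) • E2 q = J1 q := by
    rw [E1]; module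
  rwa [e] at h

theorem Tg_J2 {q : ℂ × ℂ} (hq : q ∈ S3) : Tg q (J2 q) := by
  have h := Tg_comb hq (-(4 * q.2.re)) 0 1
  have e : -(4 * q.2.re) • J0 q + (0 : ℝ) • E1 q + (1 : ℝ) • E2 q = J2 q := by
    rw [E2]; module
  rwa [e] at h

/-- From a local closed form to the equations at a point. -/
theorem local_to_eq {n0 n1 n2 : ℂ × ℂ → ℂ} (h0 : ∀ p ∈ S3, ContDiffAt ℝ ∞ n0 p)
    (h1 : ∀ p ∈ S3, ContDiffAt ℝ ∞ n1 p) (h2 : ∀ p ∈ S3, ContDiffAt ℝ ∞ n2 p)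
    (hdef : ∀ q ∈ S3, (2 + 48 * (Complex.normSq q.2 : ℂ)) * n0 q = 8 * (q.2.im : ℂ) * n1 q +
      8 * (q.2.re : ℂ) * n2 q - fderiv ℝ n2 q (E1 q) + fderiv ℝ n1 q (E2 q))
    {p : ℂ × ℂ} (hp : p ∈ S3) {ν : ℂ × ℂ → (ℂ × ℂ) →L[ℝ] ℂ} {O : Set (ℂ × ℂ)} (hO : IsOpen O)
    (hpO : p ∈ O) (hν : ∀ q ∈ S3, q ∈ O → ContDiffAt ℝ ∞ ν q)
    (hcl : ∀ q ∈ S3, q ∈ O → ∀ u u', Tg q u → Tg q u' → d1 ν q u u' = 0)
    (he1 : ∀ q ∈ S3, q ∈ O → ν q (E1 q) = n1 q) (he2 : ∀ q ∈ S3, q ∈ O → ν q (E2 q) = n2 q) :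
    let a1 := fun q : ℂ × ℂ => n1 q - 4 * (q.2.im : ℂ) * n0 q
    let a2 := fun q : ℂ × ℂ => n2 q - 4 * (q.2.re : ℂ) * n0 q
    fderiv ℝ a2 p (J1 p) - fderiv ℝ a1 p (J2 p) + 2 * n0 p = 0 ∧
    fderiv ℝ a1 p (J0 p) - fderiv ℝ n0 p (J1 p) + 2 * a2 p = 0 ∧
    fderiv ℝ a2 p (J0 p) - fderiv ℝ n0 p (J2 p) - 2 * a1 p = 0 := by
  intro a1 a2
  have dd : ∀ {f : ℂ × ℂ → ℂ} {q : ℂ × ℂ}, ContDiffAt ℝ ∞ f q → DifferentiableAt ℝ f q :=
    fun h => h.differentiableAt (by norm_num)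
  have hνd : ∀ q ∈ S3, q ∈ O → DifferentiableAt ℝ ν q := fun q hq hqO =>
    (hν q hq hqO).differentiableAt (by norm_num)
  -- the component along `J0`
  have he0 : ∀ q ∈ S3, q ∈ O → ν q (J0 q) = n0 q := by
    intro q hq hqO
    have hev : ∀ᶠ q' in 𝓝 q, q' ∈ O := hO.mem_nhds hqO
    have hb := d1_bracket (hνd q hq hqO) (contDiff_E1.differentiable (by norm_num) q)
      (contDiff_E2.differentiable (by norm_num) q)
    rw [hcl q hq hqO _ _ (Tg_E1 hq) (Tg_E2 hq), bracket_12] at hb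
    have g1 := (sphere_congr hq (f := fun q => ν q (E2 q)) (g := n2)
      (dd (eval_contDiffAt (hν q hq hqO) contDiff_E2)) (dd (h2 q hq))
      (hev.mono fun q' hq'O hq' => he2 q' hq' hq'O)).2.1
    have g2 := (sphere_congr hq (f := fun q => ν q (E1 q)) (g := n1)
      (dd (eval_contDiffAt (hν q hq hqO) contDiff_E1)) (dd (h1 q hq))
      (hev.mono fun q' hq'O hq' => he1 q' hq' hq'O)).2.2
    rw [g1, g2, map_add, map_add, map_smul, map_smul, map_smul, he1 q hq hqO,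
      he2 q hq hqO] at hb
    have hd := hdef q hq
    have hne : (2 + 48 * (Complex.normSq q.2 : ℂ)) ≠ 0 := by
      have : (2 + 48 * (Complex.normSq q.2 : ℂ)) = ((2 + 48 * Complex.normSq q.2 : ℝ) : ℂ) := by
        push_cast; ring
      rw [this, Complex.ofReal_ne_zero]
      have := Complex.normSq_nonneg q.2
      linarith
    apply mul_left_cancel₀ hne
    simp only [Complex.real_smul] at hb
    push_cast at hb
    linear_combination -hb - hd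
  have hev : ∀ᶠ q' in 𝓝 p, q' ∈ O := hO.mem_nhds hpO
  have j1 : ∀ q ∈ S3, q ∈ O → ν q (J1 q) = a1 q := by
    intro q hq hqO
    have e : J1 q = E1 q - (4 * q.2.im) • J0 q := by rw [E1]; module
    rw [e, map_sub, map_smul, he1 q hq hqO, he0 q hq hqO, Complex.real_smul]
    simp only [a1]
    push_cast
    ring
  have j2 : ∀ q ∈ S3, q ∈ O → ν q (J2 q) = a2 q := by
    intro q hq hqO
    have e : J2 q = E2 q - (4 * q.2.re) • J0 q := by rw [E2]; module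
    rw [e, map_sub, map_smul, he2 q hq hqO, he0 q hq hqO, Complex.real_smul]
    simp only [a2]
    push_cast
    ring
  have hre : ContDiff ℝ ∞ (fun q : ℂ × ℂ => (q.2.re : ℂ)) :=
    Complex.ofRealCLM.contDiff.comp (Complex.reCLM.contDiff.comp contDiff_snd)
  have him : ContDiff ℝ ∞ (fun q : ℂ × ℂ => (q.2.im : ℂ)) :=
    Complex.ofRealCLM.contDiff.comp (Complex.imCLM.contDiff.comp contDiff_snd)
  have ha1 : ContDiffAt ℝ ∞ a1 p := (h1 p hp).sub ((contDiffAt_const.mul him.contDiffAt).mul (h0 p hp))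
  have ha2 : ContDiffAt ℝ ∞ a2 p := (h2 p hp).sub ((contDiffAt_const.mul hre.contDiffAt).mul (h0 p hp))
  have hν1 : DifferentiableAt ℝ (fun q => ν q (J1 q)) p :=
    dd (eval_contDiffAt (hν p hp hpO) J1.contDiff)
  have hν2 : DifferentiableAt ℝ (fun q => ν q (J2 q)) p :=
    dd (eval_contDiffAt (hν p hp hpO) J2.contDiff)
  have hν0 : DifferentiableAt ℝ (fun q => ν q (J0 q)) p :=
    dd (eval_contDiffAt (hν p hp hpO) J0.contDiff)
  have ev1 : ∀ᶠ q in 𝓝 p, q ∈ S3 → ν q (J1 q) = a1 q := hev.mono fun q hqO hq => j1 q hq hqO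
  have ev2 : ∀ᶠ q in 𝓝 p, q ∈ S3 → ν q (J2 q) = a2 q := hev.mono fun q hqO hq => j2 q hq hqO
  have ev0 : ∀ᶠ q in 𝓝 p, q ∈ S3 → ν q (J0 q) = n0 q := hev.mono fun q hqO hq => he0 q hq hqO
  refine ⟨?_, ?_, ?_⟩
  · have hb := d1_bracket (hνd p hp hpO) (J1.differentiableAt (x := p))
      (J2.differentiableAt (x := p))
    rw [hcl p hp hpO _ _ (Tg_J1 hp) (Tg_J2 hp), J1.fderiv, J2.fderiv] at hb
    rw [fderiv_sphere isRot_J1 hp hν2 (dd ha2) ev2, fderiv_sphere isRot_J2 hp hν1 (dd ha1) ev1] at hb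
    have e : J2 (J1 p) - J1 (J2 p) = (-2 : ℝ) • J0 p := by
      ext1
      · simp [J0_apply, J1_apply, J2_apply]; ring
      · simp [J0_apply, J1_apply, J2_apply]; ring
    rw [e, map_smul, he0 p hp hpO, Complex.real_smul] at hb
    push_cast at hb
    linear_combination -hb
  · have hb := d1_bracket (hνd p hp hpO) (J0.differentiableAt (x := p))
      (J1.differentiableAt (x := p))
    rw [hcl p hp hpO _ _ (Tg_J0 hp) (Tg_J1 hp), J0.fderiv, J1.fderiv] at hb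
    rw [fderiv_sphere isRot_J0 hp hν1 (dd ha1) ev1, fderiv_sphere isRot_J1 hp hν0 (dd (h0 p hp)) ev0]
      at hb
    have e : J1 (J0 p) - J0 (J1 p) = (-2 : ℝ) • J2 p := by
      ext1
      · simp [J0_apply, J1_apply, J2_apply]; ring
      · simp [J0_apply, J1_apply, J2_apply]; ring
    rw [e, map_smul, j2 p hp hpO, Complex.real_smul] at hb
    push_cast at hb
    linear_combination -hb
  · have hb := d1_bracket (hνd p hp hpO) (J0.differentiableAt (x := p))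
      (J2.differentiableAt (x := p))
    rw [hcl p hp hpO _ _ (Tg_J0 hp) (Tg_J2 hp), J0.fderiv, J2.fderiv] at hb
    rw [fderiv_sphere isRot_J0 hp hν2 (dd ha2) ev2, fderiv_sphere isRot_J2 hp hν0 (dd (h0 p hp)) ev0]
      at hb
    have e : J2 (J0 p) - J0 (J2 p) = (2 : ℝ) • J1 p := by
      ext1
      · simp [J0_apply, J1_apply, J2_apply, ← mul_assoc]; ring
      · simp [J0_apply, J1_apply, J2_apply, ← mul_assoc]; ring
    rw [e, map_smul, j1 p hp hpO, Complex.real_smul] at hb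
    push_cast at hb
    linear_combination -hb

end Pool.Agent.W554.CR
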