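import Pool.Agent.W554.CR.Calc

set_option autoImplicit false

open scoped ContDiff Topology ComplexConjugate
open MeasureTheory

noncomputable section

namespace Pool.Agent.W554.CR

/-- The squared Euclidean norm on `ℂ²`. -/
def qf (v : ℂ × ℂ) : ℝ := Complex.normSq v.1 + Complex.normSq v.2

/-- The unit sphere of `ℂ²`. -/
def S3 : Set (ℂ × ℂ) := {v | qf v = 1}

def J0 : (ℂ × ℂ) →L[ℝ] (ℂ × ℂ) :=
  ((ContinuousLinearMap.mul ℝ ℂ Complex.I).comp (ContinuousLinearMap.fst ℝ ℂ ℂ)).prod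
    ((ContinuousLinearMap.mul ℝ ℂ Complex.I).comp (ContinuousLinearMap.snd ℝ ℂ ℂ))

def J1 : (ℂ × ℂ) →L[ℝ] (ℂ × ℂ) :=
  ((Complex.conjCLE : ℂ →L[ℝ] ℂ).comp (ContinuousLinearMap.snd ℝ ℂ ℂ)).prod
    (-((Complex.conjCLE : ℂ →L[ℝ] ℂ).comp (ContinuousLinearMap.fst ℝ ℂ ℂ)))

def J2 : (ℂ × ℂ) →L[ℝ] (ℂ × ℂ) := J0.comp J1

theorem J0_apply (v : ℂ × ℂ) : J0 v = (Complex.I * v.1, Complex.I * v.2) := rfl

theorem J1_apply (v : ℂ × ℂ) : J1 v = (conj v.2, -conj v.1) := rfl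

theorem J2_apply (v : ℂ × ℂ) : J2 v = (Complex.I * conj v.2, -(Complex.I * conj v.1)) := by
  simp [J2, J0_apply, J1_apply]

/-- `J` is an orthogonal complex structure of `ℂ² = ℝ⁴`. -/
structure IsRot (J : (ℂ × ℂ) →L[ℝ] (ℂ × ℂ)) : Prop where
  q : ∀ (a b : ℝ) (v : ℂ × ℂ), qf (a • v + b • J v) = (a ^ 2 + b ^ 2) * qf v
  sq : ∀ v, J (J v) = -v

theorem isRot_J0 : IsRot J0 := by
  constructor
  · intro a b v
    simp [qf, J0_apply, Complex.normSq_apply]
    ring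
  · intro v
    simp [J0_apply, Prod.ext_iff, ← mul_assoc]

theorem isRot_J1 : IsRot J1 := by
  constructor
  · intro a b v
    simp [qf, J1_apply, Complex.normSq_apply]
    ring
  · intro v
    simp [J1_apply, Prod.ext_iff]

theorem isRot_J2 : IsRot J2 := by
  constructor
  · intro a b v
    simp [qf, J2_apply, Complex.normSq_apply]
    ring
  · intro v
    simp [J2_apply, Prod.ext_iff, ← mul_assoc]

variable {J : (ℂ × ℂ) →L[ℝ] (ℂ × ℂ)}

/-- The rotation `cos t + sin t J`. -/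
def rot (J : (ℂ × ℂ) →L[ℝ] (ℂ × ℂ)) (t : ℝ) (v : ℂ × ℂ) : ℂ × ℂ :=
  Real.cos t • v + Real.sin t • J v

theorem rot_zero (v : ℂ × ℂ) : rot J 0 v = v := by simp [rot]

theorem qf_rot (hJ : IsRot J) (t : ℝ) (v : ℂ × ℂ) : qf (rot J t v) = qf v := by
  rw [rot, hJ.q, Real.cos_sq_add_sin_sq, one_mul]

theorem rot_mem (hJ : IsRot J) (t : ℝ) {v : ℂ × ℂ} (hv : v ∈ S3) : rot J t v ∈ S3 := by
  rw [S3, Set.mem_ofPred_eq, qf_rot hJ]
  exact hv

theorem hasDerivAt_rot (hJ : IsRot J) (t : ℝ) (v : ℂ × ℂ) :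
    HasDerivAt (fun s => rot J s v) (J (rot J t v)) t := by
  have h1 : HasDerivAt (fun s => Real.cos s • v) (-Real.sin t • v) t :=
    (Real.hasDerivAt_cos t).smul_const v
  have h2 : HasDerivAt (fun s => Real.sin s • J v) (Real.cos t • J v) t :=
    (Real.hasDerivAt_sin t).smul_const (J v)
  have h3 := h1.add h2
  have h4 : J (rot J t v) = -Real.sin t • v + Real.cos t • J v := by
    rw [rot, map_add, map_smul, map_smul, hJ.sq]
    module
  rw [h4]
  exact h3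

theorem rot_rot (hJ : IsRot J) (t : ℝ) (v : ℂ × ℂ) : rot J (-t) (rot J t v) = v := by
  have h := Real.cos_sq_add_sin_sq t
  simp only [rot, Real.cos_neg, Real.sin_neg, map_add, map_smul, hJ.sq]
  have h5 : v = (Real.cos t ^ 2 + Real.sin t ^ 2) • v := by rw [h, one_smul]
  conv_rhs => rw [h5]
  module

/-- Two functions that agree on the sphere near `p` have the same derivative along `J p`. -/
theorem fderiv_sphere {G : Type*} [NormedAddCommGroup G] [NormedSpace ℝ G]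
    (hJ : IsRot J) {p : ℂ × ℂ} (hp : p ∈ S3) {f g : ℂ × ℂ → G} (hf : DifferentiableAt ℝ f p)
    (hg : DifferentiableAt ℝ g p) (hfg : ∀ᶠ v in 𝓝 p, v ∈ S3 → f v = g v) :
    fderiv ℝ f p (J p) = fderiv ℝ g p (J p) := by
  have h0 : HasDerivAt (fun s => rot J s p) (J p) 0 := by
    simpa [rot_zero] using hasDerivAt_rot hJ 0 p
  have h1 : HasDerivAt (fun s => f (rot J s p)) (fderiv ℝ f p (J p)) 0 := by
    have hf' : HasFDerivAt f (fderiv ℝ f p) (rot J 0 p) := by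
      rw [rot_zero]; exact hf.hasFDerivAt
    exact hf'.comp_hasDerivAt 0 h0
  have h2 : HasDerivAt (fun s => g (rot J s p)) (fderiv ℝ g p (J p)) 0 := by
    have hg' : HasFDerivAt g (fderiv ℝ g p) (rot J 0 p) := by
      rw [rot_zero]; exact hg.hasFDerivAt
    exact hg'.comp_hasDerivAt 0 h0
  have h3 : (fun s => f (rot J s p)) =ᶠ[𝓝 0] fun s => g (rot J s p) := by
    have h4 : Filter.Tendsto (fun s => rot J s p) (𝓝 0) (𝓝 p) := by
      have := h0.continuousAt.tendsto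
      rwa [rot_zero] at this
    filter_upwards [h4.eventually hfg] with s hs
    exact hs (rot_mem hJ s hp)
  exact (h1.congr_of_eventuallyEq h3.symm).unique h2 |>.symm ▸ rfl

end Pool.Agent.W554.CR
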