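import Pool.Agent.W554.CR.Inverse

set_option autoImplicit false

open scoped ContDiff Topology ComplexConjugate
open MeasureTheory

noncomputable section

namespace Pool.Agent.W554.CR

theorem hasDerivAt_FF (p : ℂ × ℂ) {q : ℝ → ℂ × ℂ} {u : ℂ × ℂ} {t : ℝ} (hq : HasDerivAt q u t)
    (hp : q t = p) : HasDerivAt (fun s => FF (q s)) (DF p u) t := by
  have h1 : HasFDerivAt FF (fderiv ℝ FF p) (q t) := by
    rw [hp]; exact (contDiff_FF.differentiable (by norm_num) p).hasFDerivAt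
  have h2 := h1.comp_hasDerivAt t hq
  rw [← fderiv_FF]
  exact h2

theorem flow_step {J : (ℂ × ℂ) →L[ℝ] (ℂ × ℂ)} (c : ℝ) {q : ℝ → ℂ × ℂ}
    {u : ℂ × ℂ} (hq : HasDerivAt q u 0) :
    HasDerivAt (fun t => rot J (c * t) (q t)) (c • J (q 0) + u) 0 := by
  have h0 : HasDerivAt (fun t : ℝ => c * t) c 0 := by simpa using (hasDerivAt_id (0:ℝ)).const_mul c
  have h1 : HasDerivAt (fun t : ℝ => Real.cos (c * t)) (-Real.sin (c * 0) * c) 0 := h0.cos
  have h2 : HasDerivAt (fun t : ℝ => Real.sin (c * t)) (Real.cos (c * 0) * c) 0 := h0.sin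
  have h3 := h1.smul hq
  have h4 := h2.smul (J.hasFDerivAt.comp_hasDerivAt (0 : ℝ) hq)
  have h5 := h3.add h4
  have h6 : c • J (q 0) + u = Real.cos (c * 0) • u + (-Real.sin (c * 0) * c) • q 0 +
      (Real.sin (c * 0) • J u + (Real.cos (c * 0) * c) • J (q 0)) := by
    simp only [mul_zero, Real.sin_zero, Real.cos_zero, neg_zero, zero_mul, zero_smul, one_smul,
      add_zero, one_mul, zero_add]
    abel
  rw [h6]
  exact h5

/-- A curve in the sphere with a prescribed velocity. -/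
theorem exists_curve {p : ℂ × ℂ} (hp : p ∈ S3) (c0 c1 c2 : ℝ) :
    ∃ q : ℝ → ℂ × ℂ, q 0 = p ∧ (∀ t, q t ∈ S3) ∧
      HasDerivAt q (c0 • J0 p + c1 • J1 p + c2 • J2 p) 0 := by
  have h0 : HasDerivAt (fun _ : ℝ => p) 0 0 := hasDerivAt_const _ _
  have h1 := flow_step (J := J2) c2 h0
  have h2 := flow_step (J := J1) c1 h1
  have h3 := flow_step (J := J0) c0 h2
  refine ⟨fun t => rot J0 (c0 * t) (rot J1 (c1 * t) (rot J2 (c2 * t) p)), ?_, ?_, ?_⟩
  · simp [rot_zero]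
  · intro t
    exact rot_mem isRot_J0 _ (rot_mem isRot_J1 _ (rot_mem isRot_J2 _ hp))
  · have e : c0 • J0 p + c1 • J1 p + c2 • J2 p =
      c0 • J0 (rot J1 (c1 * 0) (rot J2 (c2 * 0) p)) + (c1 • J1 (rot J2 (c2 * 0) p) +
        (c2 • J2 p + 0)) := by
      simp only [mul_zero, rot_zero, add_zero]
      abel
    rw [e]
    exact h3

theorem E_comb (p : ℂ × ℂ) (b a1 a2 : ℝ) : b • J0 p + a1 • E1 p + a2 • E2 p =
    (b + 4 * (a1 * p.2.im + a2 * p.2.re)) • J0 p + a1 • J1 p + a2 • J2 p := by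
  rw [E1, E2]
  module

theorem J_comb (p : ℂ × ℂ) (b a1 a2 : ℝ) : b • J0 p + a1 • J1 p + a2 • J2 p =
    (b - 4 * (a1 * p.2.im + a2 * p.2.re)) • J0 p + a1 • E1 p + a2 • E2 p := by
  rw [E1, E2]
  module

/-- `T F`. -/
def TT (v : ℂ × ℂ) : Fin 4 → ℂ := DF v (J0 v)

theorem DF_comb {p : ℂ × ℂ} (hp : p ∈ S3) (b a1 a2 : ℝ) :
    DF p (b • J0 p + a1 • E1 p + a2 • E2 p) =
      (b : ℂ) • TT p + ((a1 : ℂ) + a2 * Complex.I) • VV p := by
  rw [DF_add, DF_add, DF_smul, DF_smul, DF_smul, DF_E1 hp, DF_E2 hp, TT]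
  ext i
  simp
  ring

theorem mem_Tan_of {p : ℂ × ℂ} (hp : p ∈ S3) (b a1 a2 : ℝ) :
    DF p (b • J0 p + a1 • E1 p + a2 • E2 p) ∈ Tan MM (FF p) := by
  obtain ⟨q, h0, h1, h2⟩ := exists_curve hp (b + 4 * (a1 * p.2.im + a2 * p.2.re)) a1 a2
  rw [← E_comb] at h2
  refine ⟨fun t => FF (q t), congrArg FF h0, hasDerivAt_FF p h2 h0, ?_⟩
  exact Filter.Eventually.of_forall fun t => ⟨q t, h1 t, rfl⟩

theorem exists_of_mem_Tan {p : ℂ × ℂ} (hp : p ∈ S3) {v : Fin 4 → ℂ} (hv : v ∈ Tan MM (FF p)) :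
    ∃ b a1 a2 : ℝ, v = DF p (b • J0 p + a1 • E1 p + a2 • E2 p) := by
  obtain ⟨γ, h0, h1, h2⟩ := hv
  have hU : U0 p ∈ 𝓝 (FF p) := (isOpen_U0 p).mem_nhds (FF_mem_U0 hp)
  have hg : DifferentiableAt ℝ (gg p) (FF p) :=
    ((contDiffOn_gg p).contDiffAt hU).differentiableAt (by norm_num)
  set u := fderiv ℝ (gg p) (FF p) v with hu
  have hq : HasDerivAt (fun t => gg p (γ t)) u 0 := by
    have h3 : HasFDerivAt (gg p) (fderiv ℝ (gg p) (FF p)) (γ 0) := by
      rw [h0]; exact hg.hasFDerivAt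
    exact h3.comp_hasDerivAt 0 h1
  have hq0 : gg p (γ 0) = p := by rw [h0, gg_self hp]
  have hev : ∀ᶠ t in 𝓝 (0 : ℝ), gg p (γ t) ∈ S3 ∧ FF (gg p (γ t)) = γ t := by
    have h4 : Filter.Tendsto γ (𝓝 0) (𝓝 (FF p)) := by
      have := h1.continuousAt.tendsto
      rwa [h0] at this
    filter_upwards [h2, h4.eventually hU] with t ht ht'
    exact ⟨(gg_mem ht ht').1, (gg_mem ht ht').2.1⟩
  have hv' : v = DF p u := by
    have h5 := hasDerivAt_FF p hq hq0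
    have h6 : (fun t => FF (gg p (γ t))) =ᶠ[𝓝 0] γ := by
      filter_upwards [hev] with t ht using ht.2
    exact (h1.unique (h5.congr_of_eventuallyEq h6.symm))
  have hq1 : HasDerivAt (fun t => (gg p (γ t)).1) u.1 0 :=
    (ContinuousLinearMap.fst ℝ ℂ ℂ).hasFDerivAt.comp_hasDerivAt 0 hq
  have hq2 : HasDerivAt (fun t => (gg p (γ t)).2) u.2 0 :=
    (ContinuousLinearMap.snd ℝ ℂ ℂ).hasFDerivAt.comp_hasDerivAt 0 hq
  have hc1 : HasDerivAt (fun t => conj (gg p (γ t)).1) (conj u.1) 0 :=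
    (Complex.conjCLE : ℂ →L[ℝ] ℂ).hasFDerivAt.comp_hasDerivAt 0 hq1
  have hc2 : HasDerivAt (fun t => conj (gg p (γ t)).2) (conj u.2) 0 :=
    (Complex.conjCLE : ℂ →L[ℝ] ℂ).hasFDerivAt.comp_hasDerivAt 0 hq2
  have h7 := (hq1.mul hc1).add (hq2.mul hc2)
  have h8 : ((fun t => (gg p (γ t)).1) * (fun t => conj (gg p (γ t)).1) +
      (fun t => (gg p (γ t)).2) * fun t => conj (gg p (γ t)).2) =ᶠ[𝓝 (0:ℝ)] fun _ => (1 : ℂ) := by
    filter_upwards [hev] with t ht using S3_eq ht.1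
  have h9 := h7.unique ((hasDerivAt_const (0:ℝ) (1:ℂ)).congr_of_eventuallyEq h8)
  rw [hq0] at h9
  have h := S3_eq hp
  refine ⟨(u.1 * conj p.1 + u.2 * conj p.2).im -
      4 * ((u.1 * p.2 - u.2 * p.1).re * p.2.im + (u.1 * p.2 - u.2 * p.1).im * p.2.re),
    (u.1 * p.2 - u.2 * p.1).re, (u.1 * p.2 - u.2 * p.1).im, ?_⟩
  rw [hv', ← J_comb]
  congr 1
  have e1 : (((u.1 * conj p.1 + u.2 * conj p.2).im : ℝ) : ℂ) * Complex.I =
      u.1 * conj p.1 + u.2 * conj p.2 := by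
    rw [two_im]
    simp only [map_add, map_mul, Complex.conj_conj]
    linear_combination (-(1/2) * (u.1 * conj p.1 + u.2 * conj p.2 -
      (conj u.1 * p.1 + conj u.2 * p.2))) * Complex.I_mul_I - (1/2) * h9
  have e2 : (((u.1 * p.2 - u.2 * p.1).re : ℝ) : ℂ) + ((u.1 * p.2 - u.2 * p.1).im : ℝ) * Complex.I =
      u.1 * p.2 - u.2 * p.1 := Complex.re_add_im _
  ext1
  · simp only [Prod.fst_add, Prod.smul_fst, J0_apply, J1_apply, J2_apply, Complex.real_smul]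
    linear_combination (-p.1) * e1 - conj p.2 * e2 + (-u.1) * h
  · simp only [Prod.snd_add, Prod.smul_snd, J0_apply, J1_apply, J2_apply, Complex.real_smul]
    linear_combination (-p.2) * e1 + conj p.1 * e2 + (-u.2) * h

theorem k_ne {v : ℂ × ℂ} (hv : v ∈ S3) : k0 v ≠ 0 ∨ k1 v ≠ 0 ∨ k2 v ≠ 0 := by
  by_contra! h
  apply KKK_ne hv
  rw [KKK, h.1, h.2.1, h.2.2]
  simp

theorem indep {p : ℂ × ℂ} (hp : p ∈ S3) {α β : ℂ} (h : α • TT p + β • VV p = 0) :
    α = 0 ∧ β = 0 := by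
  have hT : ∀ i, (TT p) i = 3 * Complex.I * (![p.1 ^ 3, p.1 ^ 2 * p.2, p.1 * p.2 ^ 2,
      p.2 ^ 3] i) := by
    intro i; rw [TT, DF_J0]; rfl
  have h0 := congrFun h 0
  have h1 := congrFun h 1
  have h2 := congrFun h 2
  have h3 := congrFun h 3
  simp only [Pi.add_apply, Pi.smul_apply, smul_eq_mul, hT, Pi.zero_apply] at h0 h1 h2 h3
  simp at h0 h1 h2 h3
  have hb : β = 0 := by
    have e0 := VV_0 hp
    have e1 := VV_1 hp
    have e2 := VV_2 hp
    rcases k_ne hp with hk | hk | hk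
    · have : β * k0 p = 0 := by rw [← e0]; linear_combination p.2 * h0 - p.1 * h1
      exact (mul_eq_zero.1 this).resolve_right hk
    · have : β * k1 p = 0 := by rw [← e1]; linear_combination p.2 * h1 - p.1 * h2
      exact (mul_eq_zero.1 this).resolve_right hk
    · have : β * k2 p = 0 := by rw [← e2]; linear_combination p.2 * h2 - p.1 * h3
      exact (mul_eq_zero.1 this).resolve_right hk
  refine ⟨?_, hb⟩
  subst hb
  have hI := Complex.I_ne_zero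
  have g0 : α * p.1 ^ 3 = 0 := by
    have : (3 * Complex.I) * (α * p.1 ^ 3) = 0 := by linear_combination h0
    exact (mul_eq_zero.1 this).resolve_left (mul_ne_zero (by norm_num) hI)
  have g3 : α * p.2 ^ 3 = 0 := by
    have : (3 * Complex.I) * (α * p.2 ^ 3) = 0 := by linear_combination h3
    exact (mul_eq_zero.1 this).resolve_left (mul_ne_zero (by norm_num) hI)
  by_contra hα
  have a1 : p.1 = 0 := by
    have := (mul_eq_zero.1 g0).resolve_left hα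
    exact pow_eq_zero_iff (by norm_num) |>.1 this
  have a2 : p.2 = 0 := by
    have := (mul_eq_zero.1 g3).resolve_left hα
    exact pow_eq_zero_iff (by norm_num) |>.1 this
  have := S3_eq hp
  rw [a1, a2] at this
  simp at this

theorem comb_unique {p : ℂ × ℂ} (hp : p ∈ S3) {α β α' β' : ℂ}
    (h : α • TT p + β • VV p = α' • TT p + β' • VV p) : α = α' ∧ β = β' := by
  have h1 : (α - α') • TT p + (β - β') • VV p = 0 := by
    have : (α - α') • TT p + (β - β') • VV p = (α • TT p + β • VV p) -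
      (α' • TT p + β' • VV p) := by module
    rw [this, h, sub_self]
  obtain ⟨h2, h3⟩ := indep hp h1
  exact ⟨sub_eq_zero.1 h2, sub_eq_zero.1 h3⟩

theorem mem_Tan_iff {p : ℂ × ℂ} (hp : p ∈ S3) {v : Fin 4 → ℂ} :
    v ∈ Tan MM (FF p) ↔ ∃ (b : ℝ) (a : ℂ), v = (b : ℂ) • TT p + a • VV p := by
  constructor
  · intro hv
    obtain ⟨b, a1, a2, rfl⟩ := exists_of_mem_Tan hp hv
    exact ⟨b, _, DF_comb hp b a1 a2⟩
  · rintro ⟨b, a, rfl⟩
    have h := mem_Tan_of hp b a.re a.im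
    rw [DF_comb hp, Complex.re_add_im] at h
    exact h

theorem mem_Hol_iff {p : ℂ × ℂ} (hp : p ∈ S3) {v : Fin 4 → ℂ} :
    v ∈ Hol MM (FF p) ↔ ∃ a : ℂ, v = a • VV p := by
  constructor
  · rintro ⟨h1, h2⟩
    obtain ⟨b, a, rfl⟩ := (mem_Tan_iff hp).1 h1
    obtain ⟨b', a', h3⟩ := (mem_Tan_iff hp).1 h2
    have h4 : (Complex.I * b) • TT p + (Complex.I * a) • VV p = (b' : ℂ) • TT p + a' • VV p := by
      rw [← h3]; module
    have h5 := (comb_unique hp h4).1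
    have h6 : b = 0 := by
      have := congrArg Complex.im h5
      simpa using this
    exact ⟨a, by rw [h6]; simp⟩
  · rintro ⟨a, rfl⟩
    refine ⟨(mem_Tan_iff hp).2 ⟨0, a, by simp⟩, (mem_Tan_iff hp).2 ⟨0, Complex.I * a, ?_⟩⟩
    rw [smul_smul]; simp

theorem VV_ne {p : ℂ × ℂ} (hp : p ∈ S3) : VV p ≠ 0 := by
  intro h
  have := (indep hp (α := 0) (β := 1) (by rw [h]; simp)).2
  exact one_ne_zero this

end Pool.Agent.W554.CR
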